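import Pool.Agent.H65.SP.PG

/-!
# Chains of normal subgroups
-/

set_option autoImplicit false

namespace H65.SP

open MonoidAlgebra H58.SP

universe u

/-- `M` is a normal subgroup of the finite group `G` and it is `p`-solvable: there is a chain
`1 = N 0 ≤ N 1 ≤ ... ≤ N k = M` of normal subgroups of `G` each of whose indices is a power of `p`
or is not divisible by `p`. -/
def PSolvableIn {G : Type u} [Group G] (p : ℕ) (M : Subgroup G) : Prop :=
  ∃ (k : ℕ) (N : ℕ → Subgroup G), N 0 = ⊥ ∧ N k = M ∧ (∀ i, (N i).Normal) ∧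
    (∀ i < k, N i ≤ N (i + 1)) ∧
    ∀ i < k, (∃ e : ℕ, (N i).relIndex (N (i + 1)) = p ^ e) ∨ ¬ p ∣ (N i).relIndex (N (i + 1))

section

variable {G : Type u} [Group G]

/-- the map between quotients -/
def qm (A B : Subgroup G) [A.Normal] [B.Normal] (h : A ≤ B) : G ⧸ A →* G ⧸ B :=
  QuotientGroup.map A B (MonoidHom.id G) h

theorem qm_mk (A B : Subgroup G) [A.Normal] [B.Normal] (h : A ≤ B) (x : G) :
    qm A B h (QuotientGroup.mk' A x) = QuotientGroup.mk' B x := rfl

theorem qm_comp (A B C : Subgroup G) [A.Normal] [B.Normal] [C.Normal] (h : A ≤ B) (h' : B ≤ C) :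
    (qm B C h').comp (qm A B h) = qm A C (h.trans h') := by
  ext x
  rfl

theorem qm_self (A : Subgroup G) [A.Normal] : qm A A le_rfl = MonoidHom.id _ := by
  ext x
  rfl

variable [Finite G]

theorem no_chain {p : ℕ} (hp : p.Prime) (L : Subgroup G) [L.Normal] (N : ℕ → Subgroup G)
    [hn : ∀ i, (N i).Normal] (k : ℕ) (hle : ∀ i < k, N i ≤ N (i + 1)) (hmon : ∀ i ≤ k, N i ≤ N k)
    (hrel : ∀ i < k, (∃ e : ℕ, (N i).relIndex (N (i + 1)) = p ^ e) ∨ ¬ p ∣ (N i).relIndex (N (i + 1)))
    (hL : N k ⊓ L = ⊥) (j : ℕ) : ∀ (i : ℕ) (hij : i + j = k) (w : MonoidAlgebra ℤ (G ⧸ N i)),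
      sg (Set.univ : Set (G ⧸ N i)) w = 1 → orderOf w = p →
      mp (qm (N i) (L ⊔ N i) le_sup_right) w = 1 → mp (qm (N i) (N k) (hmon i (by omega))) w = 1 → False := by
  induction j with
  | zero =>
    intro i hij w _ hord _ h2
    rw [add_zero] at hij
    subst hij
    have h3 : mp (qm (N i) (N i) le_rfl) w = 1 := h2
    rw [qm_self, mp_id] at h3
    rw [h3, orderOf_one] at hord
    exact hp.one_lt.ne hord
  | succ j ih =>
    intro i hij w haug hord h1 h2
    have hik : i < k := by omega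
    have : Fact p.Prime := ⟨hp⟩
    by_cases hw : mp (qm (N i) (N (i + 1)) (hle i hik)) w = 1
    · have hMn : ((N (i + 1)).map (QuotientGroup.mk' (N i))).Normal :=
        Subgroup.Normal.map inferInstance _ (QuotientGroup.mk'_surjective _)
      have hLn : (L.map (QuotientGroup.mk' (N i))).Normal :=
        Subgroup.Normal.map inferInstance _ (QuotientGroup.mk'_surjective _)
      refine no_step hp ((N (i + 1)).map (QuotientGroup.mk' (N i))) (L.map (QuotientGroup.mk' (N i))) ?_ ?_ w
        haug hord ?_ ?_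
      · rw [card_map_mk]
        exact hrel i hik
      · rw [eq_bot_iff]
        rintro y ⟨⟨m, hm, rfl⟩, ⟨l, hl, hlm⟩⟩
        rw [Subgroup.mem_bot]
        have h3 : m⁻¹ * l ∈ N i := by
          rw [← QuotientGroup.eq]
          exact hlm.symm
        have h4 : l ∈ N k ⊓ L := by
          refine Subgroup.mem_inf.2 ⟨?_, hl⟩
          have := (N (i + 1)).mul_mem hm (hle i hik h3)
          rw [mul_inv_cancel_left] at this
          exact hmon (i + 1) (by omega) this
        rw [hL, Subgroup.mem_bot] at h4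
        rw [← hlm, h4, map_one]
      · refine red_eq_one ?_ hw
        intro y hy
        obtain ⟨x, rfl⟩ := QuotientGroup.mk'_surjective (N i) y
        rw [MonoidHom.mem_ker, qm_mk, QuotientGroup.mk'_apply, QuotientGroup.eq_one_iff] at hy
        exact ⟨x, hy, rfl⟩
      · refine red_eq_one ?_ h1
        intro y hy
        obtain ⟨x, rfl⟩ := QuotientGroup.mk'_surjective (N i) y
        rw [MonoidHom.mem_ker, qm_mk, QuotientGroup.mk'_apply, QuotientGroup.eq_one_iff,
          Subgroup.mem_sup_of_normal_right] at hy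
        obtain ⟨l, hl, n, hn', rfl⟩ := hy
        refine ⟨l, hl, ?_⟩
        rw [QuotientGroup.mk'_apply, QuotientGroup.mk'_apply, QuotientGroup.mk_mul_of_mem l hn']
    · have hordw : orderOf (mp (qm (N i) (N (i + 1)) (hle i hik)) w) = p := by
        refine orderOf_eq_prime ?_ hw
        rw [← map_pow, ← hord, pow_orderOf_eq_one, map_one]
      refine ih (i + 1) (by omega) _ (by rw [aug_mp, haug]) hordw ?_ ?_
      · rw [mp_comp, qm_comp]
        have h3 : L ⊔ N i ≤ L ⊔ N (i + 1) := sup_le_sup_left (hle i hik) L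
        have h4 : qm (N i) (L ⊔ N (i + 1)) ((hle i hik).trans le_sup_right) =
            (qm (L ⊔ N i) (L ⊔ N (i + 1)) h3).comp (qm (N i) (L ⊔ N i) le_sup_right) := (qm_comp _ _ _ _ _).symm
        rw [h4, ← mp_comp, h1, map_one]
      · rw [mp_comp, qm_comp]
        exact h2

/-- **no torsion unit of order `p` is trivial modulo two normal subgroups with trivial intersection, one
of which is `p`-solvable** -/
theorem no_two {p : ℕ} (hp : p.Prime) (K L : Subgroup G) [K.Normal] [L.Normal] (hK : PSolvableIn p K)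
    (hKL : K ⊓ L = ⊥) (w : MonoidAlgebra ℤ G) (haug : sg (Set.univ : Set G) w = 1) (hord : orderOf w = p)
    (h1 : red K w = 1) (h2 : red L w = 1) : False := by
  obtain ⟨k, N, h0, hk, hn, hle, hrel⟩ := hK
  have hmon : ∀ i ≤ k, N i ≤ N k := by
    intro i hi
    refine Nat.decreasingInduction' (n := k) (m := i) (P := fun i => N i ≤ N k) ?_ hi le_rfl
    intro j hj _ h
    exact (hle j hj).trans h
  have hL : N k ⊓ L = ⊥ := by rw [hk, hKL]
  refine no_chain hp L N k hle hmon hrel hL k 0 (by omega) (red (N 0) w) (by rw [aug_red, haug]) ?_ ?_ ?_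
  · rw [← hord]
    refine orderOf_injective (red (N 0) : MonoidAlgebra ℤ G →* MonoidAlgebra ℤ (G ⧸ N 0)) ?_ w
    refine mp_injective (f := QuotientGroup.mk' (N 0)) ?_
    rw [← MonoidHom.ker_eq_bot_iff, QuotientGroup.ker_mk', h0]
  · rw [red_eq, mp_comp]
    refine mp_eq_one (M := L) ?_ h2
    intro x hx
    rw [MonoidHom.mem_ker, MonoidHom.comp_apply, qm_mk, QuotientGroup.mk'_apply, QuotientGroup.eq_one_iff]
    exact Subgroup.mem_sup_left hx
  · rw [red_eq, mp_comp]
    refine mp_eq_one (M := K) ?_ h1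
    intro x hx
    rw [MonoidHom.mem_ker, MonoidHom.comp_apply, qm_mk, QuotientGroup.mk'_apply, QuotientGroup.eq_one_iff, hk]
    exact hx

end

end H65.SP
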