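import Pool.Agent.H65.SP.Tame

/-!
# Examples of fixed point free groups
-/

set_option autoImplicit false

namespace H65.SP

universe u v

open scoped LinearAlgebra.Projectivization

/-- a fixed point free group is `p`-tame -/
theorem tameIn_top_of_fpf {G : Type u} [Group G] {p : ℕ} (hp : p.Prime) (h : FixedPointFree p G) :
    TameIn p (⊤ : Subgroup G) := by
  obtain ⟨V, i1, i2, h1, h2, h3, h4⟩ := h
  refine ⟨1, fun i => if i = 0 then ⊥ else ⊤, if_pos rfl, if_neg one_ne_zero, ?_, ?_, ?_⟩
  · intro i
    change (if i = 0 then (⊥ : Subgroup G) else ⊤).Normal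
    split_ifs
    · infer_instance
    · infer_instance
  · intro i hi
    obtain rfl : i = 0 := by omega
    exact bot_le
  · intro i hi
    obtain rfl : i = 0 := by omega
    right
    change FreeFactor p (⊥ : Subgroup G) (⊤ : Subgroup G)
    refine ⟨V, i1, DistribMulAction.compHom V (Subgroup.subtype (⊤ : Subgroup G)), h1, h2, h3, ?_, ?_⟩
    · intro x hx v
      change (x : G) • v = v
      rw [Subgroup.mem_bot.1 hx, one_smul]
    · intro x hx hxp v hv
      have : Fact p.Prime := ⟨hp⟩
      exact h4 x (orderOf_eq_prime (Subgroup.mem_bot.1 hxp) hx) v hv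

/-- subgroups of fixed point free groups -/
theorem FixedPointFree.subgroup {G : Type*} [Group G] {p : ℕ} (h : FixedPointFree p G) (H : Subgroup G) :
    FixedPointFree p H := by
  obtain ⟨V, i1, i2, h1, h2, h3, h4⟩ := h
  refine ⟨V, i1, DistribMulAction.compHom V H.subtype, h1, h2, h3, ?_⟩
  intro x hx v hv
  refine h4 (x : G) ?_ v hv
  rw [← hx]
  exact orderOf_injective H.subtype H.subtype_injective x

section

variable {K : Type*} [Group K] (X : Type) [Fintype X] [MulAction K X] (l : ℕ)

/-- differences of functions of sum zero -/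
def DifV : AddSubgroup (X → X → ZMod l) where
  carrier := {w | ∃ v : X → ZMod l, ∑ x, v x = 0 ∧ ∀ x y, w x y = v x - v y}
  zero_mem' := ⟨0, by simp, fun x y => by simp⟩
  add_mem' := by
    rintro w w' ⟨v, h1, h2⟩ ⟨v', h3, h4⟩
    refine ⟨v + v', ?_, fun x y => ?_⟩
    · simp only [Pi.add_apply, Finset.sum_add_distrib, h1, h3, add_zero]
    · rw [Pi.add_apply, Pi.add_apply, Pi.add_apply, Pi.add_apply, h2, h4]
      ring
  neg_mem' := by
    rintro w ⟨v, h1, h2⟩
    refine ⟨-v, ?_, fun x y => ?_⟩
    · simp only [Pi.neg_apply, Finset.sum_neg_distrib, h1, neg_zero]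
    · rw [Pi.neg_apply, Pi.neg_apply, Pi.neg_apply, Pi.neg_apply, h2]
      ring

/-- the action on differences -/
instance instDifV : DistribMulAction K (DifV X l) where
  smul k w := ⟨fun x y => w.1 (k⁻¹ • x) (k⁻¹ • y), by
    obtain ⟨v, h1, h2⟩ := w.2
    refine ⟨fun x => v (k⁻¹ • x), ?_, fun x y => h2 _ _⟩
    rw [← h1]
    exact Equiv.sum_comp (MulAction.toPerm k⁻¹) v⟩
  one_smul w := by
    apply Subtype.ext
    funext x y
    change w.1 ((1 : K)⁻¹ • x) ((1 : K)⁻¹ • y) = w.1 x y
    rw [inv_one, one_smul, one_smul]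
  mul_smul k k' w := by
    apply Subtype.ext
    funext x y
    change w.1 ((k * k')⁻¹ • x) ((k * k')⁻¹ • y) = w.1 (k'⁻¹ • k⁻¹ • x) (k'⁻¹ • k⁻¹ • y)
    rw [mul_inv_rev, mul_smul, mul_smul]
  smul_zero k := rfl
  smul_add k w w' := rfl

theorem difV_smul (k : K) (w : DifV X l) (x y : X) : (k • w).1 x y = w.1 (k⁻¹ • x) (k⁻¹ • y) := rfl

end

/-- **groups with an action on `p` or `p + 1` points in which the elements of order `p` act nontrivially
are fixed point free** -/
theorem fpf_perm {K : Type*} [Group K] {p : ℕ} (hp : p.Prime) (X : Type) [Finite X] [MulAction K X]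
    (hX : Nat.card X = p ∨ Nat.card X = p + 1)
    (hact : ∀ x : K, orderOf x = p → ∃ a : X, x • a ≠ a) : FixedPointFree p K := by
  classical
  have : Fintype X := Fintype.ofFinite X
  have : Fact p.Prime := ⟨hp⟩
  rw [Nat.card_eq_fintype_card] at hX
  -- the prime
  obtain ⟨l, hl, hlp, hlX⟩ : ∃ l : ℕ, l.Prime ∧ l ≠ p ∧ (Fintype.card X = p + 1 → l ∣ p + 1) := by
    rcases hX with h | h
    · obtain ⟨l, hl1, hl2⟩ := Nat.exists_infinite_primes (p + 1)
      exact ⟨l, hl2, by omega, fun h' => by omega⟩
    · refine ⟨(p + 1).minFac, Nat.minFac_prime (by have := hp.pos; omega), ?_, fun _ => Nat.minFac_dvd _⟩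
      intro h1
      have h2 : p ∣ p + 1 := by
        conv_lhs => rw [← h1]
        exact Nat.minFac_dvd _
      have h3 : p ∣ 1 := (Nat.dvd_add_right (dvd_refl p)).1 h2
      exact hp.one_lt.ne' (Nat.dvd_one.1 h3)
  have hfl : Fact l.Prime := ⟨hl⟩
  have hp0 : (p : ZMod l) ≠ 0 := by
    rw [Ne, ZMod.natCast_eq_zero_iff]
    intro h
    exact hlp ((Nat.prime_dvd_prime_iff_eq hl hp).1 h)
  refine ⟨DifV X l, inferInstance, instDifV X l, inferInstance, ?_, ?_, ?_⟩
  · -- nontrivial
    have hp2 := hp.two_le
    have h1 : 1 < Fintype.card X := by omega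
    obtain ⟨x, y, hxy⟩ := Fintype.exists_pair_of_one_lt_card h1
    let v : X → ZMod l := Pi.single x 1 - Pi.single y 1
    have hv : ∑ z, v z = 0 := by
      change ∑ z, ((Pi.single x 1 : X → ZMod l) - (Pi.single y 1 : X → ZMod l)) z = 0
      simp only [Pi.sub_apply, Finset.sum_sub_distrib, Finset.sum_pi_single', Finset.mem_univ, if_true,
        sub_self]
    have hvx : v x = 1 := by
      change (Pi.single x 1 : X → ZMod l) x - (Pi.single y 1 : X → ZMod l) x = 1
      rw [Pi.single_eq_same, Pi.single_eq_of_ne hxy, sub_zero]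
    have hvy : v y = -1 := by
      change (Pi.single x 1 : X → ZMod l) y - (Pi.single y 1 : X → ZMod l) y = -1
      rw [Pi.single_eq_same, Pi.single_eq_of_ne hxy.symm, zero_sub]
    refine ⟨⟨fun a b => v a - v b, v, hv, fun _ _ => rfl⟩, 0, ?_⟩
    intro h
    have h2 : ∀ a b, v a - v b = 0 := fun a b => congrFun (congrFun (congrArg Subtype.val h) a) b
    have h3 := h2 x y
    rw [hvx, hvy, sub_neg_eq_add] at h3
    by_cases h4 : 2 < Fintype.card X
    · obtain ⟨z, hz⟩ : ∃ z, z ∉ ({x, y} : Finset X) := by
        by_contra h5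
        push Not at h5
        have h6 : (Finset.univ : Finset X) ⊆ {x, y} := fun z _ => h5 z
        have h7 := Finset.card_le_card h6
        have h8 := Finset.card_le_two (a := x) (b := y)
        rw [Finset.card_univ] at h7
        omega
      rw [Finset.mem_insert, Finset.mem_singleton, not_or] at hz
      have h5 : v z = 0 := by
        change (Pi.single x 1 : X → ZMod l) z - (Pi.single y 1 : X → ZMod l) z = 0
        rw [Pi.single_eq_of_ne hz.1, Pi.single_eq_of_ne hz.2, sub_zero]
      have h6 := h2 x z
      rw [hvx, h5, sub_zero] at h6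
      exact one_ne_zero h6
    · have h5 : p = 2 := by omega
      apply hp0
      rw [h5]
      push_cast
      rw [← h3]
      norm_num
  · -- order prime to `p`
    have h1 : Nat.card (DifV X l) ∣ Nat.card (X → X → ZMod l) := AddSubgroup.card_addSubgroup_dvd_card _
    have h2 : Nat.card (X → X → ZMod l) = (l ^ Nat.card X) ^ Nat.card X := by
      rw [Nat.card_fun, Nat.card_fun, Nat.card_zmod]
    rw [h2] at h1
    refine Nat.Coprime.coprime_dvd_left h1 ?_
    exact Nat.Coprime.pow_left _ (Nat.Coprime.pow_left _ ((Nat.coprime_primes hl hp).2 hlp))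
  · -- fixed point free
    intro k hk w hw
    obtain ⟨v, hv0, hv⟩ := w.2
    set σ : Equiv.Perm X := MulAction.toPermHom K X k⁻¹ with hσ
    have hσa : ∀ a, σ a = k⁻¹ • a := fun a => rfl
    have hkp : k ^ p = 1 := by rw [← hk]; exact pow_orderOf_eq_one k
    have hσp : σ ^ p = 1 := by rw [hσ, ← map_pow, inv_pow, hkp, inv_one, map_one]
    have hσ1 : σ ≠ 1 := by
      intro h
      obtain ⟨a, ha⟩ := hact k hk
      apply ha
      have h1 : k⁻¹ • a = a := by rw [← hσa, h]; rfl
      rw [inv_smul_eq_iff] at h1
      exact h1.symm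
    have hσo : orderOf σ = p := orderOf_eq_prime hσp hσ1
    have hp2 := hp.two_le
    have hcyc : σ.IsCycle := by
      refine Equiv.Perm.isCycle_of_prime_order' (by rw [hσo]; exact hp) ?_
      rw [hσo]
      omega
    have hsupp : σ.support.card = p := by rw [← hσo]; exact hcyc.orderOf.symm
    -- the constant
    have hc : ∀ x y, v (σ x) - v x = v (σ y) - v y := by
      intro x y
      have h1 : (k • w).1 x y = w.1 x y := by rw [hw]
      rw [difV_smul, hv, hv] at h1
      have h2 : v (σ x) - v (σ y) = v x - v y := h1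
      linear_combination h2
    obtain ⟨a, ha, hcyc'⟩ := hcyc
    have hpow : ∀ j : ℕ, v ((σ ^ j) a) = v a + j * (v (σ a) - v a) := by
      intro j
      induction j with
      | zero => simp
      | succ j ih =>
        rw [pow_succ', Equiv.Perm.mul_apply]
        have h1 := hc ((σ ^ j) a) a
        rw [ih] at h1
        push_cast
        linear_combination h1
    have hc0 : v (σ a) - v a = 0 := by
      have h1 := hpow p
      rw [hσp] at h1
      have h2 : (p : ZMod l) * (v (σ a) - v a) = 0 := by
        have h3 : v ((1 : Equiv.Perm X) a) = v a := rfl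
        rw [h3] at h1
        linear_combination h1.symm
      exact (mul_eq_zero.1 h2).resolve_left hp0
    have hinv : ∀ x, v (σ x) = v x := fun x => sub_eq_zero.1 ((hc x a).trans hc0)
    have hinvz : ∀ (j : ℤ) (x : X), v ((σ ^ j) x) = v x := by
      intro j
      induction j using Int.induction_on with
      | zero => intro x; rfl
      | succ j ih =>
        intro x
        rw [zpow_add_one, Equiv.Perm.mul_apply, ih, hinv]
      | pred j ih =>
        intro x
        rw [zpow_sub_one, Equiv.Perm.mul_apply, ih]
        have := hinv (σ⁻¹ x)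
        rw [show σ (σ⁻¹ x) = x from σ.apply_symm_apply x] at this
        exact this.symm
    have hsame : ∀ b ∈ σ.support, v b = v a := by
      intro b hb
      have h1 : σ.SameCycle a b := hcyc' (Equiv.Perm.mem_support.1 hb)
      obtain ⟨j, hj⟩ := h1
      rw [← hj, hinvz]
    have hall : ∀ b, v b = v a := by
      intro b
      by_cases hb : b ∈ σ.support
      · exact hsame b hb
      · have hcard : Fintype.card X = p + 1 := by
          rcases hX with h | h
          · exfalso
            apply hb
            have h1 : σ.support = Finset.univ := by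
              rw [← Finset.card_eq_iff_eq_univ, hsupp, h]
            rw [h1]
            exact Finset.mem_univ b
          · exact h
        have h1 : σ.supportᶜ = {b} := by
          have h2 : (σ.supportᶜ).card = 1 := by
            rw [Finset.card_compl, hsupp, hcard]
            omega
          obtain ⟨c, hc⟩ := Finset.card_eq_one.1 h2
          have h3 : b ∈ σ.supportᶜ := Finset.mem_compl.2 hb
          rw [hc, Finset.mem_singleton] at h3
          rw [hc, h3]
        have h2 := Finset.sum_add_sum_compl σ.support v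
        rw [h1, Finset.sum_singleton, Finset.sum_congr rfl hsame, Finset.sum_const, hsupp, hv0,
          nsmul_eq_mul] at h2
        have h3 : ((p + 1 : ℕ) : ZMod l) = 0 := (ZMod.natCast_eq_zero_iff _ _).2 (hlX hcard)
        push_cast at h3
        linear_combination h2 - (v a) * h3
    apply Subtype.ext
    funext x y
    rw [hv, hall x, hall y, sub_self]
    rfl

end H65.SP
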