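import Pool.Agent.H65.SP.Lift

/-!
# Units which are trivial modulo `K` and `L`, when `K` acts without fixed points
-/

set_option autoImplicit false

namespace H65.SP

open MonoidAlgebra H58.SP Matrix Kronecker

section

variable {G : Type*} [Group G] [Finite G]

theorem dich {p : ℕ} (hp : p.Prime) (x : G) :
    (x = 1 ∨ ∃ r : ℕ, r.Prime ∧ r ∣ orderOf x ∧ ¬ r ∣ p) ∨ ∃ a : ℕ, orderOf x = p ^ (a + 1) := by
  by_cases h1 : x = 1
  · exact Or.inl (Or.inl h1)
  by_cases h2 : ∃ r : ℕ, r.Prime ∧ r ∣ orderOf x ∧ ¬ r ∣ p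
  · exact Or.inl (Or.inr h2)
  right
  have h3 : ∀ {d : ℕ}, d.Prime → d ∣ orderOf x → d = p := by
    intro d hd hdx
    by_contra h4
    exact h2 ⟨d, hd, hdx, fun h => h4 ((Nat.prime_dvd_prime_iff_eq hd hp).1 h)⟩
  have h4 := Nat.eq_prime_pow_of_unique_prime_dvd (orderOf_pos x).ne' h3
  cases hk : (orderOf x).primeFactorsList.length with
  | zero =>
    rw [hk, pow_zero] at h4
    exact absurd (orderOf_eq_one_iff.1 h4) h1
  | succ a =>
    rw [hk] at h4
    exact ⟨a, h4⟩

/-- class functions which vanish on the elements of order `p ^ a`, `a ≥ 1` -/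
theorem fs_vanish {R : Type*} [CommRing R] [Fintype R] {p : ℕ} (hp : p.Prime) {φ : G → R} (hφ : CF φ)
    (h0 : ∀ x, (∃ a : ℕ, orderOf x = p ^ (a + 1)) → φ x = 0) (w : MonoidAlgebra ℤ G)
    (haug : sg (Set.univ : Set G) w = 1) (hord : orderOf w = p) : fs φ w = 0 := by
  have hw1 : w ≠ 1 := by
    rintro rfl
    rw [orderOf_one] at hord
    exact hp.one_lt.ne hord
  rw [fs_eq_sum]
  refine Finset.sum_eq_zero fun c _ => ?_
  by_cases hc : c = 0
  · rw [hc, mul_zero]
  · have h1 : sg {x : G | φ x = c} w = 0 := by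
      refine sg_zero p hp.pos w (by rw [← hord]; exact pow_orderOf_eq_one w) haug hw1 (hφ.ci c) ?_
      intro x hx
      rcases dich hp x with h | h
      · exact h
      · exfalso
        apply hc
        rw [← hx]
        exact h0 x h
    rw [h1, Int.cast_zero, zero_mul]

theorem sg_K_eq_one (K : Subgroup G) [K.Normal] (w : MonoidAlgebra ℤ G) (h1 : red K w = 1) :
    sg (K : Set G) w = 1 := by
  have h3 := sg_red K {1} w
  rw [h1, MonoidAlgebra.one_def, sg_singleton, coeff_single, Finsupp.single_eq_same] at h3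
  have h4 : ((QuotientGroup.mk' K) ⁻¹' {1} : Set G) = (K : Set G) := by
    ext x
    rw [Set.mem_preimage, Set.mem_singleton_iff, QuotientGroup.mk'_apply, QuotientGroup.eq_one_iff]
    rfl
  rw [h4] at h3
  exact h3.symm

theorem CI_K (K : Subgroup G) [K.Normal] : CI (K : Set G) :=
  fun g x hx => Subgroup.Normal.conj_mem inferInstance x hx g

/-- the sum over the elements of order `p` of `K` is at least one -/
theorem sg_order_p {p : ℕ} (hp : p.Prime) (K : Subgroup G) [K.Normal] (w : MonoidAlgebra ℤ G)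
    (haug : sg (Set.univ : Set G) w = 1) (hord : orderOf w = p) (h1 : red K w = 1) :
    1 ≤ sg {x : G | x ∈ K ∧ orderOf x = p} w := by
  classical
  have : Fact p.Prime := ⟨hp⟩
  have := Fintype.ofFinite G
  have hwp : w ^ p = 1 := by rw [← hord]; exact pow_orderOf_eq_one w
  have hw1 : w ≠ 1 := by
    rintro rfl
    rw [orderOf_one] at hord
    exact hp.one_lt.ne hord
  set S1 : Set G := {x : G | x ∈ K ∧ orderOf x = p} with hS1
  set S2 : Set G := {x : G | x ∈ K ∧ ∃ a : ℕ, orderOf x = p ^ (a + 2)} with hS2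
  set S3 : Set G := {x : G | x ∈ K ∧ ¬ ∃ a : ℕ, orderOf x = p ^ (a + 1)} with hS3
  have hc1 : CI S1 := (CI_K K).inter (CI.ord (fun n => n = p))
  have hc2 : CI S2 := (CI_K K).inter (CI.ord (fun n => ∃ a : ℕ, n = p ^ (a + 2)))
  have hc3 : CI S3 := (CI_K K).inter (CI.ord (fun n => ¬ ∃ a : ℕ, n = p ^ (a + 1)))
  have hd12 : Disjoint S1 S2 := by
    rw [Set.disjoint_left]
    rintro x ⟨_, hx⟩ ⟨_, a, hx'⟩
    rw [hx] at hx'
    have h2 : p ^ 1 = p ^ (a + 2) := by rw [pow_one, ← hx']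
    have h3 := Nat.pow_right_injective hp.two_le h2
    omega
  have hd3 : Disjoint (S1 ∪ S2) S3 := by
    rw [Set.disjoint_left]
    rintro x (⟨_, hx⟩ | ⟨_, a, hx⟩) ⟨_, h⟩
    · exact h ⟨0, by rw [hx, zero_add, pow_one]⟩
    · exact h ⟨a + 1, hx⟩
  have hK : (K : Set G) = (S1 ∪ S2) ∪ S3 := by
    ext x
    constructor
    · intro hx
      by_cases h : ∃ a : ℕ, orderOf x = p ^ (a + 1)
      · obtain ⟨a, ha⟩ := h
        left
        cases a with
        | zero => exact Or.inl ⟨hx, by rw [ha, zero_add, pow_one]⟩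
        | succ a => exact Or.inr ⟨hx, a, ha⟩
      · exact Or.inr ⟨hx, h⟩
    · rintro ((⟨h, _⟩ | ⟨h, _⟩) | ⟨h, _⟩) <;> exact h
  have h2 := sg_K_eq_one K w h1
  rw [hK, sg_union hd3, sg_union hd12] at h2
  have h3 : sg S3 w = 0 := by
    refine sg_zero p hp.pos w hwp haug hw1 hc3 ?_
    rintro x ⟨_, hx⟩
    rcases dich hp x with h | h
    · exact h
    · exact absurd h hx
  have h4 : sg S2 w ≤ 0 := sg_neg hc2 w hwp (fun x hx => hx.2)
  linarith

end

section

variable {l k : ℕ} [hl : Fact l.Prime] {ι : Type*} [Fintype ι] [DecidableEq ι]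

/-- geometric sums -/
theorem geom_zero (B : Matrix ι ι (ZMod (l ^ k))) {Q q p : ℕ} (hlp : ¬ l ∣ p) (hB : B ^ Q = 1)
    (hC : ∑ s ∈ Finset.range p, (B ^ q) ^ s = 0) : ∑ j ∈ Finset.range Q, B ^ j = 0 := by
  set Z := ∑ j ∈ Finset.range Q, B ^ j with hZ
  have h1 : B * Z = Z := by
    have h2 := mul_geom_sum B Q
    rw [hB, sub_self, sub_mul, one_mul, sub_eq_zero] at h2
    exact h2
  have h2 : ∀ j : ℕ, B ^ j * Z = Z := by
    intro j
    induction j with
    | zero => rw [pow_zero, one_mul]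
    | succ j ih => rw [pow_succ, mul_assoc, h1, ih]
  have h3 : (p : ZMod (l ^ k)) • Z = 0 := by
    have h4 : (∑ s ∈ Finset.range p, (B ^ q) ^ s) * Z = p • Z := by
      rw [Finset.sum_mul, Finset.sum_congr rfl (fun s _ => by rw [← pow_mul, h2]), Finset.sum_const,
        Finset.card_range]
    rw [hC, zero_mul] at h4
    rw [Nat.cast_smul_eq_nsmul, ← h4]
  have hpu : IsUnit (p : ZMod (l ^ k)) := by
    rw [ZMod.isUnit_iff_coprime]
    exact Nat.Coprime.pow_right _ ((Nat.Prime.coprime_iff_not_dvd hl.out).2 hlp).symm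
  obtain ⟨c, hc⟩ := hpu.exists_left_inv
  rw [← one_smul (ZMod (l ^ k)) Z, ← hc, mul_smul, h3, smul_zero]

/-- norms which are zero modulo `l` -/
theorem norm_zero (hk : 0 < k) (C : Matrix ι ι (ZMod (l ^ k))) {p : ℕ} (hlp : ¬ l ∣ p)
    (hC : C ^ p = 1) (h0 : (cst l k hk).mapMatrix (∑ s ∈ Finset.range p, C ^ s) = 0) :
    ∑ s ∈ Finset.range p, C ^ s = 0 := by
  set S := ∑ s ∈ Finset.range p, C ^ s with hS
  have h1 : S * S = p • S := geom_idem hC
  obtain ⟨d, hd, htr, hd0⟩ := trace_eq_rank hk S hlp h1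
  -- `S ^ (m + 1) = p ^ m S` and `S = l T`
  obtain ⟨T, hT⟩ := exists_smul_of_map hk h0
  have h2 : ∀ m : ℕ, S ^ (m + 1) = (p ^ m) • S := by
    intro m
    induction m with
    | zero => rw [zero_add, pow_one, pow_zero, one_smul]
    | succ m ih => rw [pow_succ, ih, smul_mul_assoc, h1, smul_smul, ← pow_succ]
  have h3 : S ^ (k + 1) = 0 := by
    rw [hT, smul_pow]
    have h4 : ((l ^ (k + 1) : ℕ) : ZMod (l ^ k)) = 0 := by
      rw [ZMod.natCast_eq_zero_iff]
      exact pow_dvd_pow l (by omega)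
    rw [← Nat.cast_smul_eq_nsmul (ZMod (l ^ k)), h4, zero_smul]
  rw [h2] at h3
  have hpu : IsUnit ((p ^ k : ℕ) : ZMod (l ^ k)) := by
    rw [ZMod.isUnit_iff_coprime]
    exact Nat.Coprime.pow _ _ ((Nat.Prime.coprime_iff_not_dvd hl.out).2 hlp).symm
  obtain ⟨c, hc⟩ := hpu.exists_left_inv
  rw [← one_smul (ZMod (l ^ k)) S, ← hc, mul_smul, Nat.cast_smul_eq_nsmul, h3, smul_zero]

end

section

variable {G : Type*} [Group G] {K : Subgroup G} [K.Normal] [Fintype (G ⧸ K)] [DecidableEq (G ⧸ K)]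

/-- the regular representation of `G ⧸ K` -/
noncomputable def PK (K : Subgroup G) [K.Normal] [Fintype (G ⧸ K)] [DecidableEq (G ⧸ K)] :
    G →* Matrix (G ⧸ K) (G ⧸ K) ℤ :=
  (Lm : MonoidAlgebra ℤ (G ⧸ K) →+* Matrix (G ⧸ K) (G ⧸ K) ℤ).toMonoidHom.comp
    ((MonoidAlgebra.of ℤ (G ⧸ K)).comp (QuotientGroup.mk' K))

theorem PK_apply (x : G) (c d : G ⧸ K) :
    PK K x c d = (single (QuotientGroup.mk' K x) (1 : ℤ)).coeff (c * d⁻¹) := rfl

theorem trace_PK_mem {x : G} (hx : x ∈ K) : (PK K x).trace = Fintype.card (G ⧸ K) := by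
  have h1 : (PK K x).trace = (Lm (single (QuotientGroup.mk' K x) (1 : ℤ))).trace := rfl
  rw [h1, trace_Lm, (QuotientGroup.eq_one_iff x).2 hx |> fun h => (show QuotientGroup.mk' K x = 1 from h),
    coeff_single, Finsupp.single_eq_same, mul_one]

theorem trace_PK_not {x : G} (hx : x ∉ K) : (PK K x).trace = 0 := by
  have h1 : (PK K x).trace = (Lm (single (QuotientGroup.mk' K x) (1 : ℤ))).trace := rfl
  rw [h1, trace_Lm, coeff_single, Finsupp.single_eq_of_ne, mul_zero]
  intro h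
  exact hx ((QuotientGroup.eq_one_iff x).1 h.symm)

theorem sum_PK (x : G) (c : G ⧸ K) : ∑ d, PK K x c d = 1 := by
  rw [Finset.sum_eq_single ((QuotientGroup.mk' K x)⁻¹ * c)]
  · rw [PK_apply, coeff_single]
    have : c * ((QuotientGroup.mk' K x)⁻¹ * c)⁻¹ = QuotientGroup.mk' K x := by group
    rw [this, Finsupp.single_eq_same]
  · intro d _ hd
    rw [PK_apply, coeff_single, Finsupp.single_eq_of_ne]
    intro h
    apply hd
    rw [← h]
    group
  · intro h
    exact absurd (Finset.mem_univ _) h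

variable {R : Type*} [CommRing R] {ι : Type*} [Fintype ι] [DecidableEq ι]

theorem hat_mulVec (ρ : G →* Matrix ι ι R) (a : MonoidAlgebra ℤ G) (v : ι → R) :
    (hat (kr ρ (PK K)) a).mulVec (fun ic : ι × (G ⧸ K) => v ic.1) =
      fun ic : ι × (G ⧸ K) => (hat ρ a).mulVec v ic.1 := by
  induction a using MonoidAlgebra.induction_linear with
  | zero =>
    rw [map_zero, map_zero, Matrix.zero_mulVec, Matrix.zero_mulVec]
    rfl
  | add x y hx hy =>
    rw [map_add, map_add, Matrix.add_mulVec, hx, hy, Matrix.add_mulVec]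
    rfl
  | single x c =>
    rw [hat_single, hat_single, Matrix.smul_mulVec, Matrix.smul_mulVec]
    funext ⟨i, b⟩
    rw [Pi.smul_apply, Pi.smul_apply]
    congr 1
    rw [Matrix.mulVec, dotProduct, Fintype.sum_prod_type, Matrix.mulVec, dotProduct]
    refine Finset.sum_congr rfl fun j _ => ?_
    have h1 : ∀ d : G ⧸ K, kr ρ (PK K) x (i, b) (j, d) * v j = ρ x i j * v j * ((PK K x b d : ℤ) : R) := by
      intro d
      change ρ x i j * ((PK K x b d : ℤ) : R) * v j = _
      ring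
    rw [Finset.sum_congr rfl (fun d _ => h1 d), ← Finset.mul_sum, ← Int.cast_sum, sum_PK, Int.cast_one,
      mul_one]

theorem hat_eq_one (ρ : G →* Matrix ι ι R) (L : Subgroup G) [L.Normal] (hL : ∀ x ∈ L, ρ x = 1)
    (w : MonoidAlgebra ℤ G) (h2 : red L w = 1) : hat ρ w = 1 := by
  have h3 : L ≤ ρ.ker := fun x hx => hL x hx
  have h4 : ρ = (QuotientGroup.lift L ρ h3).comp (QuotientGroup.mk' L) := by
    ext x
    rfl
  rw [h4, ← hat_mp, ← red_eq, h2, map_one]

end

theorem sum_filter_dvd {M : Type*} [AddCommMonoid M] {p : ℕ} (hp : 0 < p) (Q : ℕ) (f : ℕ → M) :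
    ∑ j ∈ (Finset.range (Q * p)).filter (fun j => p ∣ j), f j = ∑ j ∈ Finset.range Q, f (p * j) := by
  symm
  refine Finset.sum_bij (fun j _ => p * j) ?_ ?_ ?_ ?_
  · intro j hj
    rw [Finset.mem_filter, Finset.mem_range]
    have := Finset.mem_range.1 hj
    exact ⟨by nlinarith, Dvd.intro j rfl⟩
  · intro i _ j _ h
    exact Nat.eq_of_mul_eq_mul_left hp h
  · intro j hj
    rw [Finset.mem_filter, Finset.mem_range] at hj
    obtain ⟨h1, c, rfl⟩ := hj
    refine ⟨c, ?_, rfl⟩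
    rw [Finset.mem_range]
    by_contra h
    have : Q ≤ c := by omega
    nlinarith
  · intro j _
    rfl

end H65.SP
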