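import Pool.Agent.H65.SP.Fpf

/-!
# Units which are trivial modulo `K` and `L`, when `K` acts without fixed points: the contradiction
-/

set_option autoImplicit false

namespace H65.SP

open MonoidAlgebra H58.SP Matrix Kronecker

theorem mem_of_pow_mem {G : Type*} [Group G] (K : Subgroup G) {x : G} {m : ℕ}
    (hm : Nat.Coprime m (orderOf x)) (h : x ^ m ∈ K) : x ∈ K := by
  obtain ⟨u, hu⟩ := exists_pow_eq_self_of_coprime hm
  rw [← hu]
  exact K.pow_mem h u

section

variable {G : Type*} [Group G] [Finite G] {p l k : ℕ} [hl : Fact l.Prime] {ι : Type*} [Fintype ι] [DecidableEq ι]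

/-- the sum of the traces for an element of order `p ^ (a + 1)` of `K` -/
theorem sum_trace_K (hp : p.Prime) (hlp : ¬ l ∣ p) (hk : 0 < k) (ρ : G →* Matrix ι ι (ZMod l)) (K : Subgroup G)
    (hK : ∀ x ∈ K, orderOf x = p → ∑ s ∈ Finset.range p, ρ x ^ s = 0) {i : ℕ}
    (A : G → Matrix ι ι (ZMod (l ^ k))) (hA1 : ∀ x, (cst l k hk).mapMatrix (A x) = ρ x ^ l ^ i)
    (hA3 : ∀ x (j : ℕ), x ^ j = 1 → A x ^ j = 1) {x : G} (hx : x ∈ K) {a : ℕ} (ha : orderOf x = p ^ (a + 1))
    {b : ℕ} (hab : a ≤ b) :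
    ∑ j ∈ (Finset.range (p ^ b * p)).filter (fun j => ¬ p ∣ j), (A x ^ j).trace =
      if a = 0 then -((p ^ b * Fintype.card ι : ℕ) : ZMod (l ^ k)) else 0 := by
  set B := A x with hB
  have hlpr : ¬ l = p := by
    rintro rfl
    exact hlp dvd_rfl
  have hcop : ∀ n : ℕ, Nat.Coprime (l ^ i) (p ^ n) := fun n =>
    Nat.Coprime.pow _ _ ((Nat.coprime_primes hl.out hp).2 hlpr)
  have hBa : B ^ p ^ (a + 1) = 1 := hA3 x _ (by rw [← ha]; exact pow_orderOf_eq_one x)
  have hdvd : p ^ (a + 1) ∣ p ^ b * p := by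
    rw [← pow_succ]
    exact pow_dvd_pow p (by omega)
  have hBQ : B ^ (p ^ b * p) = 1 := by
    obtain ⟨c, hc⟩ := hdvd
    rw [hc, pow_mul, hBa, one_pow]
  -- the norm of `C = B ^ (p ^ a)`
  have hC : ∑ s ∈ Finset.range p, (B ^ p ^ a) ^ s = 0 := by
    refine norm_zero hk (B ^ p ^ a) hlp (by rw [← pow_mul, ← pow_succ, hBa]) ?_
    rw [map_sum]
    set y : G := (x ^ p ^ a) ^ l ^ i with hy
    have hyo : orderOf (x ^ p ^ a) = p := by
      rw [orderOf_pow_of_dvd (pow_ne_zero _ hp.ne_zero) (by rw [ha]; exact pow_dvd_pow p (by omega)), ha,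
        pow_succ]
      exact Nat.mul_div_cancel_left p (pow_pos hp.pos _)
    have hyo' : orderOf y = p := by
      rw [hy, Nat.Coprime.orderOf_pow, hyo]
      rw [hyo]
      have := (hcop 1).symm
      rwa [pow_one] at this
    have hyK : y ∈ K := K.pow_mem (K.pow_mem hx _) _
    rw [← hK y hyK hyo']
    refine Finset.sum_congr rfl fun s _ => ?_
    have e1 : (cst l k hk).mapMatrix (B ^ p ^ a) = ρ y := by
      rw [map_pow, hA1, hy, map_pow, map_pow, ← pow_mul, ← pow_mul, mul_comm (l ^ i)]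
    rw [map_pow, e1]
  have h1 : ∑ j ∈ Finset.range (p ^ b * p), B ^ j = 0 := geom_zero B hlp hBQ hC
  have h2 : ∑ j ∈ Finset.range (p ^ b * p), (B ^ j).trace = 0 := by
    rw [← Matrix.trace_sum, h1, Matrix.trace_zero]
  rw [← Finset.sum_filter_add_sum_filter_not (Finset.range (p ^ b * p)) (fun j => p ∣ j)] at h2
  have h3 : ∑ j ∈ (Finset.range (p ^ b * p)).filter (fun j => p ∣ j), (B ^ j).trace =
      if a = 0 then ((p ^ b * Fintype.card ι : ℕ) : ZMod (l ^ k)) else 0 := by
    rw [sum_filter_dvd hp.pos]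
    by_cases ha0 : a = 0
    · rw [if_pos ha0]
      subst ha0
      rw [zero_add, pow_one] at hBa
      have h4 : ∀ j ∈ Finset.range (p ^ b), (B ^ (p * j)).trace = ((Fintype.card ι : ℕ) : ZMod (l ^ k)) := by
        intro j _
        rw [pow_mul, hBa, one_pow, Matrix.trace_one]
      rw [Finset.sum_congr rfl h4, Finset.sum_const, Finset.card_range, nsmul_eq_mul]
      push_cast
      ring
    · rw [if_neg ha0]
      obtain ⟨a', rfl⟩ : ∃ a', a = a' + 1 := ⟨a - 1, by omega⟩
      have h4 : ∑ j ∈ Finset.range (p ^ b), (B ^ p) ^ j = 0 := by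
        refine geom_zero (B ^ p) (q := p ^ a') hlp ?_ ?_
        · rw [← pow_mul, mul_comm, hBQ]
        · rw [← pow_mul, ← pow_succ']
          exact hC
      have h5 : ∑ j ∈ Finset.range (p ^ b), (B ^ (p * j)).trace = (∑ j ∈ Finset.range (p ^ b), (B ^ p) ^ j).trace := by
        rw [Matrix.trace_sum]
        exact Finset.sum_congr rfl fun j _ => by rw [pow_mul]
      rw [h5, h4, Matrix.trace_zero]
  rw [h3] at h2
  by_cases ha0 : a = 0
  · rw [if_pos ha0] at h2 ⊢
    exact eq_neg_of_add_eq_zero_right h2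
  · rw [if_neg ha0] at h2 ⊢
    rwa [zero_add] at h2

end

/-- **the contradiction** -/
theorem fpf_rep {G : Type*} [Group G] [Finite G] {p l : ℕ} (hp : p.Prime) [hl : Fact l.Prime] (hlp : l ≠ p)
    {ι : Type*} [Fintype ι] [DecidableEq ι] [hι : Nonempty ι] (K L : Subgroup G) [K.Normal] [L.Normal]
    (ρ : G →* Matrix ι ι (ZMod l)) (hL : ∀ x ∈ L, ρ x = 1)
    (hK : ∀ x ∈ K, orderOf x = p → ∑ s ∈ Finset.range p, ρ x ^ s = 0)
    (w : MonoidAlgebra ℤ G) (haug : sg (Set.univ : Set G) w = 1) (hord : orderOf w = p)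
    (h1 : red K w = 1) (h2 : red L w = 1) : False := by
  classical
  have hfG := Fintype.ofFinite (G ⧸ K)
  have hlp' : ¬ l ∣ p := fun h => hlp ((Nat.prime_dvd_prime_iff_eq hl.out hp).1 h)
  have hwp : w ^ p = 1 := by rw [← hord]; exact pow_orderOf_eq_one w
  set b := Nat.card G with hb
  set Q := p ^ b * p with hQ
  have hQ0 : 0 < Q := Nat.mul_pos (pow_pos hp.pos _) hp.pos
  have hlQ : ¬ l ∣ Q := by
    intro h
    rw [hQ, ← pow_succ] at h
    exact hlp' (hl.out.dvd_of_dvd_pow h)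
  have hwQ : w ^ Q = 1 := by rw [hQ, mul_comm, pow_mul, hwp, one_pow]
  set n := Fintype.card ι with hn
  set c := Fintype.card (G ⧸ K) with hc
  set S1 : Set G := {x : G | x ∈ K ∧ orderOf x = p} with hS1
  set σ := sg S1 w with hσ
  have hσ1 : 1 ≤ σ := sg_order_p hp K w haug hord h1
  -- the modulus
  set k := Q * (n * c) + p ^ b * n * c * (σ - 1).natAbs + 1 with hkdef
  have hk : 0 < k := Nat.succ_pos _
  have hkl : k < l ^ k := Nat.lt_pow_self hl.out.one_lt
  have hne : NeZero (l ^ k) := ⟨pow_ne_zero _ hl.out.ne_zero⟩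
  obtain ⟨i, e, A, U, hA1, hA2, hA3, hU, hUr, hcf, htr⟩ := brauer hk ρ (PK K) hQ0 hlQ w hwQ
  set t : G → ZMod (l ^ k) := fun x => (A x).trace * (((PK K (x ^ l ^ i)).trace : ℤ) : ZMod (l ^ k)) with ht
  -- exponents prime to the order of the group
  have hexj : ∀ j : ℕ, ∃ j' : ℕ, ¬ p ∣ j → (j' ≡ j [MOD Q] ∧ Nat.Coprime j' (p * Nat.card G)) := by
    intro j
    by_cases hj : p ∣ j
    · exact ⟨0, fun h => absurd hj h⟩
    · have hcj : Nat.Coprime j Q := by
        rw [hQ, ← pow_succ]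
        exact Nat.Coprime.pow_right _ ((Nat.Prime.coprime_iff_not_dvd hp).2 hj).symm
      obtain ⟨r, hr1, hr2, hr3⟩ := exists_prime_mod hQ0 hcj (p * Nat.card G)
      refine ⟨r, fun _ => ⟨hr3, ?_⟩⟩
      rw [Nat.Prime.coprime_iff_not_dvd hr2]
      intro h
      have := Nat.le_of_dvd (Nat.mul_pos hp.pos Nat.card_pos) h
      omega
  choose jp hjp using hexj
  set E : Matrix (ι × (G ⧸ K)) (ι × (G ⧸ K)) (ZMod (l ^ k)) := ∑ j ∈ Finset.range Q, U ^ j with hE
  have hEE : E * E = Q • E := geom_idem hU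
  obtain ⟨d, hd, hdt, hd0⟩ := trace_eq_rank hk E hlQ hEE
  -- the trace of `E`
  have ht1 : t 1 = ((n * c : ℕ) : ZMod (l ^ k)) := by
    have e1 : A 1 = 1 := by
      have := hA3 1 1 (one_pow 1)
      rwa [pow_one] at this
    rw [ht]
    change (A 1).trace * (((PK K (1 ^ l ^ i)).trace : ℤ) : ZMod (l ^ k)) = _
    rw [e1, one_pow, trace_PK_mem K.one_mem, Matrix.trace_one]
    push_cast
    rfl
  set H : G → ZMod (l ^ k) := fun x =>
    ∑ j ∈ (Finset.range Q).filter (fun j => ¬ p ∣ j), t (x ^ jp j) with hH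
  have hcfH : CF H := by
    intro g x
    exact Finset.sum_congr rfl fun j _ => hcf.pow (jp j) g x
  set H' : G → ZMod (l ^ k) := fun x => (-((p ^ b * n * c : ℕ) : ZMod (l ^ k))) *
    (if x ∈ S1 then (1 : ZMod (l ^ k)) else 0) with hH'
  have hCI1 : CI S1 := (CI_K K).inter (CI.ord (fun n => n = p))
  have hcfH' : CF H' := by
    intro g x
    have e1 : g * x * g⁻¹ ∈ S1 ↔ x ∈ S1 := by
      constructor
      · intro h
        have := hCI1 g⁻¹ _ h
        have e : g⁻¹ * (g * x * g⁻¹) * g⁻¹⁻¹ = x := by group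
        rwa [e] at this
      · exact hCI1 g x
    simp only [hH', e1]
  have hHH : ∀ x, (∃ a : ℕ, orderOf x = p ^ (a + 1)) → H x - H' x = 0 := by
    rintro x ⟨a, ha⟩
    have hxQ : ∀ j, ¬ p ∣ j → Nat.Coprime (jp j * l ^ i) (orderOf x) := by
      intro j hj
      rw [ha]
      refine Nat.Coprime.mul_left ?_ ?_
      · exact Nat.Coprime.pow_right _ (Nat.Coprime.coprime_mul_right_right (hjp j hj).2)
      · exact Nat.Coprime.pow _ _ ((Nat.coprime_primes hl.out hp).2 hlp)
    by_cases hx : x ∈ K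
    · have e1 : ∀ j ∈ (Finset.range Q).filter (fun j => ¬ p ∣ j), t (x ^ jp j) = (A x ^ j).trace * (c : ZMod (l ^ k)) := by
        intro j hj
        have hj' := (Finset.mem_filter.1 hj).2
        rw [ht]
        change (A (x ^ jp j)).trace * (((PK K ((x ^ jp j) ^ l ^ i)).trace : ℤ) : ZMod (l ^ k)) = _
        rw [hA2, trace_PK_mem (K.pow_mem (K.pow_mem hx _) _)]
        have e2 : A x ^ jp j = A x ^ j := by
          refine pow_eq_of_modEq (D := Q) ?_ (hjp j hj').1
          refine hA3 x Q ?_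
          have h3 : orderOf x ∣ Q := by
            rw [ha, hQ, ← pow_succ]
            refine pow_dvd_pow p ?_
            have h4 : p ^ (a + 1) ≤ Nat.card G := by rw [← ha]; exact orderOf_le_card
            have h5 : a + 1 < p ^ (a + 1) := Nat.lt_pow_self hp.one_lt
            omega
          exact orderOf_dvd_iff_pow_eq_one.1 h3
        rw [e2]
        push_cast
        rfl
      have hab : a ≤ b := by
        have h4 : p ^ (a + 1) ≤ Nat.card G := by rw [← ha]; exact orderOf_le_card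
        have h5 : a + 1 < p ^ (a + 1) := Nat.lt_pow_self hp.one_lt
        omega
      have e3 := sum_trace_K hp hlp' hk ρ K hK A hA1 hA3 hx ha hab
      have e4 : H x = (if a = 0 then -((p ^ b * n : ℕ) : ZMod (l ^ k)) else 0) * (c : ZMod (l ^ k)) := by
        rw [hH]
        change ∑ j ∈ (Finset.range Q).filter (fun j => ¬ p ∣ j), t (x ^ jp j) = _
        rw [Finset.sum_congr rfl e1, ← Finset.sum_mul, e3]
      rw [e4, hH']
      by_cases ha0 : a = 0
      · have h5 : x ∈ S1 := ⟨hx, by rw [ha, ha0, zero_add, pow_one]⟩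
        simp only [if_pos ha0, if_pos h5]
        push_cast
        ring
      · have h5 : x ∉ S1 := by
          rintro ⟨_, h6⟩
          rw [ha] at h6
          have h7 : p ^ (a + 1) = p ^ 1 := by rw [h6, pow_one]
          have h8 := Nat.pow_right_injective hp.two_le h7
          omega
        simp only [if_neg ha0, if_neg h5]
        ring
    · have h5 : x ∉ S1 := fun h => hx h.1
      have e1 : H x = 0 := by
        refine Finset.sum_eq_zero fun j hj => ?_
        have hj' := (Finset.mem_filter.1 hj).2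
        change (A (x ^ jp j)).trace * (((PK K ((x ^ jp j) ^ l ^ i)).trace : ℤ) : ZMod (l ^ k)) = 0
        rw [← pow_mul, trace_PK_not, Int.cast_zero, mul_zero]
        intro h
        exact hx (mem_of_pow_mem K (hxQ j hj') h)
      rw [e1, hH']
      simp only [if_neg h5]
      ring
  have hfsH : fs H w = -((p ^ b * n * c : ℕ) : ZMod (l ^ k)) * ((σ : ℤ) : ZMod (l ^ k)) := by
    have e1 : fs (fun x => H x - H' x) w = 0 := by
      refine fs_vanish hp ?_ hHH w haug hord
      intro g x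
      change H (g * x * g⁻¹) - H' (g * x * g⁻¹) = H x - H' x
      rw [hcfH g x, hcfH' g x]
    rw [fs_sub, sub_eq_zero] at e1
    rw [e1, hH', fs_smul, fs_ind]
  have htrE : E.trace = (((p ^ b * n * c : ℕ) * (1 - σ) : ℤ) : ZMod (l ^ k)) := by
    rw [hE, Matrix.trace_sum, Finset.sum_congr rfl (fun j _ => htr j),
      ← Finset.sum_filter_add_sum_filter_not (Finset.range Q) (fun j => p ∣ j)]
    have e1 : ∑ j ∈ (Finset.range Q).filter (fun j => p ∣ j), fs t (w ^ j) = ((p ^ b * n * c : ℕ) : ZMod (l ^ k)) := by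
      rw [hQ, sum_filter_dvd hp.pos]
      have e2 : ∀ j ∈ Finset.range (p ^ b), fs t (w ^ (p * j)) = ((n * c : ℕ) : ZMod (l ^ k)) := by
        intro j _
        rw [pow_mul, hwp, one_pow, one_def, fs_single, Int.cast_one, one_mul, ht1]
      rw [Finset.sum_congr rfl e2, Finset.sum_const, Finset.card_range, nsmul_eq_mul]
      push_cast
      ring
    have e2 : ∑ j ∈ (Finset.range Q).filter (fun j => ¬ p ∣ j), fs t (w ^ j) = fs H w := by
      rw [hH, fs_sum]
      refine Finset.sum_congr rfl fun j hj => ?_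
      have hj' := (Finset.mem_filter.1 hj).2
      obtain ⟨h3, h4⟩ := hjp j hj'
      rw [← fs_pow_coprime hcf w hp.pos hwp h4]
      congr 1
      refine (pow_eq_of_modEq hwp ?_).symm
      exact h3.of_dvd (Dvd.intro_left _ rfl)
    rw [e1, e2, hfsH]
    push_cast
    ring
  -- comparison
  have hcmp : (Q * d : ℤ) = (p ^ b * n * c : ℕ) * (1 - σ) := by
    have e1 : ((Q * d : ℤ) : ZMod (l ^ k)) = (((p ^ b * n * c : ℕ) * (1 - σ) : ℤ) : ZMod (l ^ k)) := by
      rw [← htrE, hdt]
      push_cast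
      ring
    rw [← sub_eq_zero, ← Int.cast_sub, ZMod.intCast_zmod_eq_zero_iff_dvd] at e1
    have e2 : ((Q * d : ℤ) - (p ^ b * n * c : ℕ) * (1 - σ)) = ((Q * d + p ^ b * n * c * (σ - 1).natAbs : ℕ) : ℤ) := by
      push_cast
      rw [abs_of_nonneg (by omega : (0 : ℤ) ≤ σ - 1)]
      ring
    rw [e2] at e1
    have e3 := Int.natCast_dvd_natCast.1 e1
    have e4 : Q * d + p ^ b * n * c * (σ - 1).natAbs < l ^ k := by
      have h3 : Q * d ≤ Q * (n * c) := Nat.mul_le_mul_left Q (by rw [Fintype.card_prod] at hd; exact hd)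
      omega
    have e5 := Nat.eq_zero_of_dvd_of_lt e3 e4
    rw [e5] at e2
    push_cast at e2 ⊢
    linarith
  have hd00 : d = 0 := by
    have e1 : (Q * d : ℤ) ≤ 0 := by
      rw [hcmp]
      have h3 : (0 : ℤ) ≤ (p ^ b * n * c : ℕ) := Int.natCast_nonneg _
      nlinarith
    have e2 : Q * d ≤ 0 := by exact_mod_cast e1
    rcases Nat.mul_eq_zero.1 (Nat.le_zero.1 e2) with h | h
    · omega
    · exact h
  have hE0 := hd0 hd00
  -- a fixed vector
  obtain ⟨i0⟩ := hι
  set v : ι → ZMod l := Pi.single i0 1 with hv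
  set u : ι × (G ⧸ K) → ZMod l := fun ic => v ic.1 with hu
  have hMu : (hat (kr ρ (PK K)) (w ^ e)).mulVec u = u := by
    rw [hu, hat_mulVec, map_pow, hat_eq_one ρ L hL w h2, one_pow, Matrix.one_mulVec]
  have hMj : ∀ j : ℕ, ((hat (kr ρ (PK K)) (w ^ e)) ^ j).mulVec u = u := by
    intro j
    induction j with
    | zero => rw [pow_zero, Matrix.one_mulVec]
    | succ j ih => rw [pow_succ, ← Matrix.mulVec_mulVec, hMu, ih]
  have hEr : (cst l k hk).mapMatrix E = ∑ j ∈ Finset.range Q, (hat (kr ρ (PK K)) (w ^ e)) ^ j := by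
    rw [hE, map_sum]
    exact Finset.sum_congr rfl fun j _ => by rw [map_pow, hUr]
  rw [hE0, map_zero] at hEr
  have hQu : (Q : ZMod l) • u = 0 := by
    have e1 : (∑ j ∈ Finset.range Q, (hat (kr ρ (PK K)) (w ^ e)) ^ j).mulVec u = 0 := by
      rw [← hEr, Matrix.zero_mulVec]
    rw [Matrix.sum_mulVec, Finset.sum_congr rfl (fun j _ => hMj j), Finset.sum_const, Finset.card_range] at e1
    rw [Nat.cast_smul_eq_nsmul]
    exact e1
  have e1 := congrFun hQu (i0, (1 : G ⧸ K))
  rw [Pi.smul_apply, Pi.zero_apply, hu] at e1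
  simp only [hv, Pi.single_eq_same, smul_eq_mul, mul_one] at e1
  rw [ZMod.natCast_eq_zero_iff] at e1
  exact hlQ e1

end H65.SP
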