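import Pool.Agent.H65.SP.Prod

/-!
# Frobenius groups
-/

set_option autoImplicit false

namespace H65.SP

universe u

theorem TameIn.extend {G : Type u} [Group G] {p : ℕ} {M M' : Subgroup G} (h : TameIn p M)
    (hn' : M'.Normal) (hle : M ≤ M')
    (hrel : (∃ e : ℕ, M.relIndex M' = p ^ e) ∨ FreeFactor p M M') : TameIn p M' := by
  obtain ⟨k, N, h0, hk, hn, hle', hrel'⟩ := h
  have e1 : ∀ i, i ≤ k → (if i ≤ k then N i else M') = N i := fun i hi => if_pos hi
  have e2 : (if k + 1 ≤ k then N (k + 1) else M') = M' := if_neg (by omega)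
  refine ⟨k + 1, fun i => if i ≤ k then N i else M', ?_, ?_, ?_, ?_, ?_⟩
  · change (if 0 ≤ k then N 0 else M') = ⊥
    rw [e1 0 (Nat.zero_le k), h0]
  · exact e2
  · intro i
    change (if i ≤ k then N i else M').Normal
    split_ifs
    · exact hn i
    · exact hn'
  · intro i hi
    change (if i ≤ k then N i else M') ≤ (if i + 1 ≤ k then N (i + 1) else M')
    rcases Nat.lt_or_ge i k with h1 | h1
    · rw [e1 i h1.le, e1 (i + 1) h1]
      exact hle' i h1
    · obtain rfl : i = k := by omega
      rw [e1 i le_rfl, e2, hk]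
      exact hle
  · intro i hi
    change (∃ e : ℕ, (if i ≤ k then N i else M').relIndex (if i + 1 ≤ k then N (i + 1) else M') = p ^ e) ∨
      FreeFactor p (if i ≤ k then N i else M') (if i + 1 ≤ k then N (i + 1) else M')
    rcases Nat.lt_or_ge i k with h1 | h1
    · rw [e1 i h1.le, e1 (i + 1) h1]
      exact hrel' i h1
    · obtain rfl : i = k := by omega
      rw [e1 i le_rfl, e2, hk]
      exact hrel

section

variable {G : Type u} [Group G] (F : Subgroup G)

/-- the centre of the subgroup `F` as a subgroup of `G` -/
def zc : Subgroup G := F ⊓ Subgroup.centralizer (F : Set G)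

instance zc_normal [F.Normal] : (zc F).Normal := by
  unfold zc
  infer_instance

theorem zc_comm (x y : zc F) : x * y = y * x := by
  apply Subtype.ext
  have h1 := (Subgroup.mem_centralizer_iff.1 x.2.2) y y.2.1
  exact h1.symm

theorem zc_ne_bot (hF : F ≠ ⊥) (hnil : Group.IsNilpotent F) : zc F ≠ ⊥ := by
  have : Nontrivial F := (Subgroup.nontrivial_iff_ne_bot F).2 hF
  have h1 := Group.IsNilpotent.center_ne_bot (G := F)
  obtain ⟨⟨x, hx⟩, hx1⟩ := (Subgroup.nontrivial_iff_exists_ne_one _).1
    ((Subgroup.nontrivial_iff_ne_bot _).2 h1)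
  intro h2
  apply hx1.2
  have h3 : x ∈ zc F := by
    refine ⟨hx, Subgroup.mem_centralizer_iff.2 fun y hy => ?_⟩
    have h4 := (Subgroup.mem_center_iff.1 hx1.1) ⟨y, hy⟩
    exact congrArg Subtype.val h4
  rw [h2, Subgroup.mem_bot] at h3
  exact Subtype.ext h3

end

/-- **Frobenius groups with kernel `F` are `p`-tame for all primes `p`** -/
theorem tame_frobenius {G : Type} [Group G] [Finite G] (F : Subgroup G) [F.Normal] (hF : F ≠ ⊥)
    (hnil : Group.IsNilpotent F) (hc : ∀ v ∈ F, v ≠ 1 → ∀ g : G, g * v = v * g → g ∈ F)
    (hcop : (Nat.card F).Coprime F.index) {p : ℕ} (hp : p.Prime) : TameIn p (⊤ : Subgroup G) := by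
  have hsol : Group.IsSolvable F := inferInstance
  have h1 : TameIn p F := (pSolvableIn_solvable hp F hsol).tameIn hp
  refine h1.extend inferInstance le_top (Or.inr ?_)
  by_cases hpF : p ∣ Nat.card F
  · refine freeFactor_of_not_dvd hp F ⊤ ?_
    rw [Subgroup.relIndex_top_right]
    intro h2
    have h3 := Nat.dvd_gcd hpF h2
    rw [hcop] at h3
    exact hp.one_lt.ne' (Nat.dvd_one.1 h3)
  · let i0 : CommGroup (zc F) := { (inferInstance : Group (zc F)) with mul_comm := zc_comm F }
    let i1 : AddCommGroup (Additive (zc F)) := inferInstance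
    let act : G →* MulAut (zc F) := MulAut.conjNormal
    let i2 : DistribMulAction (⊤ : Subgroup G) (Additive (zc F)) :=
      { smul := fun g v => Additive.ofMul (act (g : G) v.toMul)
        one_smul := fun v => by
          change Additive.ofMul (act ((1 : (⊤ : Subgroup G)) : G) v.toMul) = v
          rw [Subgroup.coe_one, map_one]
          rfl
        mul_smul := fun g h v => by
          change Additive.ofMul (act ((g * h : (⊤ : Subgroup G)) : G) v.toMul) =
            Additive.ofMul (act (g : G) (act (h : G) v.toMul))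
          rw [Subgroup.coe_mul, map_mul]
          rfl
        smul_zero := fun g => by
          change Additive.ofMul (act (g : G) 1) = Additive.ofMul 1
          rw [map_one]
        smul_add := fun g v w => by
          change Additive.ofMul (act (g : G) (v.toMul * w.toMul)) =
            Additive.ofMul (act (g : G) v.toMul * act (g : G) w.toMul)
          rw [map_mul] }
    have hact : ∀ (g : (⊤ : Subgroup G)) (v : Additive (zc F)), g • v = v →
        (g : G) * (v.toMul : G) = (v.toMul : G) * g := by
      intro g v hv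
      have h2 : act (g : G) v.toMul = v.toMul := hv
      have h3 : ((act (g : G) v.toMul : zc F) : G) = (g : G) * (v.toMul : G) * (g : G)⁻¹ :=
        MulAut.conjNormal_apply _ _
      rw [h2] at h3
      conv_rhs => rw [h3]
      group
    refine ⟨Additive (zc F), i1, i2, inferInstanceAs (Finite (zc F)), ?_, ?_, ?_, ?_⟩
    · exact (Subgroup.nontrivial_iff_ne_bot _).2 (zc_ne_bot F hF hnil)
    · have h2 : Nat.card (Additive (zc F)) ∣ Nat.card F :=
        Subgroup.card_dvd_of_le (inf_le_left : zc F ≤ F)
      exact Nat.Coprime.coprime_dvd_left h2 ((Nat.Prime.coprime_iff_not_dvd hp).2 hpF).symm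
    · intro x hx v
      have h2 : (x : G) * (v.toMul : G) = (v.toMul : G) * x :=
        (Subgroup.mem_centralizer_iff.1 v.toMul.2.2) x hx
      change Additive.ofMul (act (x : G) v.toMul) = v
      have h3 : act (x : G) v.toMul = v.toMul := by
        apply Subtype.ext
        have h4 : ((act (x : G) v.toMul : zc F) : G) = (x : G) * (v.toMul : G) * (x : G)⁻¹ :=
          MulAut.conjNormal_apply _ _
        rw [h4, h2]
        group
      rw [h3]
      rfl
    · intro x hx _ v hv
      by_contra hv0
      apply hx
      refine hc (v.toMul : G) v.toMul.2.1 ?_ (x : G) (hact x v hv)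
      intro h2
      apply hv0
      have h3 : v.toMul = 1 := Subtype.ext h2
      exact congrArg Additive.ofMul h3

end H65.SP
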