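import Pool.Agent.H65.SP.Solv

/-!
# Powers prime to the order
-/

set_option autoImplicit false

namespace H65.SP

open MonoidAlgebra H58.SP

theorem pow_eq_of_modEq {M : Type*} [Monoid M] {X : M} {D : ℕ} (hX : X ^ D = 1) {r j : ℕ}
    (h : r ≡ j [MOD D]) : X ^ r = X ^ j := by
  rw [pow_eq_pow_mod r hX, pow_eq_pow_mod j hX]
  exact congrArg _ h

theorem exists_prime_mod {n j : ℕ} (hn : 0 < n) (hj : Nat.Coprime j n) (B : ℕ) :
    ∃ r : ℕ, B < r ∧ r.Prime ∧ r ≡ j [MOD n] := by
  have : NeZero n := ⟨hn.ne'⟩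
  obtain ⟨r, h1, h2, h3⟩ := Nat.forall_exists_prime_gt_and_eq_mod ((ZMod.isUnit_iff_coprime j n).2 hj) B
  exact ⟨r, h1, h2, (ZMod.natCast_eq_natCast_iff r j n).1 h3⟩

theorem eq_of_dvd_large {a b : ℤ} (h : ∀ B : ℕ, ∃ r : ℕ, B < r ∧ (r : ℤ) ∣ a - b) : a = b := by
  by_contra hne
  obtain ⟨r, h1, h2⟩ := h (a - b).natAbs
  have h3 := Int.natAbs_dvd_natAbs.2 h2
  rw [Int.natAbs_natCast] at h3
  have h4 := Nat.le_of_dvd (Int.natAbs_pos.2 (sub_ne_zero.2 hne)) h3
  omega

/-- the trace of a power prime to the order -/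
theorem trace_pow_coprime {ι : Type*} [Fintype ι] [DecidableEq ι] (X : Matrix ι ι ℤ) {D j : ℕ}
    (hD : 0 < D) (hX : X ^ D = 1) (hj : Nat.Coprime j D) : (X ^ j).trace = X.trace := by
  refine eq_of_dvd_large fun B => ?_
  obtain ⟨r, h1, h2, h3⟩ := exists_prime_mod hD hj B
  refine ⟨r, h1, ?_⟩
  have : Fact r.Prime := ⟨h2⟩
  have hc : ∀ M : Matrix ι ι ℤ, ((M.trace : ℤ) : ZMod r) = ((Int.castRingHom (ZMod r)).mapMatrix M).trace := by
    intro M
    exact AddMonoidHom.map_trace (Int.castRingHom (ZMod r)).toAddMonoidHom M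
  rw [← ZMod.intCast_zmod_eq_zero_iff_dvd, Int.cast_sub, sub_eq_zero, ← pow_eq_of_modEq hX h3, hc, hc, map_pow,
    ZMod.trace_pow_card, ZMod.pow_card]

/-- sums of coefficients of powers prime to the order -/
theorem sg_pow_coprime {G : Type*} [Group G] [Finite G] {S : Set G} (hS : CI S) (w : MonoidAlgebra ℤ G)
    {n j : ℕ} (hn : 0 < n) (hw : w ^ n = 1) (hj : Nat.Coprime j (n * Nat.card G)) :
    sg S (w ^ j) = sg {x : G | x ^ j ∈ S} w := by
  refine eq_of_dvd_large fun B => ?_
  obtain ⟨r, h1, h2, h3⟩ := exists_prime_mod (Nat.mul_pos hn Nat.card_pos) hj B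
  refine ⟨r, h1, ?_⟩
  have : Fact r.Prime := ⟨h2⟩
  have h4 := dold_int r 0 hS w
  rw [zero_add, pow_one, pow_one, pow_zero, pow_one, pow_eq_of_modEq hw h3.of_mul_right] at h4
  have h5 : {x : G | x ^ r ∈ S} = {x : G | x ^ j ∈ S} := by
    ext x
    rw [Set.mem_ofPred_eq, Set.mem_ofPred_eq, pow_eq_of_modEq (pow_card_eq_one' (x := x)) h3.of_mul_left]
  rw [h5] at h4
  exact h4

section

variable {G : Type*} [Group G] {R : Type*} [CommRing R]

/-- class functions -/
def CF (φ : G → R) : Prop := ∀ g x : G, φ (g * x * g⁻¹) = φ x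

theorem CF.ci {φ : G → R} (h : CF φ) (c : R) : CI {x : G | φ x = c} := by
  intro g x hx
  rw [Set.mem_ofPred_eq] at hx ⊢
  rw [h g x]
  exact hx

theorem CF.pow {φ : G → R} (h : CF φ) (k : ℕ) : CF (fun x => φ (x ^ k)) := by
  intro g x
  change φ ((g * x * g⁻¹) ^ k) = φ (x ^ k)
  rw [conj_pow, h]

theorem fs_eq_sum [Fintype R] (φ : G → R) (a : MonoidAlgebra ℤ G) :
    fs φ a = ∑ c : R, ((sg {x : G | φ x = c} a : ℤ) : R) * c := by
  classical
  induction a using MonoidAlgebra.induction_linear with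
  | zero => simp
  | add x y hx hy =>
    rw [map_add, hx, hy, ← Finset.sum_add_distrib]
    refine Finset.sum_congr rfl fun c _ => ?_
    rw [map_add]
    push_cast
    ring
  | single x r =>
    rw [fs_single, Finset.sum_eq_single (φ x)]
    · rw [sg_single, if_pos (show x ∈ {y : G | φ y = φ x} from rfl)]
    · intro c _ hc
      rw [sg_single, if_neg (show x ∉ {y : G | φ y = c} from fun h => hc h.symm), Int.cast_zero, zero_mul]
    · intro h
      exact absurd (Finset.mem_univ _) h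

/-- values of class functions at powers prime to the order -/
theorem fs_pow_coprime [Fintype R] [Finite G] {φ : G → R} (hφ : CF φ) (w : MonoidAlgebra ℤ G)
    {n j : ℕ} (hn : 0 < n) (hw : w ^ n = 1) (hj : Nat.Coprime j (n * Nat.card G)) :
    fs φ (w ^ j) = fs (fun x => φ (x ^ j)) w := by
  rw [fs_eq_sum, fs_eq_sum]
  refine Finset.sum_congr rfl fun c _ => ?_
  rw [sg_pow_coprime (hφ.ci c) w hn hw hj]
  rfl

/-- Dold's congruence for class functions -/
theorem fs_dold {p k : ℕ} [Fact p.Prime] {φ : G → ZMod (p ^ k)} (hφ : CF φ) (a : MonoidAlgebra ℤ G) {r : ℕ}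
    (hr : k ≤ r + 1) (i : ℕ) : fs φ (a ^ p ^ (r + i)) = fs (fun x => φ (x ^ p ^ i)) (a ^ p ^ r) := by
  have : NeZero (p ^ k) := ⟨pow_ne_zero _ (Fact.out : p.Prime).ne_zero⟩
  rw [fs_eq_sum, fs_eq_sum]
  refine Finset.sum_congr rfl fun c _ => ?_
  congr 1
  have h1 := dold_iter p r a i (hφ.ci c)
  have h2 : ((p ^ k : ℕ) : ℤ) ∣ (p : ℤ) ^ (r + 1) := by
    push_cast
    exact pow_dvd_pow _ hr
  have h3 := (ZMod.intCast_zmod_eq_zero_iff_dvd _ (p ^ k)).2 (h2.trans h1)
  rw [Int.cast_sub, sub_eq_zero] at h3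
  exact h3

theorem fs_congr {φ ψ : G → R} (h : ∀ x, φ x = ψ x) (a : MonoidAlgebra ℤ G) : fs φ a = fs ψ a := by
  have : φ = ψ := funext h
  rw [this]

theorem fs_add (φ ψ : G → R) (a : MonoidAlgebra ℤ G) : fs (fun x => φ x + ψ x) a = fs φ a + fs ψ a := by
  induction a using MonoidAlgebra.induction_linear with
  | zero => rw [map_zero, map_zero, map_zero, add_zero]
  | add x y hx hy => rw [map_add, map_add, map_add, hx, hy]; ring
  | single x c => rw [fs_single, fs_single, fs_single]; ring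

theorem fs_sum {ι : Type*} (s : Finset ι) (φ : ι → G → R) (a : MonoidAlgebra ℤ G) :
    fs (fun x => ∑ i ∈ s, φ i x) a = ∑ i ∈ s, fs (φ i) a := by
  induction a using MonoidAlgebra.induction_linear with
  | zero => simp
  | add x y hx hy => rw [map_add, hx, hy, ← Finset.sum_add_distrib]; simp only [map_add]
  | single x c => simp only [fs_single, Finset.mul_sum]

theorem fs_smul (c : R) (φ : G → R) (a : MonoidAlgebra ℤ G) : fs (fun x => c * φ x) a = c * fs φ a := by
  induction a using MonoidAlgebra.induction_linear with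
  | zero => simp
  | add x y hx hy => rw [map_add, hx, hy, map_add, mul_add]
  | single x r => rw [fs_single, fs_single]; ring

/-- the indicator function -/
theorem fs_ind (S : Set G) [DecidablePred (· ∈ S)] (a : MonoidAlgebra ℤ G) :
    fs (fun x => if x ∈ S then (1 : R) else 0) a = ((sg S a : ℤ) : R) := by
  classical
  induction a using MonoidAlgebra.induction_linear with
  | zero => simp
  | add x y hx hy => rw [map_add, hx, hy, map_add, Int.cast_add]
  | single x r =>
    rw [fs_single, sg_single]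
    by_cases h : x ∈ S
    · rw [if_pos h, if_pos h, mul_one]
    · rw [if_neg h, if_neg h, mul_zero, Int.cast_zero]

end

end H65.SP
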