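import Pool.Agent.H58.SP.Chn

/-!
# Torsion units and homomorphisms (MP_6f6ee6_al)

Induced maps of integral group rings.
-/

set_option autoImplicit false

namespace H65.SP

open MonoidAlgebra H58.SP

/-- the map of group rings induced by a homomorphism -/
noncomputable def mp {G H : Type*} [Group G] [Group H] (f : G →* H) :
    MonoidAlgebra ℤ G →+* MonoidAlgebra ℤ H :=
  MonoidAlgebra.mapDomainRingHom ℤ f

section

variable {G H K : Type*} [Group G] [Group H] [Group K]

theorem mp_single (f : G →* H) (x : G) (c : ℤ) : mp f (single x c) = single (f x) c := by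
  unfold mp
  rw [mapDomainRingHom_apply, mapDomain_single]

theorem mp_comp (g : H →* K) (f : G →* H) (a : MonoidAlgebra ℤ G) : mp g (mp f a) = mp (g.comp f) a := by
  induction a using MonoidAlgebra.induction_linear with
  | zero => rw [map_zero, map_zero, map_zero]
  | add x y hx hy => rw [map_add, map_add, map_add, hx, hy]
  | single x c => rw [mp_single, mp_single, mp_single, MonoidHom.comp_apply]

theorem mp_id (a : MonoidAlgebra ℤ G) : mp (MonoidHom.id G) a = a := by
  induction a using MonoidAlgebra.induction_linear with
  | zero => rw [map_zero]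
  | add x y hx hy => rw [map_add, hx, hy]
  | single x c => rw [mp_single, MonoidHom.id_apply]

theorem red_eq (N : Subgroup G) [N.Normal] (a : MonoidAlgebra ℤ G) :
    red N a = mp (QuotientGroup.mk' N) a := rfl

theorem mp_injective {f : G →* H} (hf : Function.Injective f) : Function.Injective (mp f) := by
  unfold mp
  exact MonoidAlgebra.mapDomain_injective hf

theorem aug_mp (f : G →* H) (a : MonoidAlgebra ℤ G) :
    sg (Set.univ : Set H) (mp f a) = sg (Set.univ : Set G) a := by
  unfold mp
  rw [sg_map, Set.preimage_univ]

/-- units which become trivial modulo `M` become trivial under homomorphisms which are trivial on `M` -/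
theorem mp_eq_one {f : G →* H} {M : Subgroup G} [M.Normal] (h : M ≤ f.ker) {w : MonoidAlgebra ℤ G}
    (hw : red M w = 1) : mp f w = 1 := by
  have h1 : f = (QuotientGroup.lift M f h).comp (QuotientGroup.mk' M) := by
    ext x
    rfl
  rw [h1, ← mp_comp, ← red_eq, hw, map_one]

/-- and conversely -/
theorem red_eq_one {f : G →* H} {M : Subgroup G} [M.Normal] (h : f.ker ≤ M) {w : MonoidAlgebra ℤ G}
    (hw : mp f w = 1) : red M w = 1 := by
  have h1 : f = (QuotientGroup.kerLift f).comp (QuotientGroup.mk' f.ker) := by
    ext x
    rfl
  rw [h1, ← mp_comp] at hw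
  have h2 : mp (QuotientGroup.mk' f.ker) w = 1 :=
    mp_injective (QuotientGroup.kerLift_injective f) (by rw [hw, map_one])
  exact mp_eq_one (M := f.ker) (by rw [QuotientGroup.ker_mk']; exact h) h2

theorem orderOf_mp_dvd (f : G →* H) (w : MonoidAlgebra ℤ G) : orderOf (mp f w) ∣ orderOf w := by
  rw [orderOf_dvd_iff_pow_eq_one, ← map_pow, pow_orderOf_eq_one, map_one]

end

end H65.SP
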