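import Pool.Agent.H65.SP.Hom

/-!
# No torsion unit of order `p` is trivial modulo two normal subgroups with trivial intersection, one of which is
an elementary abelian `p`-group
-/

set_option autoImplicit false

namespace H65.SP

open MonoidAlgebra H58.SP Module

attribute [local instance] H58.SP.cgN

section fs

variable {G : Type*} [Group G] {R : Type*} [CommRing R]

/-- the linear extension of a function on the group -/
noncomputable def fs (φ : G → R) : MonoidAlgebra ℤ G →+ R :=
  (Finsupp.liftAddHom fun x => (AddMonoidHom.mulRight (φ x)).comp (Int.castAddHom R)).comp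
    (coeffAddEquiv (R := ℤ) (M := G)).toAddMonoidHom

theorem fs_single (φ : G → R) (x : G) (r : ℤ) : fs φ (single x r) = (r : R) * φ x := by
  unfold fs
  rw [AddMonoidHom.comp_apply]
  change Finsupp.liftAddHom _ (single x r).coeff = _
  rw [coeff_single, Finsupp.liftAddHom_apply_single]
  rfl

theorem fs_sub (φ ψ : G → R) (a : MonoidAlgebra ℤ G) : fs (fun x => φ x - ψ x) a = fs φ a - fs ψ a := by
  induction a using MonoidAlgebra.induction_linear with
  | zero => rw [map_zero, map_zero, map_zero, sub_zero]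
  | add x y hx hy => rw [map_add, map_add, map_add, hx, hy]; ring
  | single x c => rw [fs_single, fs_single, fs_single]; ring

theorem fs_mp {H : Type*} [Group H] (f : G →* H) (φ : H → R) (a : MonoidAlgebra ℤ G) :
    fs φ (mp f a) = fs (fun x => φ (f x)) a := by
  induction a using MonoidAlgebra.induction_linear with
  | zero => rw [map_zero, map_zero, map_zero]
  | add x y hx hy => rw [map_add, map_add, map_add, hx, hy]
  | single x c => rw [mp_single, fs_single, fs_single]

/-- functions which are invariant under `L` -/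
theorem fs_inv {φ : G → R} {L : Subgroup G} [L.Normal] (hφ : ∀ g, ∀ l ∈ L, φ (g * l) = φ g)
    {w : MonoidAlgebra ℤ G} (hw : red L w = 1) : fs φ w = φ 1 := by
  have h1 : ∀ x : G, φ (Quotient.out (QuotientGroup.mk' L x)) = φ x := by
    intro x
    have h2 : (QuotientGroup.mk (Quotient.out (QuotientGroup.mk' L x)) : G ⧸ L) = QuotientGroup.mk x :=
      Quotient.out_eq' _
    rw [QuotientGroup.eq] at h2
    have h3 := hφ (Quotient.out (QuotientGroup.mk' L x)) _ h2
    rw [mul_inv_cancel_left] at h3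
    exact h3.symm
  have h2 := fs_mp (QuotientGroup.mk' L) (fun y => φ (Quotient.out y)) w
  simp_rw [h1] at h2
  rw [← h2, ← red_eq, hw, one_def, fs_single, Int.cast_one, one_mul]
  have h3 := h1 1
  rwa [map_one] at h3

end fs

section

variable {p : ℕ} [hp : Fact p.Prime] {G : Type*} [Group G] (N L : Subgroup G)
  [IsMulCommutative N] [Module (ZMod p) (Additive N)]

/-- a function which transforms by `χ` under `N` and is invariant under `L` -/
theorem exists_F [N.Normal] [L.Normal] (hNL : N ⊓ L = ⊥) (χ : Module.Dual (ZMod p) (Additive N)) :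
    ∃ F : G → ZMod p, (∀ (g : G) (n : N), F (g * n) = F g + χ (Additive.ofMul n)) ∧
      ∀ g, ∀ l ∈ L, F (g * l) = F g := by
  have hK : ∀ g : G, ∃ n : N, ∃ l ∈ L, (Quotient.out (QuotientGroup.mk g : G ⧸ (N ⊔ L)))⁻¹ * g = n * l := by
    intro g
    have h2 : (QuotientGroup.mk (Quotient.out (QuotientGroup.mk g : G ⧸ (N ⊔ L))) : G ⧸ (N ⊔ L)) =
        QuotientGroup.mk g := Quotient.out_eq' _
    rw [QuotientGroup.eq, Subgroup.mem_sup_of_normal_right] at h2
    obtain ⟨n, hn, l, hl, h⟩ := h2
    exact ⟨⟨n, hn⟩, l, hl, h.symm⟩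
  choose ν l hl hν using hK
  have huniq : ∀ (n n' : N) (l l' : G), l ∈ L → l' ∈ L → (n : G) * l = n' * l' → n = n' := by
    intro n n' l l' hl hl' h
    have h1 : ((n' : G))⁻¹ * n = l' * l⁻¹ := by
      rw [inv_mul_eq_iff_eq_mul, ← mul_assoc, ← h, mul_inv_cancel_right]
    have h2 : ((n' : G))⁻¹ * n ∈ N ⊓ L := by
      refine Subgroup.mem_inf.2 ⟨N.mul_mem (N.inv_mem n'.2) n.2, ?_⟩
      rw [h1]
      exact L.mul_mem hl' (L.inv_mem hl)
    rw [hNL, Subgroup.mem_bot, inv_mul_eq_one] at h2
    exact Subtype.ext h2.symm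
  have hmk : ∀ (g k : G), k ∈ N ⊔ L → (QuotientGroup.mk (g * k) : G ⧸ (N ⊔ L)) = QuotientGroup.mk g := by
    intro g k hk
    rw [QuotientGroup.mk_mul_of_mem g hk]
  refine ⟨fun g => χ (Additive.ofMul (ν g)), fun g n => ?_, fun g k hk => ?_⟩
  · have h1 : ν (g * n) = ν g * n := by
      refine huniq _ _ (l (g * n)) ((n : G)⁻¹ * l g * n) (hl _) ?_ ?_
      · have := Subgroup.Normal.conj_mem (inferInstance : L.Normal) (l g) (hl g) (n : G)⁻¹
        rwa [inv_inv] at this
      · rw [← hν, hmk g n (Subgroup.mem_sup_left n.2), ← mul_assoc, hν g]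
        simp only [Subgroup.coe_mul]
        group
    show χ (Additive.ofMul (ν (g * n))) = _
    rw [h1, ofMul_mul, map_add]
  · have h1 : ν (g * k) = ν g := by
      refine huniq _ _ (l (g * k)) (l g * k) (hl _) (L.mul_mem (hl g) hk) ?_
      rw [← hν, hmk g k (Subgroup.mem_sup_right hk), ← mul_assoc, hν g, mul_assoc]
    show χ (Additive.ofMul (ν (g * k))) = _
    rw [h1]

variable [Fintype (G ⧸ N)] [DecidableEq (G ⧸ N)]

open Classical in
/-- the indicator function of `N L` on the cosets of `N` -/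
noncomputable def bt (i : G ⧸ N) : ZMod p := if rp N i ∈ N ⊔ L then 1 else 0

theorem bt_Yx (χ : Module.Dual (ZMod p) (Additive N)) (c : MonoidAlgebra ℤ G) (j : G ⧸ N) :
    ∑ i, bt (p := p) N L i * Yx N χ c i j = fs (fun x => bt (p := p) N L (x • j) *
      χ (Additive.ofMul (⟨(rp N (x • j))⁻¹ * x * rp N j, rp_mem N rfl⟩ : N))) c := by
  induction c using MonoidAlgebra.induction_linear with
  | zero =>
    rw [map_zero]
    refine Finset.sum_eq_zero fun i _ => ?_
    have : Yx N χ 0 i j = 0 := by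
      unfold Yx
      rw [Matrix.of_apply, map_zero, Matrix.zero_apply, map_zero, map_zero]
    rw [this, mul_zero]
  | add x y hx hy =>
    rw [map_add, ← hx, ← hy, ← Finset.sum_add_distrib]
    refine Finset.sum_congr rfl fun i _ => ?_
    have : Yx N χ (x + y) i j = Yx N χ x i j + Yx N χ y i j := by
      unfold Yx
      rw [Matrix.of_apply, Matrix.of_apply, Matrix.of_apply, map_add, Matrix.add_apply, map_add, map_add]
    rw [this, mul_add]
  | single x c =>
    rw [fs_single, Finset.sum_eq_single (x • j)]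
    · have : Yx N χ (single x c) (x • j) j =
          (c : ZMod p) * χ (Additive.ofMul (⟨(rp N (x • j))⁻¹ * x * rp N j, rp_mem N rfl⟩ : N)) := by
        unfold Yx
        rw [Matrix.of_apply, Phi_single, Matrix.smul_apply, rho_pos N ℤ (rfl : x • j = x • j), smul_single,
          mapRingHom_single, smul_eq_mul, mul_one, Dd_single]
        rfl
      rw [this]
      ring
    · intro i _ hi
      have : Yx N χ (single x c) i j = 0 := by
        unfold Yx
        rw [Matrix.of_apply, Phi_single, Matrix.smul_apply, rho_neg N ℤ (fun h => hi h.symm), smul_zero,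
          map_zero, map_zero]
      rw [this, mul_zero]
    · intro h
      exact absurd (Finset.mem_univ _) h

theorem bt_Yx_zero [N.Normal] [L.Normal] (hNL : N ⊓ L = ⊥) (χ : Module.Dual (ZMod p) (Additive N))
    (c : MonoidAlgebra ℤ G) (hN : red N c = 1) (hL : red L c = 1) (j : G ⧸ N) :
    ∑ i, bt (p := p) N L i * Yx N χ c i j = 0 := by
  classical
  obtain ⟨F, hF1, hF2⟩ := exists_F N L hNL χ
  rw [bt_Yx]
  have hj : ∀ x : G, x • j = (QuotientGroup.mk (x * rp N j) : G ⧸ N) := by
    intro x
    conv_lhs => rw [← rp_mk N j]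
    rfl
  let B : G → ZMod p := fun g => if g ∈ N ⊔ L then 1 else 0
  have hB : ∀ g, ∀ k ∈ N ⊔ L, B (g * k) = B g := by
    intro g k hk
    have : g * k ∈ N ⊔ L ↔ g ∈ N ⊔ L := Subgroup.mul_mem_cancel_right _ hk
    simp only [B, this]
  have hrp : ∀ x : G, x * rp N j = rp N (x • j) *
      ((⟨(rp N (x • j))⁻¹ * x * rp N j, rp_mem N rfl⟩ : N) : G) := by
    intro x
    simp only
    group
  have hχ : ∀ x : G, χ (Additive.ofMul (⟨(rp N (x • j))⁻¹ * x * rp N j, rp_mem N rfl⟩ : N)) =
      F (x * rp N j) - F (rp N (x • j)) := by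
    intro x
    have h1 := hF1 (rp N (x • j)) (⟨(rp N (x • j))⁻¹ * x * rp N j, rp_mem N rfl⟩ : N)
    rw [← hrp] at h1
    rw [h1]
    ring
  have hbt : ∀ x : G, bt (p := p) N L (x • j) = B (x * rp N j) := by
    intro x
    rw [hrp, hB _ _ (Subgroup.mem_sup_left (Subtype.property _))]
    rfl
  have h1 : (fun x : G => bt (p := p) N L (x • j) *
      χ (Additive.ofMul (⟨(rp N (x • j))⁻¹ * x * rp N j, rp_mem N rfl⟩ : N))) =
      fun x => B (x * rp N j) * F (x * rp N j) - B (rp N (x • j)) * F (rp N (x • j)) := by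
    funext x
    rw [hχ]
    have h2 : B (rp N (x • j)) = B (x * rp N j) := by
      rw [← hbt]
      rfl
    rw [h2, hbt]
    ring
  rw [h1, fs_sub]
  have h2 : fs (fun x => B (x * rp N j) * F (x * rp N j)) c = B (1 * rp N j) * F (1 * rp N j) := by
    refine fs_inv (L := L) (fun g l hl => ?_) hL
    have h3 : g * l * rp N j = g * rp N j * ((rp N j)⁻¹ * l * rp N j) := by group
    have h4 : (rp N j)⁻¹ * l * rp N j ∈ L := by
      have := Subgroup.Normal.conj_mem (inferInstance : L.Normal) l hl (rp N j)⁻¹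
      rwa [inv_inv] at this
    rw [h3, hB _ _ (Subgroup.mem_sup_right h4), hF2 _ _ h4]
  have h3 : fs (fun x => B (rp N (x • j)) * F (rp N (x • j))) c =
      B (rp N ((1 : G) • j)) * F (rp N ((1 : G) • j)) := by
    refine fs_inv (L := N) (fun g n hn => ?_) hN
    have h4 : (g * n) • j = g • j := by
      rw [hj, hj]
      have h3 : g * n * rp N j = g * rp N j * ((rp N j)⁻¹ * n * rp N j) := by group
      have h5 : (rp N j)⁻¹ * n * rp N j ∈ N := by
        have := Subgroup.Normal.conj_mem (inferInstance : N.Normal) n hn (rp N j)⁻¹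
        rwa [inv_inv] at this
      rw [h3, QuotientGroup.mk_mul_of_mem _ h5]
    rw [h4]
  rw [h2, h3, one_mul, one_smul, sub_self]

end

section

variable {p : ℕ} [hp : Fact p.Prime] {G : Type*} [Group G] (N L : Subgroup G)
  [IsMulCommutative N] [Module (ZMod p) (Additive N)] [N.Normal] [L.Normal] [Fintype G]

theorem key_aux (hNL : N ⊓ L = ⊥) (c : MonoidAlgebra ℤ G) (haug : sg (Set.univ : Set G) c = 1)
    (hord : orderOf c = p) (hN : red N c = 1) (hL : red L c = 1) : False := by
  classical
  have : Fintype (G ⧸ N) := Fintype.ofFinite _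
  have : Fintype N := Fintype.ofFinite _
  obtain ⟨B, _, _, _, ⟨D⟩⟩ := exists_cyc p
  obtain ⟨P, Q, ν, hPQ, hQP, hν, h1, h2⟩ := exists_nu N D c hN hord haug
  -- the diagonal form for the characters
  have hdiag : ∀ χ : Module.Dual (ZMod p) (Additive N),
      Q * Yx N χ c * P = Matrix.diagonal fun i => χ (Additive.ofMul (ν i)) := by
    intro χ
    ext i k
    rw [← M0_Dd N c χ, ← Dd_conj]
    by_cases hik : i = k
    · subst hik
      have h3 := Dd_J2 χ _ (h1 i)
      rw [map_sub, map_sub, Dd_one, sub_zero, Dd_single, one_mul, sub_eq_zero] at h3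
      rw [h3, Matrix.diagonal_apply_eq]
    · rw [Dd_J2 χ _ (h2 i k hik), Matrix.diagonal_apply_ne _ hik]
  set β : G ⧸ N → ZMod p := bt (p := p) N L with hβ
  have hβY : ∀ χ : Module.Dual (ZMod p) (Additive N), Matrix.vecMul β (Yx N χ c) = 0 := by
    intro χ
    funext j
    exact bt_Yx_zero N L hNL χ c hN hL j
  have hβP : Matrix.vecMul β P = 0 := by
    funext i
    obtain ⟨χ, hχ⟩ := exists_char (p := p) (ν i) (hν i)
    have h3 : Matrix.vecMul (Matrix.vecMul β P) (Q * Yx N χ c * P) = 0 := by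
      rw [Matrix.vecMul_vecMul, ← mul_assoc, ← mul_assoc, hPQ, one_mul, ← Matrix.vecMul_vecMul, hβY,
        Matrix.zero_vecMul]
    rw [hdiag] at h3
    have h4 := congrFun h3 i
    rw [Matrix.vecMul_diagonal, hχ, mul_one] at h4
    exact h4
  have hβ0 : β = 0 := by
    have h3 : β = Matrix.vecMul (Matrix.vecMul β P) Q := by
      rw [Matrix.vecMul_vecMul, hPQ, Matrix.vecMul_one]
    rw [h3, hβP, Matrix.zero_vecMul]
  have h3 := congrFun hβ0 (QuotientGroup.mk 1)
  have h4 : rp N (QuotientGroup.mk 1 : G ⧸ N) ∈ N ⊔ L := by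
    have h5 : (QuotientGroup.mk (rp N (QuotientGroup.mk 1 : G ⧸ N)) : G ⧸ N) = QuotientGroup.mk 1 := rp_mk N _
    have h6 := (QuotientGroup.eq_one_iff _).1 h5
    exact Subgroup.mem_sup_left h6
  rw [hβ] at h3
  unfold bt at h3
  rw [if_pos h4] at h3
  exact one_ne_zero h3

end

/-- the key lemma -/
theorem key {p : ℕ} (hp : p.Prime) {G : Type*} [Group G] [Finite G] (N L : Subgroup G) [N.Normal] [L.Normal]
    (hcomm : ∀ a ∈ N, ∀ b ∈ N, a * b = b * a) (hexp : ∀ a ∈ N, a ^ p = 1) (hNL : N ⊓ L = ⊥)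
    (c : MonoidAlgebra ℤ G) (haug : sg (Set.univ : Set G) c = 1) (hord : orderOf c = p)
    (hN : red N c = 1) (hL : red L c = 1) : False := by
  have : Fact p.Prime := ⟨hp⟩
  have : Fintype G := Fintype.ofFinite G
  have : IsMulCommutative N := ⟨⟨fun a b => Subtype.ext (hcomm a a.2 b b.2)⟩⟩
  let _ : CommGroup N := cgN N
  let _ : Module (ZMod p) (Additive N) := AddCommGroup.zmodModule (n := p) (fun x => by
    have h := hexp (Additive.toMul x : N) (Additive.toMul x : N).2
    exact Subtype.ext h)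
  exact key_aux (p := p) N L hNL c haug hord hN hL

end H65.SP
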