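import Pool.Agent.H65.SP.Loc

/-!
# Lifting modular representations; the trace of a torsion unit
-/

set_option autoImplicit false

namespace H65.SP

open MonoidAlgebra H58.SP Matrix Kronecker

section

variable {H : Type*} [Group H] {R : Type*} [CommRing R] {ι κ : Type*} [Fintype ι] [DecidableEq ι]
  [Fintype κ] [DecidableEq κ]

/-- the Kronecker product of two representations -/
def kr (α : H →* Matrix ι ι R) (β : H →* Matrix κ κ ℤ) : H →* Matrix (ι × κ) (ι × κ) R where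
  toFun x := α x ⊗ₖ (Int.castRingHom R).mapMatrix (β x)
  map_one' := by rw [map_one, map_one, map_one, Matrix.one_kronecker_one]
  map_mul' x y := by rw [map_mul, map_mul, map_mul, Matrix.mul_kronecker_mul]

theorem kr_apply (α : H →* Matrix ι ι R) (β : H →* Matrix κ κ ℤ) (x : H) :
    kr α β x = α x ⊗ₖ (Int.castRingHom R).mapMatrix (β x) := rfl

theorem trace_kr (α : H →* Matrix ι ι R) (β : H →* Matrix κ κ ℤ) (x : H) :
    (kr α β x).trace = (α x).trace * ((β x).trace : R) := by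
  rw [kr_apply, Matrix.trace_kronecker]
  congr 1
  exact (AddMonoidHom.map_trace (Int.castRingHom R).toAddMonoidHom (β x)).symm

/-- the linear extension of a representation -/
noncomputable def hat (μ : H →* Matrix ι ι R) : MonoidAlgebra ℤ H →+* Matrix ι ι R :=
  (MonoidAlgebra.lift ℤ (Matrix ι ι R) H μ : MonoidAlgebra ℤ H →ₐ[ℤ] Matrix ι ι R).toRingHom

theorem hat_single (μ : H →* Matrix ι ι R) (x : H) (c : ℤ) : hat μ (single x c) = c • μ x :=
  MonoidAlgebra.lift_single μ x c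

theorem trace_hat (μ : H →* Matrix ι ι R) (a : MonoidAlgebra ℤ H) :
    (hat μ a).trace = fs (fun x => (μ x).trace) a := by
  induction a using MonoidAlgebra.induction_linear with
  | zero => rw [map_zero, map_zero, Matrix.trace_zero]
  | add x y hx hy => rw [map_add, Matrix.trace_add, hx, hy, map_add]
  | single x c => rw [hat_single, fs_single, Matrix.trace_smul, zsmul_eq_mul]

theorem hat_map {S : Type*} [CommRing S] (f : R →+* S) (μ : H →* Matrix ι ι R) (ν : H →* Matrix ι ι S)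
    (h : ∀ x, f.mapMatrix (μ x) = ν x) (a : MonoidAlgebra ℤ H) : f.mapMatrix (hat μ a) = hat ν a := by
  induction a using MonoidAlgebra.induction_linear with
  | zero => rw [map_zero, map_zero, map_zero]
  | add x y hx hy => rw [map_add, map_add, map_add, hx, hy]
  | single x c => rw [hat_single, hat_single, map_zsmul, h]

theorem hat_mp {H' : Type*} [Group H'] (π : H →* H') (ν : H' →* Matrix ι ι R) (a : MonoidAlgebra ℤ H) :
    hat ν (mp π a) = hat (ν.comp π) a := by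
  induction a using MonoidAlgebra.induction_linear with
  | zero => rw [map_zero, map_zero, map_zero]
  | add x y hx hy => rw [map_add, map_add, map_add, hx, hy]
  | single x c => rw [mp_single, hat_single, hat_single, MonoidHom.comp_apply]

theorem cf_trace (μ : H →* Matrix ι ι R) : CF (fun x => (μ x).trace) := by
  intro g x
  change (μ (g * x * g⁻¹)).trace = (μ x).trace
  rw [map_mul, map_mul, Matrix.trace_mul_comm, ← mul_assoc, ← map_mul, inv_mul_cancel, map_one, one_mul]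

end

section

variable {l k : ℕ} [hl : Fact l.Prime] (hk : 0 < k) {ι : Type*} [Fintype ι] [DecidableEq ι]
  {G : Type*} [Group G] (ρ : G →* Matrix ι ι (ZMod l))

/-- the group of lifts -/
noncomputable def Gam : Subgroup ((Matrix ι ι (ZMod (l ^ k)))ˣ × G) :=
  ((Units.map ((cst l k hk).mapMatrix : Matrix ι ι (ZMod (l ^ k)) →+* Matrix ι ι (ZMod l)).toMonoidHom).comp
    (MonoidHom.fst _ _)).eqLocus ((MonoidHom.toHomUnits ρ).comp (MonoidHom.snd _ _))

theorem mem_Gam (γ : (Matrix ι ι (ZMod (l ^ k)))ˣ × G) :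
    γ ∈ Gam hk ρ ↔ (cst l k hk).mapMatrix (γ.1 : Matrix ι ι (ZMod (l ^ k))) = ρ γ.2 := by
  have h : γ ∈ Gam hk ρ ↔ Units.map ((cst l k hk).mapMatrix :
      Matrix ι ι (ZMod (l ^ k)) →+* Matrix ι ι (ZMod l)).toMonoidHom γ.1 = MonoidHom.toHomUnits ρ γ.2 := Iff.rfl
  rw [h, Units.ext_iff]
  rfl

/-- the projection to the group -/
noncomputable def prG : Gam hk ρ →* G := (MonoidHom.snd _ _).comp (Gam hk ρ).subtype

/-- the matrix -/
noncomputable def mtG : Gam hk ρ →* Matrix ι ι (ZMod (l ^ k)) :=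
  (Units.coeHom _).comp ((MonoidHom.fst _ _).comp (Gam hk ρ).subtype)

theorem cst_mtG (γ : Gam hk ρ) : (cst l k hk).mapMatrix (mtG hk ρ γ) = ρ (prG hk ρ γ) :=
  (mem_Gam hk ρ γ.1).1 γ.2

theorem prG_surj : Function.Surjective (prG hk ρ) := by
  intro x
  obtain ⟨B, hB⟩ := exists_map hk (ρ x)
  have h1 : IsUnit (ρ x) := (MonoidHom.toHomUnits ρ x).isUnit
  rw [← hB] at h1
  obtain ⟨u, hu⟩ := isUnit_of_map hk h1
  refine ⟨⟨(u, x), ?_⟩, rfl⟩
  rw [mem_Gam, ← hB]
  exact congrArg _ hu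

variable [Finite G]

theorem finite_Gam : Finite (Gam hk ρ) := by
  have : NeZero (l ^ k) := ⟨pow_ne_zero _ hl.out.ne_zero⟩
  have h1 : Finite (Matrix ι ι (ZMod (l ^ k))) := inferInstance
  have h2 : Finite (Matrix ι ι (ZMod (l ^ k)))ˣ := inferInstance
  infer_instance

/-- matrices of order prime to `l` with the same reduction have the same trace -/
theorem trace_eq_of_cst {B B' : Matrix ι ι (ZMod (l ^ k))} {h : ℕ} (hh : ¬ l ∣ h) (hB : B ^ h = 1)
    (hB' : B' ^ h = 1) (he : (cst l k hk).mapMatrix B = (cst l k hk).mapMatrix B') : B.trace = B'.trace := by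
  have hh0 : h ≠ 0 := by
    rintro rfl
    exact hh (dvd_zero l)
  obtain ⟨m, rfl⟩ : ∃ m, h = m + 1 := ⟨h - 1, by omega⟩
  set C : Matrix ι ι (ZMod (l ^ k)) := ∑ s ∈ Finset.range (m + 1), B' ^ s * B ^ (m + 1 - s) with hC
  have h1 : B' * C = C * B := by
    have e1 : B' * C = ∑ s ∈ Finset.range (m + 1), B' ^ (s + 1) * B ^ (m - s) * B := by
      rw [hC, Finset.mul_sum]
      refine Finset.sum_congr rfl fun s hs => ?_
      have h2 := Finset.mem_range.1 hs
      rw [← mul_assoc, ← pow_succ', mul_assoc _ (B ^ (m - s)) B, ← pow_succ]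
      congr 2
      omega
    have e2 : C * B = ∑ s ∈ Finset.range (m + 1), B' ^ s * B ^ (m + 1 - s) * B := by
      rw [hC, Finset.sum_mul]
    rw [e1, e2, Finset.sum_range_succ, Finset.sum_range_succ']
    congr 1
    · refine Finset.sum_congr rfl fun s hs => ?_
      have h2 := Finset.mem_range.1 hs
      congr 3
      omega
    · rw [hB', Nat.sub_self, pow_zero, pow_zero, Nat.sub_zero, hB]
  have h2 : (cst l k hk).mapMatrix C = ((m + 1 : ℕ) : Matrix ι ι (ZMod l)) := by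
    rw [hC, map_sum]
    have h3 : ∀ s ∈ Finset.range (m + 1), (cst l k hk).mapMatrix (B' ^ s * B ^ (m + 1 - s)) = 1 := by
      intro s hs
      have h4 := Finset.mem_range.1 hs
      rw [map_mul, map_pow, map_pow, ← he, ← pow_add, Nat.add_sub_cancel' h4.le, ← map_pow, hB, map_one]
    rw [Finset.sum_congr rfl h3, Finset.sum_const, Finset.card_range, nsmul_eq_mul, mul_one]
  have h3 : IsUnit C := by
    refine isUnit_of_map hk ?_
    rw [h2, Matrix.isUnit_iff_isUnit_det]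
    have h4 : ((m + 1 : ℕ) : Matrix ι ι (ZMod l)) = ((m + 1 : ℕ) : ZMod l) • (1 : Matrix ι ι (ZMod l)) := by
      rw [Nat.cast_smul_eq_nsmul, nsmul_eq_mul, mul_one]
    rw [h4, Matrix.det_smul, Matrix.det_one, mul_one]
    refine (isUnit_iff_ne_zero.2 ?_).pow _
    rw [Ne, ZMod.natCast_eq_zero_iff]
    exact hh
  obtain ⟨u, hu⟩ := h3
  have h4 : B' = (u : Matrix ι ι (ZMod (l ^ k))) * B * (↑u⁻¹ : Matrix ι ι (ZMod (l ^ k))) := by
    rw [hu, ← h1, mul_assoc, ← hu, Units.mul_inv, mul_one]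
  rw [h4, Matrix.trace_mul_comm, ← mul_assoc, Units.inv_mul, one_mul]

theorem trace_wd (γ γ' : Gam hk ρ) (h : prG hk ρ γ = prG hk ρ γ') :
    (mtG hk ρ (γ ^ l ^ Nat.card (Gam hk ρ))).trace = (mtG hk ρ (γ' ^ l ^ Nat.card (Gam hk ρ))).trace := by
  have hfin := finite_Gam hk ρ
  have h1 := not_dvd_pow l hl.out γ
  have h2 := not_dvd_pow l hl.out γ'
  refine trace_eq_of_cst hk (h := orderOf (γ ^ l ^ Nat.card (Gam hk ρ)) * orderOf (γ' ^ l ^ Nat.card (Gam hk ρ)))
    ?_ ?_ ?_ ?_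
  · intro h3
    rcases (Nat.Prime.dvd_mul hl.out).1 h3 with h4 | h4
    · exact h1 h4
    · exact h2 h4
  · rw [← map_pow, pow_mul, pow_orderOf_eq_one, one_pow, map_one]
  · rw [← map_pow, mul_comm, pow_mul, pow_orderOf_eq_one, one_pow, map_one]
  · rw [cst_mtG, cst_mtG, map_pow (prG hk ρ), map_pow (prG hk ρ), h]

theorem mp_surjective {G H : Type*} [Group G] [Group H] {f : G →* H} (hf : Function.Surjective f)
    (b : MonoidAlgebra ℤ H) : ∃ a, mp f a = b := by
  induction b using MonoidAlgebra.induction_linear with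
  | zero => exact ⟨0, map_zero _⟩
  | add x y hx hy =>
    obtain ⟨a, ha⟩ := hx
    obtain ⟨b, hb⟩ := hy
    exact ⟨a + b, by rw [map_add, ha, hb]⟩
  | single x c =>
    obtain ⟨y, rfl⟩ := hf x
    exact ⟨single y c, mp_single f y c⟩

variable {κ : Type*} [Fintype κ] [DecidableEq κ] (P : G →* Matrix κ κ ℤ)

/-- **the trace of a torsion unit of order prime to `l` on a representation in characteristic `l` times
an integral representation** -/
theorem brauer {n : ℕ} (hn : 0 < n) (hln : ¬ l ∣ n) (w : MonoidAlgebra ℤ G) (hw : w ^ n = 1) :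
    ∃ (i e : ℕ) (A : G → Matrix ι ι (ZMod (l ^ k))) (U : Matrix (ι × κ) (ι × κ) (ZMod (l ^ k))),
      (∀ x, (cst l k hk).mapMatrix (A x) = ρ x ^ l ^ i) ∧
      (∀ x (j : ℕ), (A (x ^ j)).trace = (A x ^ j).trace) ∧
      (∀ x (j : ℕ), x ^ j = 1 → A x ^ j = 1) ∧
      U ^ n = 1 ∧ (cst l k hk).mapMatrix U = hat (kr ρ P) (w ^ e) ∧
      CF (fun x => (A x).trace * (((P (x ^ l ^ i)).trace : ℤ) : ZMod (l ^ k))) ∧
      ∀ j : ℕ, (U ^ j).trace =
        fs (fun x => (A x).trace * (((P (x ^ l ^ i)).trace : ℤ) : ZMod (l ^ k))) (w ^ j) := by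
  have hfin := finite_Gam hk ρ
  choose s hs using prG_surj hk ρ
  set N := Nat.card (Gam hk ρ) with hN
  obtain ⟨a, ha⟩ := mp_surjective (prG_surj hk ρ) w
  set r := Nat.totient n * k with hr
  have hφ : 0 < Nat.totient n := Nat.totient_pos.2 hn
  have hkr : k ≤ r + 1 := by
    have h1 : 1 * k ≤ Nat.totient n * k := Nat.mul_le_mul_right k hφ
    omega
  have hlr : l ^ r ≡ 1 [MOD n] := by
    rw [hr, pow_mul]
    have := (Nat.ModEq.pow_totient ((Nat.Prime.coprime_iff_not_dvd hl.out).2 hln)).pow k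
    rwa [one_pow] at this
  set M : MonoidAlgebra ℤ (Gam hk ρ) →+* Matrix (ι × κ) (ι × κ) (ZMod (l ^ k)) :=
    hat (kr (mtG hk ρ) (P.comp (prG hk ρ))) with hM
  have hred : ∀ b, (cst l k hk).mapMatrix (M b) = hat (kr ρ P) (mp (prG hk ρ) b) := by
    intro b
    rw [hat_mp]
    refine hat_map (cst l k hk) _ _ ?_ b
    intro γ
    rw [MonoidHom.comp_apply, kr_apply, kr_apply, ← cst_mtG, MonoidHom.comp_apply]
    ext ⟨i, x⟩ ⟨j, y⟩
    change cst l k hk (mtG hk ρ γ i j * ((P (prG hk ρ γ) x y : ℤ) : ZMod (l ^ k))) =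
      cst l k hk (mtG hk ρ γ i j) * ((P (prG hk ρ γ) x y : ℤ) : ZMod l)
    rw [map_mul, map_intCast]
  have hAj : ∀ x (j : ℕ), (mtG hk ρ (s x ^ l ^ N)) ^ j = mtG hk ρ ((s x ^ j) ^ l ^ N) := by
    intro x j
    rw [← map_pow, ← pow_mul, ← pow_mul, mul_comm]
  set t : G → ZMod (l ^ k) := fun x => (mtG hk ρ (s x ^ l ^ N)).trace *
    (((P (x ^ l ^ N)).trace : ℤ) : ZMod (l ^ k)) with ht
  have htG : ∀ γ : Gam hk ρ, (kr (mtG hk ρ) (P.comp (prG hk ρ)) (γ ^ l ^ N)).trace = t (prG hk ρ γ) := by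
    intro γ
    rw [trace_kr, ht]
    change (mtG hk ρ (γ ^ l ^ N)).trace * (((P (prG hk ρ (γ ^ l ^ N))).trace : ℤ) : ZMod (l ^ k)) =
      (mtG hk ρ (s (prG hk ρ γ) ^ l ^ N)).trace * (((P (prG hk ρ γ ^ l ^ N)).trace : ℤ) : ZMod (l ^ k))
    rw [map_pow (prG hk ρ), trace_wd hk ρ γ (s (prG hk ρ γ)) (hs _).symm]
  refine ⟨N, l ^ (r + N), fun x => mtG hk ρ (s x ^ l ^ N), M a ^ l ^ (r + N), ?_, ?_, ?_, ?_, ?_, ?_, ?_⟩
  · intro x
    rw [cst_mtG, map_pow (prG hk ρ), hs, map_pow]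
  · intro x j
    change (mtG hk ρ (s (x ^ j) ^ l ^ N)).trace = ((mtG hk ρ (s x ^ l ^ N)) ^ j).trace
    rw [hAj]
    refine trace_wd hk ρ _ _ ?_
    rw [hs, map_pow, hs]
  · intro x j hx
    change (mtG hk ρ (s x ^ l ^ N)) ^ j = 1
    rw [hAj]
    set γ := s x ^ j with hγ
    have h1 : prG hk ρ γ = 1 := by rw [hγ, map_pow, hs, hx]
    have h2 : (mtG hk ρ (γ ^ l ^ N)) ^ l ^ k = 1 := by
      refine pow_pow_eq_one hk ?_ (by omega)
      rw [cst_mtG, map_pow (prG hk ρ), h1, one_pow, map_one]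
    have h3 : (mtG hk ρ (γ ^ l ^ N)) ^ orderOf (γ ^ l ^ N) = 1 := by
      rw [← map_pow, pow_orderOf_eq_one, map_one]
    have h4 : ¬ l ∣ orderOf (γ ^ l ^ N) := not_dvd_pow l hl.out γ
    have h5 : orderOf (mtG hk ρ (γ ^ l ^ N)) ∣ Nat.gcd (l ^ k) (orderOf (γ ^ l ^ N)) :=
      Nat.dvd_gcd (orderOf_dvd_of_pow_eq_one h2) (orderOf_dvd_of_pow_eq_one h3)
    have h6 : Nat.gcd (l ^ k) (orderOf (γ ^ l ^ N)) = 1 :=
      Nat.Coprime.pow_left k ((Nat.Prime.coprime_iff_not_dvd hl.out).2 h4)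
    rw [h6, Nat.dvd_one] at h5
    exact orderOf_eq_one_iff.1 h5
  · rw [← pow_mul, mul_comm, pow_mul]
    refine pow_pow_eq_one hk ?_ (by omega)
    rw [map_pow, hred, ha, ← map_pow, hw, map_one]
  · rw [map_pow, hred, ha, map_pow]
  · intro g x
    change t (g * x * g⁻¹) = t x
    have e1 : prG hk ρ (s g * s x * (s g)⁻¹) = g * x * g⁻¹ := by
      rw [map_mul, map_mul, map_inv, hs, hs]
    have h1 := htG (s g * s x * (s g)⁻¹)
    have h2 := htG (s x)
    have h3 : (kr (mtG hk ρ) (P.comp (prG hk ρ)) (s g * s x ^ l ^ N * (s g)⁻¹)).trace =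
        (kr (mtG hk ρ) (P.comp (prG hk ρ)) (s x ^ l ^ N)).trace :=
      cf_trace (kr (mtG hk ρ) (P.comp (prG hk ρ))) (s g) (s x ^ l ^ N)
    rw [e1, conj_pow, h3] at h1
    rw [hs] at h2
    rw [← h1, ← h2]
  · intro j
    change _ = fs t (w ^ j)
    rw [← pow_mul, mul_comm, pow_mul, ← map_pow, ← map_pow, trace_hat, fs_dold (cf_trace _) (a ^ j) hkr N,
      fs_congr htG, ← fs_mp, map_pow (mp (prG hk ρ)), map_pow (mp (prG hk ρ)), ha, ← pow_mul]
    congr 1
    refine pow_eq_of_modEq hw ?_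
    have := hlr.mul_left j
    rwa [mul_one] at this

end

end H65.SP
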