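import Pool.Agent.H65.SP.Neg

/-!
# Matrices over `ZMod (l ^ k)`
-/

set_option autoImplicit false

namespace H65.SP

open Module

variable {l k : ℕ} [hl : Fact l.Prime]

/-- the reduction modulo `l` -/
noncomputable def cst (l k : ℕ) (hk : 0 < k) : ZMod (l ^ k) →+* ZMod l :=
  ZMod.castHom (dvd_pow_self l hk.ne') (ZMod l)

theorem cst_surj (hk : 0 < k) : Function.Surjective (cst l k hk) :=
  ZMod.castHom_surjective _

theorem cst_nat (hk : 0 < k) (m : ℕ) : cst l k hk (m : ZMod (l ^ k)) = m := map_natCast _ _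

theorem exists_nat (a : ZMod (l ^ k)) : ∃ m : ℕ, a = m := by
  have : NeZero (l ^ k) := ⟨pow_ne_zero _ hl.out.ne_zero⟩
  exact ⟨a.val, (ZMod.natCast_zmod_val a).symm⟩

theorem isUnit_of_cst (hk : 0 < k) {a : ZMod (l ^ k)} (ha : cst l k hk a ≠ 0) : IsUnit a := by
  obtain ⟨m, rfl⟩ := exists_nat a
  rw [cst_nat, Ne, ZMod.natCast_eq_zero_iff] at ha
  rw [ZMod.isUnit_iff_coprime]
  exact Nat.Coprime.pow_right _ ((Nat.Prime.coprime_iff_not_dvd hl.out).2 ha).symm

theorem exists_mul_of_cst (hk : 0 < k) {a : ZMod (l ^ k)} (ha : cst l k hk a = 0) : ∃ b, a = l * b := by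
  obtain ⟨m, rfl⟩ := exists_nat a
  rw [cst_nat, ZMod.natCast_eq_zero_iff] at ha
  obtain ⟨c, rfl⟩ := ha
  exact ⟨(c : ZMod (l ^ k)), by push_cast; rfl⟩

theorem isLocalRing (hk : 0 < k) : IsLocalRing (ZMod (l ^ k)) := by
  have h1 : Nontrivial (ZMod (l ^ k)) := by
    have : Fact (1 < l ^ k) := ⟨Nat.one_lt_pow hk.ne' hl.out.one_lt⟩
    exact ZMod.nontrivial _
  refine IsLocalRing.of_isUnit_or_isUnit_one_sub_self fun a => ?_
  by_cases h : cst l k hk a = 0
  · right
    refine isUnit_of_cst hk ?_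
    rw [map_sub, map_one, h, sub_zero]
    exact one_ne_zero
  · exact Or.inl (isUnit_of_cst hk h)

variable {ι : Type*} [Fintype ι] [DecidableEq ι]

theorem isUnit_of_map (hk : 0 < k) {A : Matrix ι ι (ZMod (l ^ k))} (hA : IsUnit ((cst l k hk).mapMatrix A)) :
    IsUnit A := by
  rw [Matrix.isUnit_iff_isUnit_det] at hA ⊢
  refine isUnit_of_cst hk ?_
  rw [RingHom.map_det]
  exact hA.ne_zero

theorem exists_map (hk : 0 < k) (A : Matrix ι ι (ZMod l)) :
    ∃ B : Matrix ι ι (ZMod (l ^ k)), (cst l k hk).mapMatrix B = A := by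
  choose f hf using cst_surj (l := l) hk
  refine ⟨Matrix.of fun i j => f (A i j), ?_⟩
  ext i j
  exact hf _

theorem exists_smul_of_map (hk : 0 < k) {A : Matrix ι ι (ZMod (l ^ k))} (hA : (cst l k hk).mapMatrix A = 0) :
    ∃ B : Matrix ι ι (ZMod (l ^ k)), A = (l : ℕ) • B := by
  have h1 : ∀ i j, ∃ b, A i j = l * b := fun i j => exists_mul_of_cst hk (congrFun (congrFun hA i) j)
  choose f hf using h1
  refine ⟨Matrix.of f, ?_⟩
  ext i j
  rw [Matrix.smul_apply, Matrix.of_apply, nsmul_eq_mul, hf]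

/-- powers of matrices congruent to one -/
theorem pow_pow_eq_one (hk : 0 < k) {Y : Matrix ι ι (ZMod (l ^ k))} (hY : (cst l k hk).mapMatrix Y = 1) {m : ℕ}
    (hm : k ≤ m + 1) : Y ^ l ^ m = 1 := by
  have key : ∀ s : ℕ, ∃ Z : Matrix ι ι (ZMod (l ^ k)), Y ^ l ^ s = 1 + (l ^ (s + 1)) • Z := by
    intro s
    induction s with
    | zero =>
      obtain ⟨B, hB⟩ := exists_smul_of_map hk (A := Y - 1) (by rw [map_sub, map_one, hY, sub_self])
      exact ⟨B, by rw [pow_zero, pow_one, zero_add, pow_one, ← hB]; abel⟩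
    | succ s ih =>
      obtain ⟨Z, hZ⟩ := ih
      set a : Matrix ι ι (ZMod (l ^ k)) := (l ^ (s + 1)) • Z with ha
      have h1 : ∀ i : ℕ, ∃ W : Matrix ι ι (ZMod (l ^ k)), (1 + a) ^ i = 1 + l • W := by
        intro i
        induction i with
        | zero => exact ⟨0, by rw [pow_zero, smul_zero, add_zero]⟩
        | succ i ih' =>
          obtain ⟨W, hW⟩ := ih'
          have e1 : a = l • ((l ^ s) • Z) := by rw [ha, smul_smul, ← pow_succ']
          refine ⟨W + (l ^ s) • Z + W * a, ?_⟩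
          rw [smul_add, smul_add, ← e1, pow_succ, hW]
          simp only [mul_add, add_mul, mul_one, one_mul, smul_mul_assoc]
          abel
      choose W hW using h1
      refine ⟨Z * (1 + ∑ i ∈ Finset.range l, W i), ?_⟩
      have h2 := mul_geom_sum (1 + a) l
      have h3 : (1 + a) ^ l = 1 + a * ∑ i ∈ Finset.range l, (1 + a) ^ i := by
        rw [add_sub_cancel_left] at h2
        rw [h2]
        abel
      rw [pow_succ l s, pow_mul, hZ, h3, Finset.sum_congr rfl (fun i _ => hW i), Finset.sum_add_distrib,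
        Finset.sum_const, Finset.card_range, ← Finset.smul_sum, ← smul_add, ha, mul_smul_comm,
        smul_mul_assoc, smul_smul, ← pow_succ']
  obtain ⟨Z, hZ⟩ := key m
  rw [hZ]
  have h1 : (l ^ (m + 1)) • Z = 0 := by
    have h2 : ((l ^ (m + 1) : ℕ) : ZMod (l ^ k)) = 0 := by
      rw [ZMod.natCast_eq_zero_iff]
      exact pow_dvd_pow l hm
    rw [← Nat.cast_smul_eq_nsmul (ZMod (l ^ k)), h2, zero_smul]
  rw [h1, add_zero]

/-- the trace of a scaled idempotent -/
theorem trace_eq_rank (hk : 0 < k) (E : Matrix ι ι (ZMod (l ^ k))) {p : ℕ} (hp : ¬ l ∣ p)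
    (hE : E * E = p • E) : ∃ d : ℕ, d ≤ Fintype.card ι ∧ E.trace = ((p * d : ℕ) : ZMod (l ^ k)) ∧
      (d = 0 → E = 0) := by
  have hloc := isLocalRing (l := l) hk
  have hne : NeZero (l ^ k) := ⟨pow_ne_zero _ hl.out.ne_zero⟩
  have hpu : IsUnit (p : ZMod (l ^ k)) := by
    rw [ZMod.isUnit_iff_coprime]
    exact Nat.Coprime.pow_right _ ((Nat.Prime.coprime_iff_not_dvd hl.out).2 hp).symm
  obtain ⟨c, hc⟩ := hpu.exists_left_inv
  set e : Matrix ι ι (ZMod (l ^ k)) := c • E with he
  have hee : e * e = e := by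
    rw [he, smul_mul_assoc, mul_smul_comm, hE, ← Nat.cast_smul_eq_nsmul (ZMod (l ^ k)) p E, smul_smul c (p : ZMod (l ^ k)),
      hc, one_smul]
  have hEe : E = (p : ZMod (l ^ k)) • e := by
    rw [he, smul_smul, mul_comm, hc, one_smul]
  set f : Module.End (ZMod (l ^ k)) (ι → ZMod (l ^ k)) := Matrix.toLin' e with hf
  have hff : IsIdempotentElem f := by
    change Matrix.toLin' e ∘ₗ Matrix.toLin' e = _
    rw [← Matrix.toLin'_mul, hee]
  have hfin : Finite (ι → ZMod (l ^ k)) := inferInstance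
  have hproj : ∀ g : Module.End (ZMod (l ^ k)) (ι → ZMod (l ^ k)), IsIdempotentElem g →
      Module.Free (ZMod (l ^ k)) (LinearMap.range g) := by
    intro g hg
    have h1 : Module.Projective (ZMod (l ^ k)) (LinearMap.range g) := by
      refine Module.Projective.of_split (LinearMap.range g).subtype g.rangeRestrict ?_
      ext ⟨x, y, rfl⟩
      change g (g y) _ = g y _
      exact congrFun (LinearMap.congr_fun hg y) _
    have h2 : Module.Finite (ZMod (l ^ k)) (LinearMap.range g) := Module.Finite.range g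
    exact Module.free_of_flat_of_isLocalRing
  have h1 : Module.Free (ZMod (l ^ k)) (LinearMap.range f) := hproj f hff
  have h2 : Module.Finite (ZMod (l ^ k)) (LinearMap.range f) := Module.Finite.range f
  have hker : LinearMap.ker f = LinearMap.range (1 - f) := LinearMap.IsIdempotentElem.ker_eq_range hff
  have h3 : Module.Free (ZMod (l ^ k)) (LinearMap.ker f) := by
    rw [hker]
    exact hproj (1 - f) hff.one_sub
  have h4 : Module.Finite (ZMod (l ^ k)) (LinearMap.ker f) := by
    rw [hker]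
    exact Module.Finite.range (1 - f)
  have h5 := (LinearMap.IsIdempotentElem.isProj_range f hff).trace
  rw [hf, Matrix.trace_toLin'_eq] at h5
  refine ⟨finrank (ZMod (l ^ k)) (LinearMap.range f), ?_, ?_, ?_⟩
  · have h6 := Submodule.finrank_le (LinearMap.range f)
    rwa [finrank_fintype_fun_eq_card] at h6
  · rw [hEe, Matrix.trace_smul, h5, Nat.cast_mul, smul_eq_mul]
  · intro h6
    have h7 : Subsingleton (LinearMap.range f) := by
      have b := Module.finBasis (ZMod (l ^ k)) (LinearMap.range f)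
      have hem : IsEmpty (Fin (finrank (ZMod (l ^ k)) (LinearMap.range f))) := by
        rw [h6]
        infer_instance
      exact b.repr.toEquiv.subsingleton
    have h8 : f = 0 := by
      ext x
      have h9 : (⟨f (Pi.single x 1), ⟨_, rfl⟩⟩ : LinearMap.range f) = 0 := Subsingleton.elim _ _
      have h10 := congrArg Subtype.val h9
      simpa using congrFun h10 _
    have h9 : e = 0 := by
      rw [hf] at h8
      exact (LinearEquiv.map_eq_zero_iff _).1 h8
    rw [hEe, h9, smul_zero]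

end H65.SP
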