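import Pool.Agent.H65.SP.Fpg

/-!
# Fixed point free groups of automorphisms
-/

set_option autoImplicit false

namespace H65.SP

open MonoidAlgebra H58.SP Module

universe u

/-- the group `N` acts on a nontrivial finite abelian group `V` of order prime to `p` in such a way that
the elements of order `p` of `N` fix only `0` -/
def FixedPointFree (p : ℕ) (N : Type u) [Group N] : Prop :=
  ∃ (V : Type) (_ : AddCommGroup V) (_ : DistribMulAction N V), Finite V ∧ Nontrivial V ∧
    (Nat.card V).Coprime p ∧ ∀ x : N, orderOf x = p → ∀ v : V, x • v = v → v = 0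

theorem FixedPointFree.of_equiv {p : ℕ} {N M : Type*} [Group N] [Group M] (e : M ≃* N)
    (h : FixedPointFree p N) : FixedPointFree p M := by
  obtain ⟨V, i1, i2, h1, h2, h3, h4⟩ := h
  refine ⟨V, i1, DistribMulAction.compHom V e.toMonoidHom, h1, h2, h3, ?_⟩
  intro x hx v hv
  refine h4 (e x) ?_ v hv
  rw [← hx]
  exact orderOf_injective e.toMonoidHom e.injective x

/-- groups of order prime to `p` -/
theorem fixedPointFree_of_not_dvd {p : ℕ} (hp : p.Prime) {N : Type*} [Group N] (h : ¬ p ∣ Nat.card N) :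
    FixedPointFree p N := by
  obtain ⟨l, hl1, hl2⟩ := Nat.exists_infinite_primes (p + 1)
  have : Fact l.Prime := ⟨hl2⟩
  let _ : DistribMulAction N (ZMod l) :=
    { smul := fun _ v => v
      one_smul := fun _ => rfl
      mul_smul := fun _ _ _ => rfl
      smul_zero := fun _ => rfl
      smul_add := fun _ _ _ => rfl }
  refine ⟨ZMod l, inferInstance, inferInstance, inferInstance, inferInstance, ?_, ?_⟩
  · rw [Nat.card_zmod]
    exact (Nat.coprime_primes hl2 hp).2 (by omega)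
  · intro x hx
    exfalso
    apply h
    rw [← hx]
    exact orderOf_dvd_natCard x

section

variable {G : Type*} [Group G] (K L : Subgroup G) (V : Type) [AddCommGroup V] [DistribMulAction K V] (l : ℕ)

/-- the induced module -/
def IndV : AddSubgroup (G → V) where
  carrier := {F | (∀ (g : G) (k : K) (x : L), F (g * k * x) = k⁻¹ • F g) ∧ ∀ g, l • F g = 0}
  zero_mem' := ⟨fun _ k _ => (smul_zero k⁻¹).symm, fun _ => smul_zero l⟩
  add_mem' := by
    rintro F F' ⟨h1, h2⟩ ⟨h3, h4⟩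
    refine ⟨fun g k x => ?_, fun g => ?_⟩
    · rw [Pi.add_apply, Pi.add_apply, h1, h3, smul_add]
    · rw [Pi.add_apply, smul_add, h2, h4, add_zero]
  neg_mem' := by
    rintro F ⟨h1, h2⟩
    refine ⟨fun g k x => ?_, fun g => ?_⟩
    · rw [Pi.neg_apply, Pi.neg_apply, h1, smul_neg]
    · rw [Pi.neg_apply, smul_neg, h2, neg_zero]

theorem mem_IndV (F : G → V) : F ∈ IndV K L V l ↔
    (∀ (g : G) (k : K) (x : L), F (g * k * x) = k⁻¹ • F g) ∧ ∀ g, l • F g = 0 := Iff.rfl

/-- translation -/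
def trV (x : G) : IndV K L V l →+ IndV K L V l where
  toFun F := ⟨fun g => F.1 (x⁻¹ * g), by
    refine ⟨fun g k y => ?_, fun g => F.2.2 _⟩
    have := F.2.1 (x⁻¹ * g) k y
    rw [← this]
    group⟩
  map_zero' := rfl
  map_add' _ _ := rfl

theorem trV_apply (x : G) (F : IndV K L V l) (g : G) : (trV K L V l x F).1 g = F.1 (x⁻¹ * g) := rfl

/-- the representation -/
def repV [Module (ZMod l) (IndV K L V l)] : G →* Module.End (ZMod l) (IndV K L V l) where
  toFun x := (trV K L V l x).toZModLinearMap l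
  map_one' := by
    ext F g
    change F.1 (1⁻¹ * g) = F.1 g
    rw [inv_one, one_mul]
  map_mul' x y := by
    ext F g
    change F.1 ((x * y)⁻¹ * g) = F.1 (y⁻¹ * (x⁻¹ * g))
    rw [mul_inv_rev, mul_assoc]

theorem repV_apply [Module (ZMod l) (IndV K L V l)] (x : G) (F : IndV K L V l) (g : G) :
    (repV K L V l x F).1 g = F.1 (x⁻¹ * g) := rfl

theorem repV_L [Module (ZMod l) (IndV K L V l)] [L.Normal] {x : G} (hx : x ∈ L) : repV K L V l x = 1 := by
  ext F g
  change F.1 (x⁻¹ * g) = F.1 g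
  have h1 : g⁻¹ * x⁻¹ * g ∈ L := by
    have := Subgroup.Normal.conj_mem (inferInstance : L.Normal) x⁻¹ (L.inv_mem hx) g⁻¹
    rwa [inv_inv] at this
  have h2 := F.2.1 g 1 ⟨_, h1⟩
  have h3 : g * ((1 : K) : G) * ((⟨_, h1⟩ : L) : G) = x⁻¹ * g := by
    change g * 1 * (g⁻¹ * x⁻¹ * g) = x⁻¹ * g
    group
  rw [inv_one, one_smul, h3] at h2
  exact h2

theorem repV_norm [Module (ZMod l) (IndV K L V l)] [K.Normal] {p : ℕ}
    (hV : ∀ x : K, orderOf x = p → ∀ v : V, x • v = v → v = 0) {x : G} (hx : x ∈ K) (hxp : orderOf x = p) :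
    ∑ s ∈ Finset.range p, repV K L V l x ^ s = 0 := by
  ext F g
  rw [LinearMap.sum_apply, LinearMap.zero_apply]
  have h0 : ∀ s : ℕ, (repV K L V l x ^ s) F = repV K L V l (x ^ s) F := by
    intro s
    rw [map_pow]
  simp only [h0]
  have hy : g⁻¹ * x * g ∈ K := by
    have := Subgroup.Normal.conj_mem (inferInstance : K.Normal) x hx g⁻¹
    rwa [inv_inv] at this
  set y : K := ⟨g⁻¹ * x * g, hy⟩ with hydef
  have hyo : orderOf y = p := by
    rw [← hxp, ← Subgroup.orderOf_coe]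
    change orderOf (g⁻¹ * x * g) = orderOf x
    have h1 := orderOf_injective (MulAut.conj g⁻¹).toMonoidHom (MulAut.conj g⁻¹).injective x
    rw [← h1]
    congr 1
    change g⁻¹ * x * g = g⁻¹ * x * g⁻¹⁻¹
    rw [inv_inv]
  have h1 : ∀ s : ℕ, (repV K L V l (x ^ s) F).1 g = y ^ s • F.1 g := by
    intro s
    have h2 := F.2.1 g (y ^ s)⁻¹ 1
    have h3 : (((y ^ s)⁻¹ : K) : G) = g⁻¹ * (x ^ s)⁻¹ * g := by
      rw [Subgroup.coe_inv, Subgroup.coe_pow, hydef]
      change ((g⁻¹ * x * g) ^ s)⁻¹ = _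
      have h4 : g⁻¹ * x * g = g⁻¹ * x * g⁻¹⁻¹ := by rw [inv_inv]
      rw [h4, conj_pow, inv_inv]
      group
    have h5 : g * (((y ^ s)⁻¹ : K) : G) * ((1 : L) : G) = (x ^ s)⁻¹ * g := by
      rw [h3]
      change g * (g⁻¹ * (x ^ s)⁻¹ * g) * 1 = (x ^ s)⁻¹ * g
      group
    rw [inv_inv, h5] at h2
    rw [repV_apply]
    exact h2
  have h2 : ((∑ s ∈ Finset.range p, repV K L V l (x ^ s) F : IndV K L V l) : G → V) g =
      ∑ s ∈ Finset.range p, y ^ s • F.1 g := by
    rw [AddSubgroup.val_finsetSum, Finset.sum_apply]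
    exact Finset.sum_congr rfl fun s _ => h1 s
  change ((∑ s ∈ Finset.range p, repV K L V l (x ^ s) F : IndV K L V l) : G → V) g = 0
  rw [h2]
  refine hV y hyo _ ?_
  rw [Finset.smul_sum]
  have h3 : ∀ s : ℕ, y • y ^ s • F.1 g = y ^ (s + 1) • F.1 g := by
    intro s
    rw [smul_smul, ← pow_succ']
  simp only [h3]
  have h4 := Finset.sum_range_succ (fun s => y ^ s • F.1 g) p
  have h5 := Finset.sum_range_succ' (fun s => y ^ s • F.1 g) p
  rw [h4] at h5
  have h6 : y ^ p = 1 := by rw [← hyo]; exact pow_orderOf_eq_one y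
  simp only [h6, pow_zero] at h5
  exact (add_right_cancel h5).symm

/-- the induced module is not zero -/
theorem exists_IndV [K.Normal] [L.Normal] (hKL : K ⊓ L = ⊥) {v : V} (hv : v ≠ 0) (hlv : l • v = 0) :
    ∃ F : IndV K L V l, F ≠ 0 := by
  classical
  have huniq : ∀ (k k' : K) (x x' : L), (k : G) * x = k' * x' → k = k' := by
    intro k k' x x' h
    have h1 : ((k'⁻¹ * k : K) : G) = x' * (x : G)⁻¹ := by
      rw [Subgroup.coe_mul, Subgroup.coe_inv]
      have : (k : G) = k' * x' * (x : G)⁻¹ := by rw [← h]; group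
      rw [this]
      group
    have h2 : ((k'⁻¹ * k : K) : G) ∈ K ⊓ L :=
      ⟨(k'⁻¹ * k).2, by rw [h1]; exact L.mul_mem x'.2 (L.inv_mem x.2)⟩
    rw [hKL, Subgroup.mem_bot] at h2
    have h3 : k'⁻¹ * k = 1 := Subtype.ext h2
    exact (inv_mul_eq_one.1 h3).symm
  set F : G → V := fun g => if h : ∃ k : K, ∃ x : L, g = k * x then (h.choose)⁻¹ • v else 0 with hF
  have hFk : ∀ (k : K) (x : L), F (k * x) = k⁻¹ • v := by
    intro k x
    have h : ∃ k' : K, ∃ x' : L, (k : G) * x = k' * x' := ⟨k, x, rfl⟩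
    rw [hF]
    change (if h : ∃ k' : K, ∃ x' : L, (k : G) * x = k' * x' then (h.choose)⁻¹ • v else 0) = _
    rw [dif_pos h]
    obtain ⟨x', hx'⟩ := h.choose_spec
    rw [← huniq _ _ _ _ hx']
  have hFn : ∀ g : G, (¬ ∃ k : K, ∃ x : L, g = k * x) → F g = 0 := by
    intro g hg
    rw [hF]
    exact dif_neg hg
  refine ⟨⟨F, ?_, ?_⟩, ?_⟩
  · intro g k x
    by_cases hg : ∃ k' : K, ∃ x' : L, g = k' * x'
    · obtain ⟨k', x', rfl⟩ := hg
      have hx'' : (k : G)⁻¹ * x' * k * x ∈ L := by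
        have := Subgroup.Normal.conj_mem (inferInstance : L.Normal) (x' : G) x'.2 (k : G)⁻¹
        rw [inv_inv] at this
        exact L.mul_mem this x.2
      have h1 : (k' : G) * x' * k * x = ((k' * k : K) : G) * ((⟨_, hx''⟩ : L) : G) := by
        change (k' : G) * x' * k * x = (k' * k) * ((k : G)⁻¹ * x' * k * x)
        group
      rw [h1, hFk, hFk, mul_inv_rev, mul_smul]
    · have h2 : ¬ ∃ k' : K, ∃ x' : L, g * k * x = k' * x' := by
        rintro ⟨k', x', h⟩
        apply hg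
        have hx'' : (k : G) * (x' * (x : G)⁻¹) * (k : G)⁻¹ ∈ L :=
          Subgroup.Normal.conj_mem (inferInstance : L.Normal) _ (L.mul_mem x'.2 (L.inv_mem x.2)) (k : G)
        refine ⟨k' * k⁻¹, ⟨_, hx''⟩, ?_⟩
        change g = (k' * (k : G)⁻¹) * ((k : G) * (x' * (x : G)⁻¹) * (k : G)⁻¹)
        have h3 : g = k' * x' * (x : G)⁻¹ * (k : G)⁻¹ := by rw [← h]; group
        rw [h3]
        group
      rw [hFn _ h2, hFn _ hg, smul_zero]
  · intro g
    by_cases hg : ∃ k' : K, ∃ x' : L, g = k' * x'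
    · obtain ⟨k', x', rfl⟩ := hg
      rw [hFk, smul_comm, hlv, smul_zero]
    · rw [hFn _ hg, smul_zero]
  · intro h
    have h1 : F 1 = 0 := congrFun (congrArg Subtype.val h) 1
    have h2 := hFk 1 1
    rw [inv_one, one_smul] at h2
    apply hv
    rw [← h2]
    have : (((1 : K) : G) * ((1 : L) : G)) = 1 := by
      rw [Subgroup.coe_one, Subgroup.coe_one, one_mul]
    rw [this]
    exact h1

end

/-- the representation on a finite module -/
theorem fpf_mod {G : Type*} [Group G] [Finite G] {p l : ℕ} [Fact l.Prime] (hp : p.Prime) (hlp : l ≠ p)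
    (K L : Subgroup G) [K.Normal] [L.Normal] (M : Type*) [AddCommGroup M] [Module (ZMod l) M] [Finite M]
    [Nontrivial M] (ρ : G →* Module.End (ZMod l) M) (hL : ∀ x ∈ L, ρ x = 1)
    (hK : ∀ x ∈ K, orderOf x = p → ∑ s ∈ Finset.range p, ρ x ^ s = 0) (w : MonoidAlgebra ℤ G)
    (haug : sg (Set.univ : Set G) w = 1) (hord : orderOf w = p) (h1 : red K w = 1) (h2 : red L w = 1) :
    False := by
  classical
  have hMf : Module.Finite (ZMod l) M := Module.Finite.of_finite
  let b := Module.finBasis (ZMod l) M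
  have hne : Nonempty (Fin (finrank (ZMod l) M)) := by
    rw [← Fin.pos_iff_nonempty]
    exact Module.finrank_pos
  let e : Module.End (ZMod l) M ≃ₐ[ZMod l] _ := LinearMap.toMatrixAlgEquiv b
  let e' : Module.End (ZMod l) M →* Matrix (Fin (finrank (ZMod l) M)) (Fin (finrank (ZMod l) M)) (ZMod l) :=
    e.toRingEquiv.toMonoidHom
  refine fpf_rep hp hlp K L (e'.comp ρ) ?_ ?_ w haug hord h1 h2
  · intro x hx
    change e (ρ x) = 1
    rw [hL x hx, map_one]
  · intro x hx hxp
    change ∑ s ∈ Finset.range p, (e (ρ x)) ^ s = 0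
    have h3 := congrArg e (hK x hx hxp)
    rw [map_sum, map_zero] at h3
    rw [← h3]
    exact Finset.sum_congr rfl fun s _ => (map_pow e _ s).symm

/-- **no unit of order `p` is trivial modulo `K` and `L` when `K` is fixed point free** -/
theorem fpf_core {G : Type*} [Group G] [Finite G] {p : ℕ} (hp : p.Prime) (K L : Subgroup G) [K.Normal]
    [L.Normal] (hKL : K ⊓ L = ⊥) (hK : FixedPointFree p K) (w : MonoidAlgebra ℤ G)
    (haug : sg (Set.univ : Set G) w = 1) (hord : orderOf w = p) (h1 : red K w = 1) (h2 : red L w = 1) :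
    False := by
  classical
  obtain ⟨V, i1, i2, hfin, hnt, hcop, hfpf⟩ := hK
  obtain ⟨l, hl, hlV⟩ := Nat.exists_prime_and_dvd (Finite.one_lt_card (α := V)).ne'
  have hfl : Fact l.Prime := ⟨hl⟩
  have hlp : l ≠ p := by
    rintro rfl
    have := Nat.Coprime.eq_one_of_dvd hcop.symm hlV
    exact hl.ne_one this
  obtain ⟨v, hv⟩ := exists_prime_addOrderOf_dvd_card' l hlV
  have hv0 : v ≠ 0 := by
    rintro rfl
    rw [addOrderOf_zero] at hv
    exact hl.one_lt.ne hv
  have hlv : l • v = 0 := by rw [← hv]; exact addOrderOf_nsmul_eq_zero v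
  obtain ⟨F, hF⟩ := exists_IndV K L V l hKL hv0 hlv
  let _ : Module (ZMod l) (IndV K L V l) := AddCommGroup.zmodModule fun F => by
    apply Subtype.ext
    funext g
    exact F.2.2 g
  have : Nontrivial (IndV K L V l) := ⟨F, 0, hF⟩
  exact fpf_mod hp hlp K L (IndV K L V l) (repV K L V l) (fun x hx => repV_L K L V l hx)
    (fun x hx hxp => repV_norm K L V l hfpf hx hxp) w haug hord h1 h2

end H65.SP
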