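import Pool.Agent.H65.SP.Gal
import Pool.Agent.H58.SP.Tr

/-!
# Sums of coefficients over elements of order `p ^ a`, `a ≥ 2`, for units of order `p`
-/

set_option autoImplicit false

namespace H65.SP

open MonoidAlgebra H58.SP Module

section

variable {R : Type*} [CommRing R] {G : Type*} [Group G] [Fintype G] [DecidableEq G]

/-- right multiplication -/
def Rm (R : Type*) [CommRing R] {G : Type*} [Group G] [Fintype G] [DecidableEq G] : G →* Matrix G G R where
  toFun x := Matrix.of fun g h => if h = g * x then 1 else 0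
  map_one' := by
    ext g h
    rw [Matrix.of_apply, Matrix.one_apply, mul_one]
    by_cases e : g = h
    · rw [if_pos e.symm, if_pos e]
    · rw [if_neg (fun e' => e e'.symm), if_neg e]
  map_mul' x y := by
    ext g h
    rw [Matrix.mul_apply, Matrix.of_apply, Finset.sum_eq_single (g * x)]
    · rw [Matrix.of_apply, Matrix.of_apply, if_pos rfl, one_mul, mul_assoc]
    · intro k _ hk
      rw [Matrix.of_apply, if_neg hk, zero_mul]
    · intro e
      exact absurd (Finset.mem_univ _) e

theorem Rm_apply (x g h : G) : Rm R x g h = if h = g * x then 1 else 0 := rfl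

theorem Lm_mul_Rm (a : MonoidAlgebra R G) (x g h : G) : (Lm a * Rm R x) g h = a.coeff (g * x * h⁻¹) := by
  rw [Matrix.mul_apply, Finset.sum_eq_single (h * x⁻¹)]
  · rw [Lm_apply, Rm_apply, if_pos (by group), mul_one]
    congr 1
    group
  · intro k _ hk
    rw [Rm_apply, if_neg (fun e => hk (by rw [e]; group)), mul_zero]
  · intro e
    exact absurd (Finset.mem_univ _) e

theorem Rm_mul_Lm (a : MonoidAlgebra R G) (x g h : G) : (Rm R x * Lm a) g h = a.coeff (g * x * h⁻¹) := by
  rw [Matrix.mul_apply, Finset.sum_eq_single (g * x)]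
  · rw [Lm_apply, Rm_apply, if_pos rfl, one_mul]
  · intro k _ hk
    rw [Rm_apply, if_neg hk, zero_mul]
  · intro e
    exact absurd (Finset.mem_univ _) e

theorem Lm_comm (a : MonoidAlgebra R G) (x : G) : Commute (Lm a) (Rm R x) := by
  ext g h
  rw [Lm_mul_Rm, Rm_mul_Lm]

theorem trace_LR (a : MonoidAlgebra R G) (x : G) : (Lm a * Rm R x).trace = ∑ g, a.coeff (g * x * g⁻¹) := by
  rw [Matrix.trace]
  refine Finset.sum_congr rfl fun g _ => ?_
  rw [Matrix.diag_apply, Lm_mul_Rm]

theorem trace_Rm (x : G) (hx : x ≠ 1) : (Rm R x).trace = 0 := by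
  rw [Matrix.trace]
  refine Finset.sum_eq_zero fun g _ => ?_
  rw [Matrix.diag_apply, Rm_apply, if_neg]
  intro h
  exact hx (by simpa using h)

theorem LR_pow (a : MonoidAlgebra R G) (x : G) (j : ℕ) :
    (Lm a * Rm R x) ^ j = Lm (a ^ j) * Rm R (x ^ j) := by
  rw [(Lm_comm a x).mul_pow, map_pow, map_pow]

end

section

variable {K : Type*} [Field K] {G : Type*} [Group G]

/-- functions which are invariant under a group of order `p` are norms -/
theorem exists_norm {p : ℕ} (hp : 0 < p) {y : G} (hy : orderOf y = p) (v : G → K) (hv : ∀ g, v (g * y) = v g) :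
    ∃ u : G → K, ∀ g, ∑ i ∈ Finset.range p, u (g * y ^ i) = v g := by
  classical
  have hvi : ∀ g (i : ℕ), v (g * y ^ i) = v g := by
    intro g i
    induction i with
    | zero => rw [pow_zero, mul_one]
    | succ i ih => rw [pow_succ, ← mul_assoc, hv, ih]
  refine ⟨fun g => if g = Quotient.out (QuotientGroup.mk g : G ⧸ Subgroup.zpowers y) then v g else 0, ?_⟩
  intro g
  have h1 : (QuotientGroup.mk (Quotient.out (QuotientGroup.mk g : G ⧸ Subgroup.zpowers y)) :
      G ⧸ Subgroup.zpowers y) = QuotientGroup.mk g := Quotient.out_eq' _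
  have h2 := QuotientGroup.eq.1 h1.symm
  have hfin : IsOfFinOrder y := orderOf_pos_iff.1 (by rw [hy]; exact hp)
  obtain ⟨i0, hi0, hi⟩ := Finset.mem_image.1 (hfin.mem_zpowers_iff_mem_range_orderOf.1 h2)
  rw [hy] at hi0
  have h3 : g * y ^ i0 = Quotient.out (QuotientGroup.mk g : G ⧸ Subgroup.zpowers y) := by
    rw [hi, mul_inv_cancel_left]
  have h4 : ∀ i : ℕ, (QuotientGroup.mk (g * y ^ i) : G ⧸ Subgroup.zpowers y) = QuotientGroup.mk g := by
    intro i
    rw [QuotientGroup.mk_mul_of_mem]
    exact (Subgroup.zpowers y).pow_mem (Subgroup.mem_zpowers y) i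
  rw [Finset.sum_eq_single i0]
  · beta_reduce
    rw [h4 i0, if_pos h3, hvi]
  · intro i hi' hne
    beta_reduce
    rw [h4 i, if_neg]
    intro h5
    apply hne
    rw [← h3] at h5
    have h6 := mul_left_cancel h5
    have h7 := Finset.mem_range.1 hi'
    have h8 := Finset.mem_range.1 hi0
    exact pow_injOn_Iio_orderOf (by rw [hy]; exact h7) (by rw [hy]; exact h8) h6
  · intro h
    exact absurd hi0 h

end

section Lin

variable {K V : Type*} [Field K] [AddCommGroup V] [Module K V] [FiniteDimensional K V]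

/-- the drops of the ranks of the powers -/
theorem tele (T : Module.End K V) (N : ℕ) (h : LinearMap.ker T ≤ LinearMap.range (T ^ N)) :
    finrank K (LinearMap.range (T ^ N)) + N * finrank K (LinearMap.ker T) = finrank K V := by
  have hmono : ∀ i j : ℕ, i ≤ j → LinearMap.range (T ^ j) ≤ LinearMap.range (T ^ i) := by
    intro i j hij
    obtain ⟨k, rfl⟩ := Nat.exists_eq_add_of_le hij
    rw [pow_add]
    exact LinearMap.range_comp_le_range _ _
  have key : ∀ i : ℕ, i ≤ N →
      finrank K (LinearMap.range (T ^ i)) + i * finrank K (LinearMap.ker T) = finrank K V := by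
    intro i
    induction i with
    | zero =>
      intro _
      rw [pow_zero, zero_mul, add_zero]
      have h1 : LinearMap.range (1 : Module.End K V) = ⊤ := LinearMap.range_id
      rw [h1, finrank_top]
    | succ i ih =>
      intro hi
      have h1 := ih (by omega)
      have h2 := finrank_map T (LinearMap.range (T ^ i))
      have h3 : (LinearMap.range (T ^ i)).map T = LinearMap.range (T ^ (i + 1)) := by
        rw [pow_succ', ← LinearMap.range_comp]
        rfl
      have h4 : LinearMap.range (T ^ i) ⊓ LinearMap.ker T = LinearMap.ker T :=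
        inf_eq_right.2 (h.trans (hmono i N (by omega)))
      rw [h3, h4] at h2
      rw [add_mul, one_mul]
      omega
  exact key N le_rfl

/-- kernels and ranges -/
theorem card_ker {p q : ℕ} (hp : 2 ≤ p) (hq : 0 < q) (T : Module.End K V)
    (h1 : LinearMap.ker (T ^ q) ≤ LinearMap.range (T ^ (q * (p - 1)))) (h2 : T ^ (q * p) = 0) :
    p * q * finrank K (LinearMap.ker T) = finrank K V := by
  obtain ⟨m, rfl⟩ : ∃ m, p = m + 1 := ⟨p - 1, by omega⟩
  rw [Nat.add_sub_cancel] at h1
  have h3 : LinearMap.ker (T ^ q) ≤ LinearMap.range ((T ^ q) ^ m) := by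
    rw [← pow_mul]
    exact h1
  have h4 := tele (T ^ q) m h3
  rw [← pow_mul] at h4
  have h5 : LinearMap.range (T ^ (q * m)) ≤ LinearMap.ker (T ^ q) := by
    rintro _ ⟨x, rfl⟩
    rw [LinearMap.mem_ker, ← Module.End.mul_apply, ← pow_add]
    have e : q + q * m = q * (m + 1) := by ring
    rw [e, h2, LinearMap.zero_apply]
  have h6 : LinearMap.ker (T ^ q) = LinearMap.range (T ^ (q * m)) := le_antisymm h1 h5
  rw [h6] at h4
  have h7 : LinearMap.ker T ≤ LinearMap.ker (T ^ q) := by
    intro x hx
    obtain ⟨q', rfl⟩ : ∃ q', q = q' + 1 := ⟨q - 1, by omega⟩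
    rw [LinearMap.mem_ker] at hx ⊢
    rw [pow_succ, Module.End.mul_apply, hx, map_zero]
  have h8 := tele T (q * m) (h7.trans h1)
  have h9 : 1 ≤ m := by omega
  have h10 : m * ((m + 1) * q * finrank K (LinearMap.ker T)) = m * finrank K V := by
    have e1 : m * ((m + 1) * q * finrank K (LinearMap.ker T)) =
        (m + 1) * (q * m * finrank K (LinearMap.ker T)) := by ring
    have e2 : (m + 1) * finrank K (LinearMap.range (T ^ (q * m))) = finrank K V := by
      rw [add_mul, one_mul, add_comm]
      exact h4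
    have e3 : (m + 1) * (finrank K (LinearMap.range (T ^ (q * m))) + q * m * finrank K (LinearMap.ker T)) =
        (m + 1) * finrank K V := by rw [h8]
    rw [mul_add, e2] at e3
    rw [e1]
    have e4 : (m + 1) * finrank K V = m * finrank K V + finrank K V := by ring
    omega
  exact Nat.eq_of_mul_eq_mul_left (by omega) h10

end Lin

section Mat

variable {p : ℕ} [hp : Fact p.Prime] {G : Type*} [Group G] [Fintype G] [DecidableEq G]

theorem geom_char {A : Type*} [Ring A] [CharP A p] (Y : A) :
    ∑ i ∈ Finset.range p, (1 + Y) ^ i = Y ^ (p - 1) := by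
  rw [geom_prime Y hp.out]
  have : ∀ j, (p * bq p j) • Y ^ j = 0 := by
    intro j
    rw [nsmul_eq_mul, Nat.cast_mul, CharP.cast_eq_zero, zero_mul, zero_mul]
  simp only [this, Finset.sum_const_zero, zero_add]

/-- the kernel of `X - 1` over the field with `p` elements -/
theorem ker_LR (w : MonoidAlgebra (ZMod p) G) (x : G) (a : ℕ) (hx : orderOf x = p ^ (a + 2)) (hw : w ^ p = 1) :
    p ^ (a + 2) * finrank (ZMod p) (LinearMap.ker (Matrix.toLinAlgEquiv' (Lm w * Rm (ZMod p) x) - 1 :
      Module.End (ZMod p) (G → ZMod p))) = Fintype.card G := by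
  set X : Matrix G G (ZMod p) := Lm w * Rm (ZMod p) x with hX
  have hne : Nonempty G := ⟨1⟩
  have hch : CharP (Matrix G G (ZMod p)) p := inferInstance
  set y : G := x ^ p ^ (a + 1) with hy
  have hyo : orderOf y = p := by
    rw [hy, orderOf_pow_of_dvd (pow_ne_zero _ hp.out.ne_zero) (by rw [hx]; exact pow_dvd_pow p (by omega)), hx]
    rw [show a + 2 = (a + 1) + 1 from rfl, pow_succ p (a + 1)]
    exact Nat.mul_div_cancel_left p (pow_pos hp.out.pos _)
  have h1 : (X - 1) ^ p ^ (a + 1) = Rm (ZMod p) y - 1 := by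
    rw [sub_pow_char_pow_of_commute p (a + 1) (Commute.one_right X), one_pow, hX, LR_pow]
    have : w ^ p ^ (a + 1) = 1 := by rw [pow_succ', pow_mul, hw, one_pow]
    rw [this, map_one, one_mul]
  have h2 : (X - 1) ^ (p ^ (a + 1) * (p - 1)) = ∑ i ∈ Finset.range p, Rm (ZMod p) (y ^ i) := by
    rw [pow_mul, h1, ← geom_char (p := p)]
    refine Finset.sum_congr rfl fun i _ => ?_
    rw [add_sub_cancel]
    exact (map_pow (Rm (ZMod p)) y i).symm
  have h3 : (X - 1) ^ (p ^ (a + 1) * p) = 0 := by
    rw [pow_mul, h1, sub_pow_char_of_commute p (Commute.one_right _), one_pow, ← map_pow]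
    have : y ^ p = 1 := by
      conv_lhs => rw [← hyo]
      exact pow_orderOf_eq_one y
    rw [this, map_one, sub_self]
  have e1 : (Matrix.toLinAlgEquiv' X - 1 : Module.End (ZMod p) (G → ZMod p)) =
      Matrix.toLinAlgEquiv' (X - 1) := by rw [map_sub, map_one]
  rw [e1]
  have h4 := card_ker (K := ZMod p) (V := G → ZMod p) (p := p) (q := p ^ (a + 1)) hp.out.two_le
    (pow_pos hp.out.pos _) (Matrix.toLinAlgEquiv' (X - 1)) ?_ (by rw [← map_pow, h3, map_zero])
  · rw [finrank_fintype_fun_eq_card] at h4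
    rw [← h4]
    ring
  · rw [← map_pow, ← map_pow, h1, h2]
    intro v hv
    rw [LinearMap.mem_ker, map_sub, map_one, LinearMap.sub_apply, Module.End.one_apply, sub_eq_zero] at hv
    have hR : ∀ (z : G) (u : G → ZMod p) (g : G), Matrix.toLinAlgEquiv' (Rm (ZMod p) z) u g = u (g * z) := by
      intro z u g
      rw [Matrix.toLinAlgEquiv'_apply, Matrix.mulVec, dotProduct, Finset.sum_eq_single (g * z)]
      · rw [Rm_apply, if_pos rfl, one_mul]
      · intro k _ hk
        rw [Rm_apply, if_neg hk, zero_mul]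
      · intro e
        exact absurd (Finset.mem_univ _) e
    obtain ⟨u, hu⟩ := exists_norm hp.out.pos hyo v (fun g => by rw [← hR y v g, hv])
    refine ⟨u, ?_⟩
    funext g
    rw [map_sum, LinearMap.sum_apply, Finset.sum_apply, ← hu g]
    exact Finset.sum_congr rfl fun i _ => hR _ _ _

/-- **traces are not positive** -/
theorem trace_LR_le (w : MonoidAlgebra ℤ G) (x : G) (a : ℕ) (hx : orderOf x = p ^ (a + 2)) (hw : w ^ p = 1) :
    (Lm w * Rm ℤ x).trace ≤ 0 := by
  set X : Matrix G G ℤ := Lm w * Rm ℤ x with hX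
  set D : ℕ := p ^ (a + 2) with hD
  have hD0 : 0 < D := pow_pos hp.out.pos _
  have hpD : p ∣ D := dvd_pow_self p (by omega)
  have hXD : X ^ D = 1 := by
    obtain ⟨c, hc⟩ := hpD
    have h1 : w ^ D = 1 := by rw [hc, pow_mul, hw, one_pow]
    have h2 : x ^ D = 1 := by rw [← hx]; exact pow_orderOf_eq_one x
    rw [hX, LR_pow, h1, h2, map_one, map_one, one_mul]
  set S : Matrix G G ℤ := ∑ i ∈ Finset.range D, X ^ i with hS
  have hSS : S * S = (D : ℤ) • S := by
    rw [hS, geom_idem hXD, natCast_zsmul]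
  have hDQ : (D : ℚ) ≠ 0 := by exact_mod_cast hD0.ne'
  have hQS : rq S * rq S = (D : ℚ) • rq S := by
    have h1 := congrArg (Int.castRingHom ℚ).mapMatrix hSS
    rw [map_mul, map_zsmul] at h1
    have h2 : (D : ℚ) • rq S = ((D : ℤ) : ℚ) • rq S := by push_cast; rfl
    rw [h2, Int.cast_smul_eq_zsmul]
    exact h1
  -- the rank of the norm
  have hr1 : (rq S).rank + (rq (X - 1)).rank ≤ Fintype.card G := by
    have h1 := LinearMap.finrank_range_add_finrank_ker (rq (X - 1)).mulVecLin
    rw [finrank_fintype_fun_eq_card] at h1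
    have h0 : (X - 1) * S = 0 := by
      have h2 := mul_geom_sum X D
      rw [hXD, sub_self] at h2
      exact h2
    have h2 : LinearMap.range (rq S).mulVecLin ≤ LinearMap.ker (rq (X - 1)).mulVecLin := by
      rintro v ⟨u, rfl⟩
      rw [LinearMap.mem_ker, ← LinearMap.comp_apply, ← Matrix.mulVecLin_mul]
      have h3 : rq (X - 1) * rq S = 0 := by
        have h4 := congrArg (Int.castRingHom ℚ).mapMatrix h0
        rw [map_mul, map_zero] at h4
        exact h4
      rw [h3, Matrix.mulVecLin_zero, LinearMap.zero_apply]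
    have h3 := Submodule.finrank_mono h2
    unfold Matrix.rank
    omega
  have hr2 : (rm (p := p) (X - 1)).rank ≤ (rq (X - 1)).rank :=
    rank_red_le (Int.castRingHom (ZMod p)) ZMod.intCast_surjective (Int.castRingHom ℚ) Int.cast_injective _
  have hr3 : D * Fintype.card G = D * (rm (p := p) (X - 1)).rank + Fintype.card G := by
    have h1 := LinearMap.finrank_range_add_finrank_ker (rm (p := p) (X - 1)).mulVecLin
    rw [finrank_fintype_fun_eq_card] at h1
    have h2 : rm (p := p) (X - 1) = Lm (MonoidAlgebra.mapRingHom G (Int.castRingHom (ZMod p)) w) *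
        Rm (ZMod p) x - 1 := by
      have h3 : rm (p := p) (Lm w) = Lm (MonoidAlgebra.mapRingHom G (Int.castRingHom (ZMod p)) w) := by
        ext g h
        rfl
      have h4 : rm (p := p) (Rm ℤ x) = Rm (ZMod p) x := by
        ext g h
        change (Int.castRingHom (ZMod p)) (Rm ℤ x g h) = Rm (ZMod p) x g h
        rw [Rm_apply, Rm_apply]
        split_ifs
        · exact map_one _
        · exact map_zero _
      have h5 : rm (p := p) (X - 1) = rm (p := p) (Lm w) * rm (p := p) (Rm ℤ x) - 1 := by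
        change (Int.castRingHom (ZMod p)).mapMatrix (X - 1) =
          (Int.castRingHom (ZMod p)).mapMatrix (Lm w) * (Int.castRingHom (ZMod p)).mapMatrix (Rm ℤ x) - 1
        rw [map_sub, map_one, hX, map_mul]
      rw [h5, h3, h4]
    have h3 := ker_LR (MonoidAlgebra.mapRingHom G (Int.castRingHom (ZMod p)) w) x a hx
      (by rw [← map_pow, hw, map_one])
    have h4 : LinearMap.ker (rm (p := p) (X - 1)).mulVecLin = LinearMap.ker (Matrix.toLinAlgEquiv'
        (Lm (MonoidAlgebra.mapRingHom G (Int.castRingHom (ZMod p)) w) * Rm (ZMod p) x) - 1 :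
      Module.End (ZMod p) (G → ZMod p)) := by
      rw [h2]
      have h5 : (Matrix.toLinAlgEquiv'
        (Lm (MonoidAlgebra.mapRingHom G (Int.castRingHom (ZMod p)) w) * Rm (ZMod p) x) - 1 :
        Module.End (ZMod p) (G → ZMod p)) = Matrix.toLinAlgEquiv'
        (Lm (MonoidAlgebra.mapRingHom G (Int.castRingHom (ZMod p)) w) * Rm (ZMod p) x - 1) := by
        rw [map_sub, map_one]
      rw [h5]
      rfl
    rw [h4] at h1
    rw [← hD] at h3
    rw [← h1, mul_add, h3]
    unfold Matrix.rank
    rw [h1]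
  have hr4 : D * (rq S).rank ≤ Fintype.card G := by
    have h1 := Nat.mul_le_mul_left D hr1
    have h2 := Nat.mul_le_mul_left D hr2
    rw [mul_add] at h1
    omega
  have htS : S.trace ≤ Fintype.card G := by
    have h1 := trace_scaled (rq S) (D : ℚ) hDQ hQS
    have h2 : ((S.trace : ℤ) : ℚ) = (rq S).trace := by
      simp [Matrix.trace]
    have h3 : ((S.trace : ℤ) : ℚ) ≤ ((Fintype.card G : ℤ) : ℚ) := by
      rw [h2, h1]
      exact_mod_cast hr4
    exact_mod_cast h3
  -- the trace of the norm
  have htj : ∀ j : ℕ, ¬ p ∣ j → (X ^ j).trace = X.trace := by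
    intro j hj
    refine trace_pow_coprime X hD0 hXD ?_
    exact Nat.Coprime.pow_right _ ((Nat.Prime.coprime_iff_not_dvd hp.out).2 hj).symm
  have htj' : ∀ j : ℕ, p ∣ j → 0 < j → j < D → (X ^ j).trace = 0 := by
    intro j hj hj0 hjD
    obtain ⟨c, rfl⟩ := hj
    rw [hX, LR_pow, pow_mul w, hw, one_pow, map_one, one_mul]
    refine trace_Rm _ ?_
    intro h
    have h1 := orderOf_dvd_of_pow_eq_one h
    rw [hx] at h1
    have h2 := Nat.le_of_dvd hj0 h1
    omega
  have hsum : S.trace = Fintype.card G + ((Finset.range D).filter (fun j => ¬ p ∣ j)).card * X.trace := by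
    rw [hS, Matrix.trace_sum, ← Finset.sum_filter_add_sum_filter_not (Finset.range D) (fun j => p ∣ j)]
    congr 1
    · rw [Finset.sum_eq_single 0]
      · rw [pow_zero, Matrix.trace_one]
      · intro j hj hj0
        rw [Finset.mem_filter, Finset.mem_range] at hj
        exact htj' j hj.2 (Nat.pos_of_ne_zero hj0) hj.1
      · intro h
        exact absurd (Finset.mem_filter.2 ⟨Finset.mem_range.2 hD0, dvd_zero p⟩) h
    · rw [Finset.sum_congr rfl (fun j hj => htj j (Finset.mem_filter.1 hj).2), Finset.sum_const,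
        nsmul_eq_mul]
  have hcard : 0 < ((Finset.range D).filter (fun j => ¬ p ∣ j)).card := by
    rw [Finset.card_pos]
    refine ⟨1, Finset.mem_filter.2 ⟨Finset.mem_range.2 ?_, ?_⟩⟩
    · exact Nat.one_lt_pow (by omega) hp.out.one_lt
    · rw [Nat.dvd_one]
      exact hp.out.ne_one
  by_contra hneg
  have h1 : (1 : ℤ) ≤ X.trace := by omega
  have h2 : (1 : ℤ) ≤ ((Finset.range D).filter (fun j => ¬ p ∣ j)).card := by exact_mod_cast hcard
  nlinarith

/-- sums of coefficients over elements of order `p ^ a`, `a ≥ 2`, are not positive -/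
theorem sg_neg {S : Set G} (hS : CI S) (w : MonoidAlgebra ℤ G) (hw : w ^ p = 1)
    (hSp : ∀ x ∈ S, ∃ a : ℕ, orderOf x = p ^ (a + 2)) : sg S w ≤ 0 := by
  classical
  have h1 : ∑ x, (if x ∈ S then (Lm w * Rm ℤ x).trace else 0) = Fintype.card G * sg S w := by
    have h2 : ∀ x, (if x ∈ S then (Lm w * Rm ℤ x).trace else 0) =
        ∑ g, if x ∈ S then w.coeff (g * x * g⁻¹) else 0 := by
      intro x
      split_ifs
      · exact trace_LR w x
      · rw [Finset.sum_const_zero]
    rw [Finset.sum_congr rfl (fun x _ => h2 x), Finset.sum_comm]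
    have h3 : ∀ g : G, ∑ x, (if x ∈ S then w.coeff (g * x * g⁻¹) else 0) = sg S w := by
      intro g
      rw [sg_eq_sum]
      refine Fintype.sum_equiv (MulAut.conj g).toEquiv _ _ fun x => ?_
      change _ = if g * x * g⁻¹ ∈ S then w.coeff (g * x * g⁻¹) else 0
      have e : g * x * g⁻¹ ∈ S ↔ x ∈ S := by
        constructor
        · intro h
          have := hS g⁻¹ _ h
          have e : g⁻¹ * (g * x * g⁻¹) * g⁻¹⁻¹ = x := by group
          rwa [e] at this
        · exact hS g x
      simp only [e]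
    rw [Finset.sum_congr rfl (fun g _ => h3 g), Finset.sum_const, Finset.card_univ, nsmul_eq_mul]
  have h2 : ∑ x, (if x ∈ S then (Lm w * Rm ℤ x).trace else 0) ≤ 0 := by
    refine Finset.sum_nonpos fun x _ => ?_
    split_ifs with h
    · obtain ⟨a, ha⟩ := hSp x h
      exact trace_LR_le w x a ha hw
    · exact le_rfl
  rw [h1] at h2
  have h3 : (0 : ℤ) < Fintype.card G := by exact_mod_cast Fintype.card_pos_iff.2 ⟨(1 : G)⟩
  by_contra h4
  have h5 : 1 ≤ sg S w := by omega
  nlinarith

end Mat

end H65.SP
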