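import Pool.Agent.H65.SP.Chain

/-!
# Orders of torsion units and two homomorphisms whose kernels intersect trivially
-/

set_option autoImplicit false

namespace H65.SP

open MonoidAlgebra H58.SP

universe u v w

/-- **the order of a torsion unit is the least common multiple of the orders of its images under two
homomorphisms whose kernels `K`, `L` intersect trivially, when for every prime `p` one of `K`, `L` is
`p`-solvable** -/
theorem orderOf_eq_lcm {G : Type u} {A : Type v} {B : Type w} [Group G] [Finite G] [Group A] [Group B]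
    (f : G →* A) (g : G →* B) (hfg : f.ker ⊓ g.ker = ⊥)
    (hps : ∀ p : ℕ, p.Prime → PSolvableIn p f.ker ∨ PSolvableIn p g.ker)
    (u : MonoidAlgebra ℤ G) (haug : sg (Set.univ : Set G) u = 1) (hfin : 0 < orderOf u) :
    orderOf u = Nat.lcm (orderOf (mp f u)) (orderOf (mp g u)) := by
  have h1 : Nat.lcm (orderOf (mp f u)) (orderOf (mp g u)) ∣ orderOf u :=
    Nat.lcm_dvd (orderOf_mp_dvd f u) (orderOf_mp_dvd g u)
  by_contra hne
  obtain ⟨m, hm⟩ := h1
  have hm1 : m ≠ 1 := by
    rintro rfl
    exact hne (by rw [hm, mul_one])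
  obtain ⟨p, hp, m', rfl⟩ := Nat.exists_prime_and_dvd hm1
  have hpos : 0 < (Nat.lcm (orderOf (mp f u)) (orderOf (mp g u))) * m' := by
    rw [Nat.pos_iff_ne_zero]
    intro h
    rw [hm, mul_comm p, ← mul_assoc, h, zero_mul] at hfin
    exact lt_irrefl _ hfin
  have hord : orderOf (u ^ ((Nat.lcm (orderOf (mp f u)) (orderOf (mp g u))) * m')) = p := by
    rw [orderOf_pow_of_dvd hpos.ne' ⟨p, by rw [hm]; ring⟩]
    have h2 : orderOf u = p * (Nat.lcm (orderOf (mp f u)) (orderOf (mp g u)) * m') := by
      rw [hm]; ring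
    rw [h2]
    exact Nat.mul_div_cancel _ hpos
  have haug' : sg (Set.univ : Set G) (u ^ ((Nat.lcm (orderOf (mp f u)) (orderOf (mp g u))) * m')) = 1 :=
    aug_pow u haug _
  have hf : mp f (u ^ ((Nat.lcm (orderOf (mp f u)) (orderOf (mp g u))) * m')) = 1 := by
    rw [map_pow, ← orderOf_dvd_iff_pow_eq_one]
    exact (Nat.dvd_lcm_left _ _).mul_right _
  have hg : mp g (u ^ ((Nat.lcm (orderOf (mp f u)) (orderOf (mp g u))) * m')) = 1 := by
    rw [map_pow, ← orderOf_dvd_iff_pow_eq_one]
    exact (Nat.dvd_lcm_right _ _).mul_right _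
  rcases hps p hp with h | h
  · exact no_two hp f.ker g.ker h hfg _ haug' hord (red_eq_one le_rfl hf) (red_eq_one le_rfl hg)
  · exact no_two hp g.ker f.ker h (by rw [inf_comm]; exact hfg) _ haug' hord (red_eq_one le_rfl hg)
      (red_eq_one le_rfl hf)

end H65.SP
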