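import Pool.Agent.H65.SP.Key

/-!
# The case of a normal `p`-subgroup and of a normal subgroup of order prime to `p`
-/

set_option autoImplicit false

namespace H65.SP

open MonoidAlgebra H58.SP

universe u

theorem red_bot {G : Type*} [Group G] {w : MonoidAlgebra ℤ G} (N : Subgroup G) [N.Normal] (hN : N = ⊥)
    (hw : red N w = 1) : w = 1 := by
  refine mp_injective (f := QuotientGroup.mk' N) ?_ (by rw [← red_eq, hw, map_one])
  rw [← MonoidHom.ker_eq_bot_iff, QuotientGroup.ker_mk', hN]

/-- a normal `p`-subgroup -/
theorem no_pgroup {p : ℕ} (hp : p.Prime) (n : ℕ) : ∀ (G : Type u) [Group G] [Finite G] (M L : Subgroup G)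
    [M.Normal] [L.Normal], IsPGroup p M → Nat.card M ≤ n → M ⊓ L = ⊥ → ∀ w : MonoidAlgebra ℤ G,
    sg (Set.univ : Set G) w = 1 → orderOf w = p → red M w = 1 → red L w = 1 → False := by
  induction n with
  | zero =>
    intro G _ _ M L _ _ _ hcard
    have : 0 < Nat.card M := Nat.card_pos
    omega
  | succ n ih =>
    intro G _ _ M L _ _ hM hcard hML w haug hord h1 h2
    by_cases hMb : M = ⊥
    · have h3 := red_bot M hMb h1
      rw [h3, orderOf_one] at hord
      exact hp.one_lt.ne hord
    · have hE : omegaZ M p ≠ ⊥ := omegaZ_ne_bot M hp hM hMb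
      have hEM : omegaZ M p ≤ M := fun x hx => hx.1
      by_cases hw : red (omegaZ M p) w = 1
      · refine key hp (omegaZ M p) L ?_ ?_ ?_ w haug hord hw h2
        · exact fun a ha b hb => ha.2.1 b hb.1
        · exact fun a ha => ha.2.2
        · rw [eq_bot_iff, ← hML]
          exact inf_le_inf_right L hEM
      · have : Fact p.Prime := ⟨hp⟩
        have hordw : orderOf (red (omegaZ M p) w) = p := by
          refine orderOf_eq_prime ?_ hw
          rw [← map_pow, ← hord, pow_orderOf_eq_one, map_one]
        have hMn : (M.map (QuotientGroup.mk' (omegaZ M p))).Normal :=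
          Subgroup.Normal.map inferInstance _ (QuotientGroup.mk'_surjective _)
        have hLn : (L.map (QuotientGroup.mk' (omegaZ M p))).Normal :=
          Subgroup.Normal.map inferInstance _ (QuotientGroup.mk'_surjective _)
        refine ih (G ⧸ omegaZ M p) (M.map (QuotientGroup.mk' (omegaZ M p)))
          (L.map (QuotientGroup.mk' (omegaZ M p))) (hM.map _) ?_ ?_ (red (omegaZ M p) w)
          (by rw [aug_red, haug]) hordw ?_ ?_
        · have h3 : Nat.card (M.map (QuotientGroup.mk' (omegaZ M p))) < Nat.card M := by
            have h1 : (⊥ : Subgroup G).relIndex (omegaZ M p) * (omegaZ M p).relIndex M =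
                (⊥ : Subgroup G).relIndex M := Subgroup.relIndex_mul_relIndex _ _ _ bot_le hEM
            rw [Subgroup.relIndex_bot_left, Subgroup.relIndex_bot_left, ← card_map_mk] at h1
            have h2 : 1 < Nat.card (omegaZ M p) := (Subgroup.one_lt_card_iff_ne_bot _).2 hE
            have h3 := Nat.card_pos (α := M)
            have h4 : 0 < Nat.card (M.map (QuotientGroup.mk' (omegaZ M p))) := Nat.card_pos
            nlinarith
          omega
        · rw [eq_bot_iff]
          rintro y ⟨⟨m, hm, rfl⟩, ⟨l, hl, hlm⟩⟩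
          rw [Subgroup.mem_bot]
          have h3 : m⁻¹ * l ∈ omegaZ M p := by
            rw [← QuotientGroup.eq]
            exact hlm.symm
          have h4 : l ∈ M ⊓ L := by
            refine Subgroup.mem_inf.2 ⟨?_, hl⟩
            have := M.mul_mem hm (hEM h3)
            rwa [mul_inv_cancel_left] at this
          rw [hML, Subgroup.mem_bot] at h4
          rw [← hlm, h4, map_one]
        · rw [red_eq, red_eq, mp_comp]
          refine mp_eq_one (M := M) ?_ h1
          intro x hx
          rw [MonoidHom.mem_ker, MonoidHom.comp_apply, QuotientGroup.mk'_apply, QuotientGroup.eq_one_iff]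
          exact ⟨x, hx, rfl⟩
        · rw [red_eq, red_eq, mp_comp]
          refine mp_eq_one (M := L) ?_ h2
          intro x hx
          rw [MonoidHom.mem_ker, MonoidHom.comp_apply, QuotientGroup.mk'_apply, QuotientGroup.eq_one_iff]
          exact ⟨x, hx, rfl⟩

/-- one step -/
theorem no_step {p : ℕ} (hp : p.Prime) {G : Type u} [Group G] [Finite G] (M L : Subgroup G)
    [M.Normal] [L.Normal] (hM : (∃ e : ℕ, Nat.card M = p ^ e) ∨ ¬ p ∣ Nat.card M) (hML : M ⊓ L = ⊥)
    (w : MonoidAlgebra ℤ G) (haug : sg (Set.univ : Set G) w = 1) (hord : orderOf w = p)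
    (h1 : red M w = 1) (h2 : red L w = 1) : False := by
  rcases hM with ⟨e, he⟩ | hM
  · have : Fact p.Prime := ⟨hp⟩
    exact no_pgroup hp (Nat.card M) G M L (IsPGroup.of_card he) le_rfl hML w haug hord h1 h2
  · exact hM (kernel M w haug p hp hord h1)

end H65.SP
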