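import Pool.Agent.H65.SP.SLt

/-!
# Direct products
-/

set_option autoImplicit false

namespace H65.SP

open MonoidAlgebra H58.SP

universe u v

theorem FreeFactor.map {H : Type v} {G : Type u} [Group H] [Group G] {p : ℕ} {A B : Subgroup H}
    (h : FreeFactor p A B) (f : H →* G) (hf : Function.Injective f) : FreeFactor p (A.map f) (B.map f) := by
  obtain ⟨V, i1, i2, h1, h2, h3, h4, h5⟩ := h
  let e : B ≃* B.map f := B.equivMapOfInjective f hf
  have he : ∀ y : B.map f, f (e.symm y : H) = y := by
    intro y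
    have h6 := Subgroup.coe_equivMapOfInjective_apply B f hf (e.symm y)
    rw [← h6]
    exact congrArg Subtype.val (e.apply_symm_apply y)
  have hmem : ∀ y : B.map f, (y : G) ∈ A.map f ↔ (e.symm y : H) ∈ A := by
    intro y
    rw [← he y]
    exact Subgroup.mem_map_iff_mem hf
  refine ⟨V, i1, DistribMulAction.compHom V e.symm.toMonoidHom, h1, h2, h3, ?_, ?_⟩
  · intro y hy v
    exact h4 (e.symm y) ((hmem y).1 hy) v
  · intro y hy hyp v hv
    refine h5 (e.symm y) (fun h6 => hy ((hmem y).2 h6)) ?_ v hv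
    rw [← he y, ← map_pow] at hyp
    exact (Subgroup.mem_map_iff_mem hf).1 hyp

/-- images under injective homomorphisms which map normal subgroups to normal subgroups -/
theorem TameIn.map {H : Type v} {G : Type u} [Group H] [Group G] {p : ℕ} {M : Subgroup H} (h : TameIn p M)
    (f : H →* G) (hf : Function.Injective f) (hnor : ∀ N : Subgroup H, N.Normal → (N.map f).Normal) :
    TameIn p (M.map f) := by
  obtain ⟨k, N, h0, hk, hn, hle, hrel⟩ := h
  refine ⟨k, fun i => (N i).map f, ?_, ?_, fun i => hnor _ (hn i), fun i hi => Subgroup.map_mono (hle i hi), ?_⟩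
  · change (N 0).map f = ⊥
    rw [h0, Subgroup.map_bot]
  · change (N k).map f = M.map f
    rw [hk]
  · intro i hi
    change (∃ e : ℕ, ((N i).map f).relIndex ((N (i + 1)).map f) = p ^ e) ∨
      FreeFactor p ((N i).map f) ((N (i + 1)).map f)
    rw [Subgroup.relIndex_map_map_of_injective _ _ hf]
    rcases hrel i hi with h | h
    · exact Or.inl h
    · exact Or.inr (h.map f hf)

section

variable {A : Type u} {B : Type v} [Group A] [Group B]

theorem tameIn_ker_fst {p : ℕ} (h : TameIn p (⊤ : Subgroup B)) : TameIn p (MonoidHom.fst A B).ker := by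
  have h1 : (MonoidHom.fst A B).ker = (⊤ : Subgroup B).map (MonoidHom.inr A B) := by
    ext ⟨a, b⟩
    rw [MonoidHom.mem_ker, Subgroup.mem_map]
    constructor
    · intro h
      have h' : a = 1 := h
      exact ⟨b, Subgroup.mem_top b, by rw [h']; rfl⟩
    · rintro ⟨b', _, h⟩
      have h' : (1, b') = (a, b) := h
      exact ((Prod.mk.inj h').1).symm
  rw [h1]
  refine h.map _ (fun x y hxy => (Prod.mk.inj hxy).2) ?_
  intro N hN
  refine ⟨?_⟩
  rintro _ ⟨x, hx, rfl⟩ ⟨a, b⟩
  refine ⟨b * x * b⁻¹, hN.conj_mem x hx b, ?_⟩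
  change ((1 : A), b * x * b⁻¹) = (a * 1 * a⁻¹, b * x * b⁻¹)
  rw [mul_one, mul_inv_cancel]

theorem tameIn_ker_snd {p : ℕ} (h : TameIn p (⊤ : Subgroup A)) : TameIn p (MonoidHom.snd A B).ker := by
  have h1 : (MonoidHom.snd A B).ker = (⊤ : Subgroup A).map (MonoidHom.inl A B) := by
    ext ⟨a, b⟩
    rw [MonoidHom.mem_ker, Subgroup.mem_map]
    constructor
    · intro h
      have h' : b = 1 := h
      exact ⟨a, Subgroup.mem_top a, by rw [h']; rfl⟩
    · rintro ⟨a', _, h⟩
      have h' : (a', 1) = (a, b) := h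
      exact ((Prod.mk.inj h').2).symm
  rw [h1]
  refine h.map _ (fun x y hxy => (Prod.mk.inj hxy).1) ?_
  intro N hN
  refine ⟨?_⟩
  rintro _ ⟨x, hx, rfl⟩ ⟨a, b⟩
  refine ⟨a * x * a⁻¹, hN.conj_mem x hx a, ?_⟩
  change (a * x * a⁻¹, (1 : B)) = (a * x * a⁻¹, b * 1 * b⁻¹)
  rw [mul_one, mul_inv_cancel]

end

/-- equal `p`-parts for all primes -/
theorem orderOf_eq_lcm' {G : Type*} {A : Type*} {B : Type*} [Group G] [Finite G] [Group A] [Group B]
    (f : G →* A) (g : G →* B) (hfg : f.ker ⊓ g.ker = ⊥)
    (hps : ∀ p : ℕ, p.Prime → TameIn p f.ker ∨ TameIn p g.ker)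
    (u : MonoidAlgebra ℤ G) (haug : sg (Set.univ : Set G) u = 1) (hfin : 0 < orderOf u) :
    orderOf u = Nat.lcm (orderOf (mp f u)) (orderOf (mp g u)) := by
  have hdf := orderOf_mp_dvd f u
  have hdg := orderOf_mp_dvd g u
  have h0f : orderOf (mp f u) ≠ 0 := fun h => hfin.ne' (Nat.eq_zero_of_zero_dvd (h ▸ hdf))
  have h0g : orderOf (mp g u) ≠ 0 := fun h => hfin.ne' (Nat.eq_zero_of_zero_dvd (h ▸ hdg))
  refine Nat.eq_of_factorization_eq hfin.ne' (Nat.lcm_ne_zero h0f h0g) fun p => ?_
  by_cases hp : p.Prime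
  · rw [Nat.factorization_lcm h0f h0g, Finsupp.sup_apply, Nat.factorization_def _ hp,
      Nat.factorization_def _ hp, Nat.factorization_def _ hp]
    exact padicValNat_orderOf f g hfg hp (hps p hp) u haug hfin
  · rw [Nat.factorization_eq_zero_of_not_prime _ hp, Nat.factorization_eq_zero_of_not_prime _ hp]

theorem mp_triv {C : Type u} {D : Type v} [Group C] [Group D] (c : MonoidAlgebra ℤ C)
    (hc : sg (Set.univ : Set C) c = 1) : mp (1 : C →* D) c = 1 := by
  have h : mp (1 : C →* D) c = single 1 (sg (Set.univ : Set C) c) := by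
    clear hc
    induction c using MonoidAlgebra.induction_linear with
    | zero => rw [map_zero, map_zero, single_zero]
    | add x y hx hy => rw [map_add, map_add, hx, hy, single_add]
    | single x c => rw [mp_single, sg_univ_single, MonoidHom.one_apply]
  rw [h, hc]
  rfl

theorem comm_inl_inr {A : Type u} {B : Type v} [Group A] [Group B] (a : MonoidAlgebra ℤ A)
    (b : MonoidAlgebra ℤ B) : Commute (mp (MonoidHom.inl A B) a) (mp (MonoidHom.inr A B) b) := by
  induction a using MonoidAlgebra.induction_linear with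
  | zero => rw [map_zero]; exact Commute.zero_left _
  | add x y hx hy => rw [map_add]; exact hx.add_left hy
  | single x c =>
    induction b using MonoidAlgebra.induction_linear with
    | zero => rw [map_zero]; exact Commute.zero_right _
    | add x y hx hy => rw [map_add]; exact hx.add_right hy
    | single y d =>
      rw [mp_single, mp_single]
      change single _ _ * single _ _ = single _ _ * single _ _
      rw [single_mul_single, single_mul_single, mul_comm c d]
      congr 1
      change (x * 1, 1 * y) = (1 * x, y * 1)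
      rw [mul_one, one_mul, one_mul, mul_one]

/-- the order of a product of torsion units of the two factors -/
theorem orderOf_prod {A : Type u} {B : Type v} [Group A] [Group B]
    (a : MonoidAlgebra ℤ A) (b : MonoidAlgebra ℤ B) (ha : sg (Set.univ : Set A) a = 1)
    (hb : sg (Set.univ : Set B) b = 1) :
    sg (Set.univ : Set (A × B)) (mp (MonoidHom.inl A B) a * mp (MonoidHom.inr A B) b) = 1 ∧
      orderOf (mp (MonoidHom.inl A B) a * mp (MonoidHom.inr A B) b) = Nat.lcm (orderOf a) (orderOf b) := by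
  have h1 : mp (MonoidHom.fst A B) (mp (MonoidHom.inl A B) a * mp (MonoidHom.inr A B) b) = a := by
    rw [map_mul, mp_comp, mp_comp]
    have e1 : (MonoidHom.fst A B).comp (MonoidHom.inl A B) = MonoidHom.id A := MonoidHom.fst_comp_inl
    have e2 : (MonoidHom.fst A B).comp (MonoidHom.inr A B) = 1 := MonoidHom.fst_comp_inr
    rw [e1, e2, mp_id, mp_triv b hb, mul_one]
  have h2 : mp (MonoidHom.snd A B) (mp (MonoidHom.inl A B) a * mp (MonoidHom.inr A B) b) = b := by
    rw [map_mul, mp_comp, mp_comp]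
    have e1 : (MonoidHom.snd A B).comp (MonoidHom.inl A B) = 1 := MonoidHom.snd_comp_inl
    have e2 : (MonoidHom.snd A B).comp (MonoidHom.inr A B) = MonoidHom.id B := MonoidHom.snd_comp_inr
    rw [e1, e2, mp_id, mp_triv a ha, one_mul]
  refine ⟨by rw [aug_mul, aug_mp, aug_mp, ha, hb, mul_one], Nat.dvd_antisymm ?_ ?_⟩
  · rw [orderOf_dvd_iff_pow_eq_one, (comm_inl_inr a b).mul_pow, ← map_pow, ← map_pow,
      orderOf_dvd_iff_pow_eq_one.1 (Nat.dvd_lcm_left _ _), orderOf_dvd_iff_pow_eq_one.1 (Nat.dvd_lcm_right _ _),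
      map_one, map_one, mul_one]
  · refine Nat.lcm_dvd ?_ ?_
    · conv_lhs => rw [← h1]
      exact orderOf_mp_dvd _ _
    · conv_lhs => rw [← h2]
      exact orderOf_mp_dvd _ _

end H65.SP
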