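import Pool.Agent.H65.SP.Exam

/-!
# The groups `SL(2, F)` are fixed point free
-/

set_option autoImplicit false

namespace H65.SP

open Matrix
open scoped LinearAlgebra.Projectivization

/-- `SL(2, F)` acts on `F ^ 2`; this is fixed point free for all primes different from the characteristic -/
theorem fpf_SL_natural (F : Type) [Field F] [Finite F] {p : ℕ} (hp : p.Prime) (hF : (p : F) ≠ 0) :
    FixedPointFree p (SpecialLinearGroup (Fin 2) F) := by
  classical
  have : Fintype F := Fintype.ofFinite F
  refine ⟨Fin 2 → F, inferInstance, inferInstance, inferInstance, inferInstance, ?_, ?_⟩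
  · obtain ⟨l, hl⟩ := CharP.exists F
    obtain ⟨n, hl', hn⟩ := FiniteField.card F l
    rw [Nat.card_fun, Nat.card_eq_fintype_card (α := F), hn]
    refine Nat.Coprime.pow_left _ (Nat.Coprime.pow_left _ ?_)
    refine (Nat.coprime_primes hl' hp).2 ?_
    rintro rfl
    exact hF (CharP.cast_eq_zero F l)
  · intro x hx v hv
    by_contra hv0
    have h1 : (x : Matrix (Fin 2) (Fin 2) F) *ᵥ v = v := hv
    have h2 : ((x : Matrix (Fin 2) (Fin 2) F) - 1) *ᵥ v = 0 := by
      rw [sub_mulVec, one_mulVec, h1, sub_self]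
    have h3 : ((x : Matrix (Fin 2) (Fin 2) F) - 1).det = 0 :=
      Matrix.exists_mulVec_eq_zero_iff.1 ⟨v, hv0, h2⟩
    have h4 := x.2
    rw [det_fin_two] at h3 h4
    simp only [Matrix.sub_apply, one_apply_eq, one_apply_ne (show (0 : Fin 2) ≠ 1 by decide),
      one_apply_ne (show (1 : Fin 2) ≠ 0 by decide), sub_zero] at h3
    set N : Matrix (Fin 2) (Fin 2) F := (x : Matrix (Fin 2) (Fin 2) F) - 1 with hN
    have h5 : N * N = 0 := by
      ext i j
      rw [Matrix.mul_apply, Fin.sum_univ_two, Matrix.zero_apply]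
      fin_cases i <;> fin_cases j <;>
        simp only [hN, Matrix.sub_apply, one_apply_eq, one_apply_ne (show (0 : Fin 2) ≠ 1 by decide),
          one_apply_ne (show (1 : Fin 2) ≠ 0 by decide), sub_zero, Fin.zero_eta, Fin.mk_one, Fin.isValue]
      · linear_combination (x : Matrix (Fin 2) (Fin 2) F) 0 0 * h4 - h4 - (x : Matrix (Fin 2) (Fin 2) F) 0 0 * h3
      · linear_combination (x : Matrix (Fin 2) (Fin 2) F) 0 1 * (h4 - h3)
      · linear_combination (x : Matrix (Fin 2) (Fin 2) F) 1 0 * (h4 - h3)
      · linear_combination (x : Matrix (Fin 2) (Fin 2) F) 1 1 * h4 - h4 - (x : Matrix (Fin 2) (Fin 2) F) 1 1 * h3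
    have h6 : ∀ k : ℕ, (x : Matrix (Fin 2) (Fin 2) F) ^ k = 1 + k • N := by
      intro k
      have hx1 : (x : Matrix (Fin 2) (Fin 2) F) = 1 + N := by rw [hN]; abel
      induction k with
      | zero => rw [pow_zero, zero_smul, add_zero]
      | succ k ih =>
        rw [pow_succ, ih]
        conv_lhs => rw [hx1]
        rw [mul_add, mul_one, add_mul, one_mul, smul_mul_assoc, h5, smul_zero, add_zero, succ_nsmul]
        abel
    have h7 : x ^ p = 1 := by rw [← hx]; exact pow_orderOf_eq_one x
    have h8 : (x : Matrix (Fin 2) (Fin 2) F) ^ p = 1 := by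
      have := congrArg (fun y : SpecialLinearGroup (Fin 2) F => (y : Matrix (Fin 2) (Fin 2) F)) h7
      simpa using this
    rw [h6 p] at h8
    have h9 : p • N = 0 := by
      have : (1 : Matrix (Fin 2) (Fin 2) F) + p • N - 1 = 1 - 1 := by rw [h8]
      rwa [add_sub_cancel_left, sub_self] at this
    have h10 : N = 0 := by
      ext i j
      have := congrFun (congrFun h9 i) j
      rw [Matrix.smul_apply, Matrix.zero_apply, nsmul_eq_mul] at this
      exact (mul_eq_zero.1 this).resolve_left hF
    have h11 : x = 1 := by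
      apply Subtype.ext
      have : (x : Matrix (Fin 2) (Fin 2) F) - 1 = 0 := h10
      rw [sub_eq_zero] at this
      rw [this]
      rfl
    rw [h11, orderOf_one] at hx
    exact hp.one_lt.ne hx

/-- `SL(2, F)` acts on the projective line; for the field with `p` elements this shows that it is fixed
point free for `p` -/
theorem fpf_SL_proj (F : Type) [Field F] [Finite F] {p : ℕ} (hp : p.Prime) (hF : Nat.card F = p) :
    FixedPointFree p (SpecialLinearGroup (Fin 2) F) := by
  classical
  have hfin : Finite (ℙ F (Fin 2 → F)) := inferInstance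
  refine fpf_perm hp (ℙ F (Fin 2 → F)) (Or.inr ?_) ?_
  · rw [Projectivization.card_of_finrank_two _ _ (by simp), hF]
  · intro x hx
    by_contra hno
    push Not at hno
    have h1 : x ∈ (MulAction.toPermHom (SpecialLinearGroup (Fin 2) F) (ℙ F (Fin 2 → F))).ker := by
      rw [MonoidHom.mem_ker]
      ext a
      rw [MulAction.toPermHom_apply, MulAction.toPerm_apply, hno a]
      rfl
    rw [Projectivization.SL_mulAction_ker, Matrix.SpecialLinearGroup.mem_center_iff] at h1
    obtain ⟨r, hr, hrx⟩ := h1
    rw [Fintype.card_fin] at hr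
    have h2 : x ^ 2 = 1 := by
      apply Subtype.ext
      rw [Matrix.SpecialLinearGroup.coe_pow, ← hrx, ← map_pow, hr, map_one]
      rfl
    have h3 : p ∣ 2 := by
      rw [← hx]
      exact orderOf_dvd_of_pow_eq_one h2
    have h4 : p = 2 := (Nat.prime_dvd_prime_iff_eq hp Nat.prime_two).1 h3
    have h5 : (2 : F) = 0 := by
      have hft : Fintype F := Fintype.ofFinite F
      have := Nat.cast_card_eq_zero F
      rw [← Nat.card_eq_fintype_card, hF, h4] at this
      exact_mod_cast this
    have h6 : (r - 1) ^ 2 = 0 := by linear_combination hr - (r - 1) * h5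
    have h7 : r = 1 := sub_eq_zero.1 (pow_eq_zero_iff two_ne_zero |>.1 h6)
    have h8 : x = 1 := by
      apply Subtype.ext
      rw [← hrx, h7, map_one]
      rfl
    rw [h8, orderOf_one] at hx
    exact hp.one_lt.ne hx

/-- **`SL(2, q)`, `q` prime, is fixed point free for all primes** -/
theorem fpf_SL_prime {p q : ℕ} (hp : p.Prime) (hq : q.Prime) :
    FixedPointFree p (SpecialLinearGroup (Fin 2) (ZMod q)) := by
  have : Fact q.Prime := ⟨hq⟩
  by_cases h : p = q
  · subst h
    exact fpf_SL_proj (ZMod p) hp (Nat.card_zmod p)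
  · refine fpf_SL_natural (ZMod q) hp ?_
    rw [Ne, ZMod.natCast_eq_zero_iff]
    intro h1
    exact h ((Nat.prime_dvd_prime_iff_eq hq hp).1 h1).symm

end H65.SP
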