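import Pool.Agent.H65.SP.Ord

/-!
# Solvable normal subgroups, direct products
-/

set_option autoImplicit false

namespace H65.SP

universe u v

section

variable {G : Type u} [Group G]

theorem pSolvableIn_bot (p : ℕ) : PSolvableIn p (⊥ : Subgroup G) :=
  ⟨0, fun _ => ⊥, rfl, rfl, fun _ => inferInstance, fun i hi => absurd hi (Nat.not_lt_zero i),
    fun i hi => absurd hi (Nat.not_lt_zero i)⟩

theorem PSolvableIn.extend {p : ℕ} {M M' : Subgroup G} (h : PSolvableIn p M) (hn' : M'.Normal)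
    (hle : M ≤ M') (hrel : (∃ e : ℕ, M.relIndex M' = p ^ e) ∨ ¬ p ∣ M.relIndex M') :
    PSolvableIn p M' := by
  obtain ⟨k, N, h0, hk, hn, hle', hrel'⟩ := h
  have e1 : ∀ i, i ≤ k → (if i ≤ k then N i else M') = N i := fun i hi => if_pos hi
  have e2 : (if k + 1 ≤ k then N (k + 1) else M') = M' := if_neg (by omega)
  refine ⟨k + 1, fun i => if i ≤ k then N i else M', ?_, ?_, ?_, ?_, ?_⟩
  · change (if 0 ≤ k then N 0 else M') = ⊥
    rw [e1 0 (Nat.zero_le k), h0]
  · exact e2
  · intro i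
    change (if i ≤ k then N i else M').Normal
    split_ifs
    · exact hn i
    · exact hn'
  · intro i hi
    change (if i ≤ k then N i else M') ≤ (if i + 1 ≤ k then N (i + 1) else M')
    rcases Nat.lt_or_ge i k with h1 | h1
    · rw [e1 i h1.le, e1 (i + 1) h1]
      exact hle' i h1
    · obtain rfl : i = k := by omega
      rw [e1 i le_rfl, e2, hk]
      exact hle
  · intro i hi
    change (∃ e : ℕ, (if i ≤ k then N i else M').relIndex (if i + 1 ≤ k then N (i + 1) else M') = p ^ e) ∨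
      ¬ p ∣ (if i ≤ k then N i else M').relIndex (if i + 1 ≤ k then N (i + 1) else M')
    rcases Nat.lt_or_ge i k with h1 | h1
    · rw [e1 i h1.le, e1 (i + 1) h1]
      exact hrel' i h1
    · obtain rfl : i = k := by omega
      rw [e1 i le_rfl, e2, hk]
      exact hrel

/-- images under injective homomorphisms which map normal subgroups to normal subgroups -/
theorem PSolvableIn.map {H : Type v} [Group H] {p : ℕ} {M : Subgroup H} (h : PSolvableIn p M) (f : H →* G)
    (hf : Function.Injective f) (hnor : ∀ N : Subgroup H, N.Normal → (N.map f).Normal) :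
    PSolvableIn p (M.map f) := by
  obtain ⟨k, N, h0, hk, hn, hle, hrel⟩ := h
  refine ⟨k, fun i => (N i).map f, ?_, ?_, fun i => hnor _ (hn i), fun i hi => Subgroup.map_mono (hle i hi), ?_⟩
  · change (N 0).map f = ⊥
    rw [h0, Subgroup.map_bot]
  · change (N k).map f = M.map f
    rw [hk]
  · intro i hi
    change (∃ e : ℕ, ((N i).map f).relIndex ((N (i + 1)).map f) = p ^ e) ∨
      ¬ p ∣ ((N i).map f).relIndex ((N (i + 1)).map f)
    rw [Subgroup.relIndex_map_map_of_injective _ _ hf]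
    exact hrel i hi

/-- the elements of `M` whose `p`-th power is in `N` -/
def rt (p : ℕ) (M N : Subgroup G) [N.Normal] (hc : ⁅M, M⁆ ≤ N) : Subgroup G where
  carrier := {x | x ∈ M ∧ x ^ p ∈ N}
  one_mem' := ⟨M.one_mem, by rw [one_pow]; exact N.one_mem⟩
  mul_mem' := by
    rintro x y ⟨hx, hx'⟩ ⟨hy, hy'⟩
    refine ⟨M.mul_mem hx hy, ?_⟩
    have h1 : Commute (QuotientGroup.mk' N x) (QuotientGroup.mk' N y) := by
      rw [← commutatorElement_eq_one_iff_commute, ← map_commutatorElement, QuotientGroup.mk'_apply,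
        QuotientGroup.eq_one_iff]
      exact hc (Subgroup.commutator_mem_commutator hx hy)
    rw [← QuotientGroup.eq_one_iff, ← QuotientGroup.mk'_apply, map_pow, map_mul, h1.mul_pow, ← map_pow,
      ← map_pow, QuotientGroup.mk'_apply, QuotientGroup.mk'_apply, (QuotientGroup.eq_one_iff _).2 hx',
      (QuotientGroup.eq_one_iff _).2 hy', one_mul]
  inv_mem' := by
    rintro x ⟨hx, hx'⟩
    refine ⟨M.inv_mem hx, ?_⟩
    rw [inv_pow]
    exact N.inv_mem hx'

theorem mem_rt (p : ℕ) (M N : Subgroup G) [N.Normal] (hc : ⁅M, M⁆ ≤ N) (x : G) :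
    x ∈ rt p M N hc ↔ x ∈ M ∧ x ^ p ∈ N := Iff.rfl

theorem rt_normal (p : ℕ) (M N : Subgroup G) [hM : M.Normal] [hN : N.Normal] (hc : ⁅M, M⁆ ≤ N) :
    (rt p M N hc).Normal := by
  refine ⟨?_⟩
  intro x hx g
  rw [mem_rt] at hx ⊢
  refine ⟨hM.conj_mem x hx.1 g, ?_⟩
  rw [conj_pow]
  exact hN.conj_mem _ hx.2 g

theorem not_dvd_of_rt {p : ℕ} (hp : p.Prime) [Finite G] (M N : Subgroup G) [N.Normal]
    (hc : ⁅M, M⁆ ≤ N) (h : rt p M N hc ≤ N) : ¬ p ∣ N.relIndex M := by
  have : Fact p.Prime := ⟨hp⟩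
  intro hd
  have hd' : p ∣ Nat.card (M ⧸ N.subgroupOf M) := hd
  obtain ⟨y, hy⟩ := exists_prime_orderOf_dvd_card' p hd'
  obtain ⟨x, rfl⟩ := QuotientGroup.mk'_surjective (N.subgroupOf M) y
  have h1 : (x : G) ∈ rt p M N hc := by
    rw [mem_rt]
    refine ⟨x.2, ?_⟩
    have h2 : (QuotientGroup.mk' (N.subgroupOf M) x) ^ p = 1 := by rw [← hy]; exact pow_orderOf_eq_one _
    rw [← map_pow, QuotientGroup.mk'_apply, QuotientGroup.eq_one_iff, Subgroup.mem_subgroupOf] at h2
    exact h2
  have h3 : QuotientGroup.mk' (N.subgroupOf M) x = 1 := by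
    rw [QuotientGroup.mk'_apply, QuotientGroup.eq_one_iff, Subgroup.mem_subgroupOf]
    exact h h1
  rw [h3, orderOf_one] at hy
  exact hp.one_lt.ne hy

theorem pow_of_rt {p : ℕ} (hp : p.Prime) [Finite G] (M N : Subgroup G) [N.Normal]
    (hc : ⁅M, M⁆ ≤ N) (h : M ≤ rt p M N hc) : ∃ e : ℕ, N.relIndex M = p ^ e := by
  have : Fact p.Prime := ⟨hp⟩
  have h1 : IsPGroup p (M ⧸ N.subgroupOf M) := by
    intro y
    obtain ⟨x, rfl⟩ := QuotientGroup.mk'_surjective (N.subgroupOf M) y
    refine ⟨1, ?_⟩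
    rw [pow_one, ← map_pow, QuotientGroup.mk'_apply, QuotientGroup.eq_one_iff, Subgroup.mem_subgroupOf]
    exact (h x.2).2
  exact IsPGroup.iff_card.1 h1

/-- a maximal normal subgroup below a solvable one contains the commutator subgroup -/
theorem comm_le_of_max [Finite G] (M N : Subgroup G) [M.Normal] [hN : N.Normal] (hs : Group.IsSolvable M)
    (hlt : N < M) (hmax : ∀ T : Subgroup G, T.Normal → N ≤ T → T ≤ M → T = N ∨ T = M) : ⁅M, M⁆ ≤ N := by
  have h1 : (⁅M, M⁆ ⊔ N : Subgroup G).Normal := inferInstance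
  have h2 : ⁅M, M⁆ ≤ M := Subgroup.commutator_le_left M M
  rcases hmax _ h1 le_sup_right (sup_le h2 hlt.le) with h | h
  · exact (le_sup_left).trans h.le
  · exfalso
    have h3 : Group.IsSolvable (M.map (QuotientGroup.mk' N)) := by
      have h4 : Function.Surjective ((QuotientGroup.mk' N).subgroupMap M) := MonoidHom.subgroupMap_surjective _ _
      exact Group.isSolvable_of_surjective h4
    have h5 : ⁅M.map (QuotientGroup.mk' N), M.map (QuotientGroup.mk' N)⁆ = M.map (QuotientGroup.mk' N) := by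
      conv_rhs => rw [← h]
      rw [Subgroup.map_sup, ← Subgroup.map_commutator]
      have h6 : N.map (QuotientGroup.mk' N) = ⊥ := by
        rw [eq_bot_iff]
        rintro y ⟨x, hx, rfl⟩
        rw [Subgroup.mem_bot, QuotientGroup.mk'_apply, QuotientGroup.eq_one_iff]
        exact hx
      rw [h6, sup_bot_eq]
    by_cases hb : M.map (QuotientGroup.mk' N) = ⊥
    · apply hlt.not_ge
      intro x hx
      have h7 : QuotientGroup.mk' N x ∈ M.map (QuotientGroup.mk' N) := ⟨x, hx, rfl⟩
      rw [hb, Subgroup.mem_bot, QuotientGroup.mk'_apply, QuotientGroup.eq_one_iff] at h7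
      exact h7
    · have h8 : Nontrivial (M.map (QuotientGroup.mk' N)) := (Subgroup.nontrivial_iff_ne_bot _).2 hb
      have h9 := Group.IsSolvable.commutator_lt_top_of_nontrivial (M.map (QuotientGroup.mk' N))
      have h10 : (_root_.commutator (M.map (QuotientGroup.mk' N))).map (M.map (QuotientGroup.mk' N)).subtype <
          (⊤ : Subgroup (M.map (QuotientGroup.mk' N))).map (M.map (QuotientGroup.mk' N)).subtype :=
        Subgroup.map_subtype_lt_map_subtype.2 h9
      rw [Subgroup.map_subtype_commutator, h5, ← MonoidHom.range_eq_map, Subgroup.range_subtype] at h10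
      exact lt_irrefl _ h10

/-- **solvable normal subgroups are `p`-solvable** -/
theorem pSolvableIn_of_solvable [Finite G] {p : ℕ} (hp : p.Prime) (n : ℕ) : ∀ M : Subgroup G, M.Normal →
    Group.IsSolvable M → Nat.card M ≤ n → PSolvableIn p M := by
  induction n with
  | zero =>
    intro M _ _ h
    exact absurd h (Nat.not_le.2 Nat.card_pos)
  | succ n ih =>
    intro M hM hs hcard
    by_cases hb : M = ⊥
    · rw [hb]
      exact pSolvableIn_bot p
    · have hfin : {N : Subgroup G | N.Normal ∧ N < M}.Finite := Set.toFinite _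
      have hne : {N : Subgroup G | N.Normal ∧ N < M}.Nonempty := ⟨⊥, inferInstance, bot_lt_iff_ne_bot.2 hb⟩
      obtain ⟨N, hN, hmax⟩ := hfin.exists_maximal hne
      obtain ⟨hNn, hlt⟩ := hN
      have hmax' : ∀ T : Subgroup G, T.Normal → N ≤ T → T ≤ M → T = N ∨ T = M := by
        intro T hT hNT hTM
        rcases eq_or_lt_of_le hTM with h | h
        · exact Or.inr h
        · exact Or.inl (le_antisymm (hmax ⟨hT, h⟩ hNT) hNT)
      have hc := comm_le_of_max M N hs hlt hmax'
      have hcN : Nat.card N < Nat.card M := by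
        have h1 : (N : Set G) ⊂ (M : Set G) := hlt
        exact Set.ncard_lt_ncard h1 (Set.toFinite _)
      have hsN : Group.IsSolvable N :=
        Group.isSolvable_of_isSolvable_injective (Subgroup.inclusion_injective hlt.le)
      have hN' := ih N hNn hsN (by omega)
      refine hN'.extend hM hlt.le ?_
      have i1 : N ≤ rt p M N hc := by
        intro x hx
        rw [mem_rt]
        exact ⟨hlt.le hx, N.pow_mem hx p⟩
      have i2 : rt p M N hc ≤ M := by
        intro x hx
        exact ((mem_rt p M N hc x).1 hx).1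
      rcases hmax' (rt p M N hc) (rt_normal p M N hc) i1 i2 with h | h
      · exact Or.inr (not_dvd_of_rt hp M N hc h.le)
      · exact Or.inl (pow_of_rt hp M N hc h.ge)

theorem pSolvableIn_solvable [Finite G] {p : ℕ} (hp : p.Prime) (M : Subgroup G) [hM : M.Normal]
    (hs : Group.IsSolvable M) : PSolvableIn p M :=
  pSolvableIn_of_solvable hp _ M hM hs le_rfl

end

section

variable {A : Type u} {B : Type v} [Group A] [Group B]

theorem pSolvableIn_ker_fst {p : ℕ} (h : PSolvableIn p (⊤ : Subgroup B)) :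
    PSolvableIn p (MonoidHom.fst A B).ker := by
  have h1 : (MonoidHom.fst A B).ker = (⊤ : Subgroup B).map (MonoidHom.inr A B) := by
    ext ⟨a, b⟩
    rw [MonoidHom.mem_ker, Subgroup.mem_map]
    constructor
    · intro h
      have h' : a = 1 := h
      exact ⟨b, Subgroup.mem_top b, by rw [h']; rfl⟩
    · rintro ⟨b', _, h⟩
      have h' : (1, b') = (a, b) := h
      exact ((Prod.mk.inj h').1).symm
  rw [h1]
  refine h.map _ (fun x y hxy => (Prod.mk.inj hxy).2) ?_
  intro N hN
  refine ⟨?_⟩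
  rintro _ ⟨x, hx, rfl⟩ ⟨a, b⟩
  refine ⟨b * x * b⁻¹, hN.conj_mem x hx b, ?_⟩
  change ((1 : A), b * x * b⁻¹) = (a * 1 * a⁻¹, b * x * b⁻¹)
  rw [mul_one, mul_inv_cancel]

theorem pSolvableIn_ker_snd {p : ℕ} (h : PSolvableIn p (⊤ : Subgroup A)) :
    PSolvableIn p (MonoidHom.snd A B).ker := by
  have h1 : (MonoidHom.snd A B).ker = (⊤ : Subgroup A).map (MonoidHom.inl A B) := by
    ext ⟨a, b⟩
    rw [MonoidHom.mem_ker, Subgroup.mem_map]
    constructor
    · intro h
      have h' : b = 1 := h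
      exact ⟨a, Subgroup.mem_top a, by rw [h']; rfl⟩
    · rintro ⟨a', _, h⟩
      have h' : (a', 1) = (a, b) := h
      exact ((Prod.mk.inj h').2).symm
  rw [h1]
  refine h.map _ (fun x y hxy => (Prod.mk.inj hxy).1) ?_
  intro N hN
  refine ⟨?_⟩
  rintro _ ⟨x, hx, rfl⟩ ⟨a, b⟩
  refine ⟨a * x * a⁻¹, hN.conj_mem x hx a, ?_⟩
  change (a * x * a⁻¹, (1 : B)) = (a * x * a⁻¹, b * 1 * b⁻¹)
  rw [mul_one, mul_inv_cancel]

theorem ker_fst_inf_ker_snd : (MonoidHom.fst A B).ker ⊓ (MonoidHom.snd A B).ker = ⊥ := by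
  rw [eq_bot_iff]
  rintro ⟨a, b⟩ ⟨h1, h2⟩
  have h1' : a = 1 := h1
  have h2' : b = 1 := h2
  rw [Subgroup.mem_bot, h1', h2']
  rfl

end

end H65.SP
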