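import Pool.Agent.H65.SP.Mod
import Pool.Agent.H65.SP.Solv

/-!
# Chains of normal subgroups whose factors are `p`-groups or fixed point free
-/

set_option autoImplicit false

namespace H65.SP

open MonoidAlgebra H58.SP

universe u v w

/-- the factor `B / A` acts on a nontrivial finite abelian group `V` of order prime to `p` in such a way
that the elements of order `p` of `B / A` fix only `0` -/
def FreeFactor {G : Type u} [Group G] (p : ℕ) (A B : Subgroup G) : Prop :=
  ∃ (V : Type) (_ : AddCommGroup V) (_ : DistribMulAction B V), Finite V ∧ Nontrivial V ∧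
    (Nat.card V).Coprime p ∧ (∀ x : B, (x : G) ∈ A → ∀ v : V, x • v = v) ∧
    ∀ x : B, (x : G) ∉ A → (x : G) ^ p ∈ A → ∀ v : V, x • v = v → v = 0

/-- there is a chain `1 = N 0 ≤ N 1 ≤ ... ≤ N k = M` of normal subgroups of `G` such that each factor is
a `p`-group or fixed point free -/
def TameIn {G : Type u} [Group G] (p : ℕ) (M : Subgroup G) : Prop :=
  ∃ (k : ℕ) (N : ℕ → Subgroup G), N 0 = ⊥ ∧ N k = M ∧ (∀ i, (N i).Normal) ∧
    (∀ i < k, N i ≤ N (i + 1)) ∧
    ∀ i < k, (∃ e : ℕ, (N i).relIndex (N (i + 1)) = p ^ e) ∨ FreeFactor p (N i) (N (i + 1))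

/-- an action of a quotient -/
theorem fpf_of_surj {B Q : Type*} [Group B] [Group Q] {p : ℕ} (φ : B →* Q) (hφ : Function.Surjective φ)
    (V : Type) [AddCommGroup V] [DistribMulAction B V] [Finite V] [Nontrivial V]
    (hc : (Nat.card V).Coprime p) (htriv : ∀ x : B, φ x = 1 → ∀ v : V, x • v = v)
    (hfree : ∀ x : B, orderOf (φ x) = p → ∀ v : V, x • v = v → v = 0) : FixedPointFree p Q := by
  have key : ∀ x y : B, φ x = φ y → ∀ v : V, x • v = y • v := by
    intro x y h v
    have h1 : φ (y⁻¹ * x) = 1 := by rw [map_mul, map_inv, h, inv_mul_cancel]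
    have h2 := htriv _ h1 v
    rw [mul_smul, inv_smul_eq_iff] at h2
    exact h2
  let i1 : DistribMulAction Q V :=
    { smul := fun y v => (hφ y).choose • v
      one_smul := fun v => by
        change (hφ 1).choose • v = v
        rw [key _ 1 (by rw [(hφ 1).choose_spec, map_one]), one_smul]
      mul_smul := fun y z v => by
        change (hφ (y * z)).choose • v = (hφ y).choose • (hφ z).choose • v
        rw [smul_smul]
        exact key _ _ (by rw [(hφ (y * z)).choose_spec, map_mul, (hφ y).choose_spec, (hφ z).choose_spec]) v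
      smul_zero := fun y => smul_zero (hφ y).choose
      smul_add := fun y v v' => smul_add (hφ y).choose v v' }
  refine ⟨V, inferInstance, i1, inferInstance, inferInstance, hc, ?_⟩
  intro y hy v hv
  refine hfree (hφ y).choose ?_ v hv
  rw [(hφ y).choose_spec, hy]

section

variable {G : Type u} [Group G]

theorem freeFactor_of_not_dvd {p : ℕ} (hp : p.Prime) (A B : Subgroup G) [A.Normal]
    (h : ¬ p ∣ A.relIndex B) : FreeFactor p A B := by
  obtain ⟨l, hl1, hl2⟩ := Nat.exists_infinite_primes (p + 1)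
  have : Fact l.Prime := ⟨hl2⟩
  let _ : DistribMulAction B (ZMod l) :=
    { smul := fun _ v => v
      one_smul := fun _ => rfl
      mul_smul := fun _ _ _ => rfl
      smul_zero := fun _ => rfl
      smul_add := fun _ _ _ => rfl }
  refine ⟨ZMod l, inferInstance, inferInstance, inferInstance, inferInstance, ?_, fun _ _ _ => rfl, ?_⟩
  · rw [Nat.card_zmod]
    exact (Nat.coprime_primes hl2 hp).2 (by omega)
  · intro x hx hxp
    exfalso
    apply h
    have : Fact p.Prime := ⟨hp⟩
    have h1 : orderOf (QuotientGroup.mk' (A.subgroupOf B) x) = p := by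
      refine orderOf_eq_prime ?_ ?_
      · rw [← map_pow, QuotientGroup.mk'_apply, QuotientGroup.eq_one_iff, Subgroup.mem_subgroupOf]
        exact hxp
      · rw [QuotientGroup.mk'_apply, Ne, QuotientGroup.eq_one_iff, Subgroup.mem_subgroupOf]
        exact hx
    have h2 := orderOf_dvd_natCard (QuotientGroup.mk' (A.subgroupOf B) x)
    rw [h1] at h2
    exact h2

theorem PSolvableIn.tameIn {p : ℕ} (hp : p.Prime) {M : Subgroup G} (h : PSolvableIn p M) :
    TameIn p M := by
  obtain ⟨k, N, h0, hk, hn, hle, hrel⟩ := h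
  refine ⟨k, N, h0, hk, hn, hle, fun i hi => ?_⟩
  rcases hrel i hi with h | h
  · exact Or.inl h
  · have := hn i
    exact Or.inr (freeFactor_of_not_dvd hp _ _ h)

theorem FreeFactor.fixedPointFree {p : ℕ} (hp : p.Prime) (A B : Subgroup G) [A.Normal]
    (h : FreeFactor p A B) : FixedPointFree p (B.map (QuotientGroup.mk' A)) := by
  obtain ⟨V, i1, i2, h1, h2, h3, h4, h5⟩ := h
  refine fpf_of_surj ((QuotientGroup.mk' A).subgroupMap B) (MonoidHom.subgroupMap_surjective _ _) V h3 ?_ ?_
  · intro x hx v
    refine h4 x ?_ v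
    have h6 : QuotientGroup.mk' A (x : G) = 1 := congrArg Subtype.val hx
    rwa [QuotientGroup.mk'_apply, QuotientGroup.eq_one_iff] at h6
  · intro x hx v hv
    rw [← Subgroup.orderOf_coe] at hx
    have hx' : orderOf (QuotientGroup.mk' A (x : G)) = p := hx
    refine h5 x ?_ ?_ v hv
    · intro h6
      rw [← QuotientGroup.eq_one_iff, ← QuotientGroup.mk'_apply] at h6
      rw [h6, orderOf_one] at hx'
      exact hp.one_lt.ne hx'
    · rw [← QuotientGroup.eq_one_iff, ← QuotientGroup.mk'_apply, map_pow, ← hx']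
      exact pow_orderOf_eq_one _

variable [Finite G]

/-- one step -/
theorem no_step' {p : ℕ} (hp : p.Prime) (M L : Subgroup G) [M.Normal] [L.Normal]
    (hM : (∃ e : ℕ, Nat.card M = p ^ e) ∨ FixedPointFree p M) (hML : M ⊓ L = ⊥)
    (w : MonoidAlgebra ℤ G) (haug : sg (Set.univ : Set G) w = 1) (hord : orderOf w = p)
    (h1 : red M w = 1) (h2 : red L w = 1) : False := by
  rcases hM with ⟨e, he⟩ | hM
  · have : Fact p.Prime := ⟨hp⟩
    exact no_pgroup hp (Nat.card M) G M L (IsPGroup.of_card he) le_rfl hML w haug hord h1 h2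
  · exact fpf_core hp M L hML hM w haug hord h1 h2

theorem no_chain' {p : ℕ} (hp : p.Prime) (L : Subgroup G) [L.Normal] (N : ℕ → Subgroup G)
    [hn : ∀ i, (N i).Normal] (k : ℕ) (hle : ∀ i < k, N i ≤ N (i + 1)) (hmon : ∀ i ≤ k, N i ≤ N k)
    (hrel : ∀ i < k, (∃ e : ℕ, (N i).relIndex (N (i + 1)) = p ^ e) ∨ FreeFactor p (N i) (N (i + 1)))
    (hL : N k ⊓ L = ⊥) (j : ℕ) : ∀ (i : ℕ) (hij : i + j = k) (w : MonoidAlgebra ℤ (G ⧸ N i)),
      sg (Set.univ : Set (G ⧸ N i)) w = 1 → orderOf w = p →
      mp (qm (N i) (L ⊔ N i) le_sup_right) w = 1 → mp (qm (N i) (N k) (hmon i (by omega))) w = 1 → False := by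
  induction j with
  | zero =>
    intro i hij w _ hord _ h2
    rw [add_zero] at hij
    subst hij
    have h3 : mp (qm (N i) (N i) le_rfl) w = 1 := h2
    rw [qm_self, mp_id] at h3
    rw [h3, orderOf_one] at hord
    exact hp.one_lt.ne hord
  | succ j ih =>
    intro i hij w haug hord h1 h2
    have hik : i < k := by omega
    have : Fact p.Prime := ⟨hp⟩
    by_cases hw : mp (qm (N i) (N (i + 1)) (hle i hik)) w = 1
    · have hMn : ((N (i + 1)).map (QuotientGroup.mk' (N i))).Normal :=
        Subgroup.Normal.map inferInstance _ (QuotientGroup.mk'_surjective _)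
      have hLn : (L.map (QuotientGroup.mk' (N i))).Normal :=
        Subgroup.Normal.map inferInstance _ (QuotientGroup.mk'_surjective _)
      refine no_step' hp ((N (i + 1)).map (QuotientGroup.mk' (N i))) (L.map (QuotientGroup.mk' (N i))) ?_ ?_ w
        haug hord ?_ ?_
      · rcases hrel i hik with h | h
        · left
          rw [card_map_mk]
          exact h
        · exact Or.inr (h.fixedPointFree hp _ _)
      · rw [eq_bot_iff]
        rintro y ⟨⟨m, hm, rfl⟩, ⟨l, hl, hlm⟩⟩
        rw [Subgroup.mem_bot]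
        have h3 : m⁻¹ * l ∈ N i := by
          rw [← QuotientGroup.eq]
          exact hlm.symm
        have h4 : l ∈ N k ⊓ L := by
          refine Subgroup.mem_inf.2 ⟨?_, hl⟩
          have := (N (i + 1)).mul_mem hm (hle i hik h3)
          rw [mul_inv_cancel_left] at this
          exact hmon (i + 1) (by omega) this
        rw [hL, Subgroup.mem_bot] at h4
        rw [← hlm, h4, map_one]
      · refine red_eq_one ?_ hw
        intro y hy
        obtain ⟨x, rfl⟩ := QuotientGroup.mk'_surjective (N i) y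
        rw [MonoidHom.mem_ker, qm_mk, QuotientGroup.mk'_apply, QuotientGroup.eq_one_iff] at hy
        exact ⟨x, hy, rfl⟩
      · refine red_eq_one ?_ h1
        intro y hy
        obtain ⟨x, rfl⟩ := QuotientGroup.mk'_surjective (N i) y
        rw [MonoidHom.mem_ker, qm_mk, QuotientGroup.mk'_apply, QuotientGroup.eq_one_iff,
          Subgroup.mem_sup_of_normal_right] at hy
        obtain ⟨l, hl, n, hn', rfl⟩ := hy
        refine ⟨l, hl, ?_⟩
        rw [QuotientGroup.mk'_apply, QuotientGroup.mk'_apply, QuotientGroup.mk_mul_of_mem l hn']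
    · have hordw : orderOf (mp (qm (N i) (N (i + 1)) (hle i hik)) w) = p := by
        refine orderOf_eq_prime ?_ hw
        rw [← map_pow, ← hord, pow_orderOf_eq_one, map_one]
      refine ih (i + 1) (by omega) _ (by rw [aug_mp, haug]) hordw ?_ ?_
      · rw [mp_comp, qm_comp]
        have h3 : L ⊔ N i ≤ L ⊔ N (i + 1) := sup_le_sup_left (hle i hik) L
        have h4 : qm (N i) (L ⊔ N (i + 1)) ((hle i hik).trans le_sup_right) =
            (qm (L ⊔ N i) (L ⊔ N (i + 1)) h3).comp (qm (N i) (L ⊔ N i) le_sup_right) := (qm_comp _ _ _ _ _).symm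
        rw [h4, ← mp_comp, h1, map_one]
      · rw [mp_comp, qm_comp]
        exact h2

/-- **no torsion unit of order `p` is trivial modulo two normal subgroups with trivial intersection, one
of which is `p`-tame** -/
theorem no_two' {p : ℕ} (hp : p.Prime) (K L : Subgroup G) [K.Normal] [L.Normal] (hK : TameIn p K)
    (hKL : K ⊓ L = ⊥) (w : MonoidAlgebra ℤ G) (haug : sg (Set.univ : Set G) w = 1) (hord : orderOf w = p)
    (h1 : red K w = 1) (h2 : red L w = 1) : False := by
  obtain ⟨k, N, h0, hk, hn, hle, hrel⟩ := hK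
  have hmon : ∀ i ≤ k, N i ≤ N k := by
    intro i hi
    refine Nat.decreasingInduction' (n := k) (m := i) (P := fun i => N i ≤ N k) ?_ hi le_rfl
    intro j hj _ h
    exact (hle j hj).trans h
  have hL : N k ⊓ L = ⊥ := by rw [hk, hKL]
  refine no_chain' hp L N k hle hmon hrel hL k 0 (by omega) (red (N 0) w) (by rw [aug_red, haug]) ?_ ?_ ?_
  · rw [← hord]
    refine orderOf_injective (red (N 0) : MonoidAlgebra ℤ G →* MonoidAlgebra ℤ (G ⧸ N 0)) ?_ w
    refine mp_injective (f := QuotientGroup.mk' (N 0)) ?_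
    rw [← MonoidHom.ker_eq_bot_iff, QuotientGroup.ker_mk', h0]
  · rw [red_eq, mp_comp]
    refine mp_eq_one (M := L) ?_ h2
    intro x hx
    rw [MonoidHom.mem_ker, MonoidHom.comp_apply, qm_mk, QuotientGroup.mk'_apply, QuotientGroup.eq_one_iff]
    exact Subgroup.mem_sup_left hx
  · rw [red_eq, mp_comp]
    refine mp_eq_one (M := K) ?_ h1
    intro x hx
    rw [MonoidHom.mem_ker, MonoidHom.comp_apply, qm_mk, QuotientGroup.mk'_apply, QuotientGroup.eq_one_iff, hk]
    exact hx

end

/-- **the `p`-part of the order of a torsion unit is the maximum of the `p`-parts of the orders of its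
images under two homomorphisms whose kernels intersect trivially, one of which is `p`-tame** -/
theorem padicValNat_orderOf {G : Type u} {A : Type v} {B : Type w} [Group G] [Finite G] [Group A] [Group B]
    (f : G →* A) (g : G →* B) (hfg : f.ker ⊓ g.ker = ⊥) {p : ℕ} (hp : p.Prime)
    (hps : TameIn p f.ker ∨ TameIn p g.ker)
    (u : MonoidAlgebra ℤ G) (haug : sg (Set.univ : Set G) u = 1) (hfin : 0 < orderOf u) :
    padicValNat p (orderOf u) = max (padicValNat p (orderOf (mp f u))) (padicValNat p (orderOf (mp g u))) := by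
  have : Fact p.Prime := ⟨hp⟩
  have hdf := orderOf_mp_dvd f u
  have hdg := orderOf_mp_dvd g u
  have hval : ∀ {d : ℕ}, d ∣ orderOf u → padicValNat p d ≤ padicValNat p (orderOf u) := by
    intro d hd
    exact (padicValNat_dvd_iff_le hfin.ne').1 (pow_padicValNat_dvd.trans hd)
  refine le_antisymm ?_ (max_le (hval hdf) (hval hdg))
  by_contra hlt
  rw [not_le, max_lt_iff] at hlt
  have hkey : ∀ {d : ℕ}, d ∣ orderOf u → padicValNat p d < padicValNat p (orderOf u) →
      d ∣ orderOf u / p := by
    intro d hd hlt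
    obtain ⟨m, hm⟩ := hd
    have hd0 : d ≠ 0 := by
      rintro rfl
      rw [zero_mul] at hm
      exact hfin.ne' hm
    have hm0 : m ≠ 0 := by
      rintro rfl
      rw [mul_zero] at hm
      exact hfin.ne' hm
    rw [hm, padicValNat.mul hd0 hm0] at hlt
    have hpm : p ∣ m := dvd_of_one_le_padicValNat (by omega)
    obtain ⟨m', rfl⟩ := hpm
    refine ⟨m', ?_⟩
    rw [hm, show d * (p * m') = p * (d * m') by ring, Nat.mul_div_cancel_left _ hp.pos]
  have hpo : p ∣ orderOf u := dvd_of_one_le_padicValNat (by omega)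
  have hord : orderOf (u ^ (orderOf u / p)) = p := by
    have h1 : 0 < orderOf u / p := Nat.div_pos (Nat.le_of_dvd hfin hpo) hp.pos
    rw [orderOf_pow_of_dvd h1.ne' (Nat.div_dvd_of_dvd hpo), Nat.div_div_self hpo hfin.ne']
  have haug' : sg (Set.univ : Set G) (u ^ (orderOf u / p)) = 1 := aug_pow u haug _
  have hf : mp f (u ^ (orderOf u / p)) = 1 := by
    rw [map_pow, ← orderOf_dvd_iff_pow_eq_one]
    exact hkey hdf hlt.1
  have hg : mp g (u ^ (orderOf u / p)) = 1 := by
    rw [map_pow, ← orderOf_dvd_iff_pow_eq_one]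
    exact hkey hdg hlt.2
  rcases hps with h | h
  · exact no_two' hp f.ker g.ker h hfg _ haug' hord (red_eq_one le_rfl hf) (red_eq_one le_rfl hg)
  · exact no_two' hp g.ker f.ker h (by rw [inf_comm]; exact hfg) _ haug' hord (red_eq_one le_rfl hg)
      (red_eq_one le_rfl hf)

end H65.SP
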