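import Pool.Agent.H65.SP.Exam

/-!
# Groups with only one subgroup of order `p`
-/

set_option autoImplicit false

namespace H65.SP

section

variable {K : Type} [Group K] (Z : Subgroup K) [Z.Normal] [Fintype Z] (l : ℕ)

/-- functions whose sums over the cosets of `Z` vanish -/
def CosV : AddSubgroup (K → ZMod l) where
  carrier := {f | ∀ g : K, ∑ z : Z, f (z * g) = 0}
  zero_mem' := fun g => by simp
  add_mem' := by
    rintro f f' h1 h2 g
    simp only [Pi.add_apply, Finset.sum_add_distrib]
    rw [h1 g, h2 g, add_zero]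
  neg_mem' := by
    rintro f h1 g
    simp only [Pi.neg_apply, Finset.sum_neg_distrib]
    rw [h1 g, neg_zero]

/-- the translations -/
instance instCosV : DistribMulAction K (CosV Z l) where
  smul k f := ⟨fun g => f.1 (k⁻¹ * g), by
    intro g
    have h1 := f.2 (k⁻¹ * g)
    let e : Z ≃ Z := (MulAut.conjNormal (k⁻¹ : K) : MulAut Z).toEquiv
    rw [← Equiv.sum_comp e] at h1
    rw [← h1]
    refine Finset.sum_congr rfl fun z _ => ?_
    have h2 : ((e z : Z) : K) = k⁻¹ * z * k⁻¹⁻¹ := MulAut.conjNormal_apply _ _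
    rw [h2]
    group⟩
  one_smul f := by
    apply Subtype.ext
    funext g
    change f.1 ((1 : K)⁻¹ * g) = f.1 g
    rw [inv_one, one_mul]
  mul_smul k k' f := by
    apply Subtype.ext
    funext g
    change f.1 ((k * k')⁻¹ * g) = f.1 (k'⁻¹ * (k⁻¹ * g))
    rw [mul_inv_rev, mul_assoc]
  smul_zero k := rfl
  smul_add k f f' := rfl

theorem cosV_smul (k : K) (f : CosV Z l) (g : K) : (k • f).1 g = f.1 (k⁻¹ * g) := rfl

end

/-- **groups with only one subgroup of order `p` are fixed point free** -/
theorem fpf_unique {K : Type} [Group K] [Finite K] {p : ℕ} (hp : p.Prime)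
    (h : ∀ x y : K, orderOf x = p → orderOf y = p → y ∈ Subgroup.zpowers x) : FixedPointFree p K := by
  classical
  by_cases hd : p ∣ Nat.card K
  swap
  · exact fixedPointFree_of_not_dvd hp hd
  have : Fact p.Prime := ⟨hp⟩
  obtain ⟨x, hx⟩ := exists_prime_orderOf_dvd_card' p hd
  set Z : Subgroup K := Subgroup.zpowers x with hZ
  have hn : Z.Normal := by
    refine ⟨?_⟩
    intro y hy g
    have h1 : orderOf (g * x * g⁻¹) = p := by
      rw [← hx]
      exact orderOf_injective (MulAut.conj g).toMonoidHom (MulAut.conj g).injective x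
    have h2 : g * x * g⁻¹ ∈ Z := h x _ hx h1
    obtain ⟨j, rfl⟩ := Subgroup.mem_zpowers_iff.1 hy
    rw [← conj_zpow]
    exact Z.zpow_mem h2 j
  have : Fintype Z := Fintype.ofFinite Z
  have hZc : Fintype.card Z = p := by
    rw [← Nat.card_eq_fintype_card, hZ, Nat.card_zpowers, hx]
  obtain ⟨l, hl1, hl⟩ := Nat.exists_infinite_primes (p + 1)
  have hlp : l ≠ p := by omega
  have hfl : Fact l.Prime := ⟨hl⟩
  have hp0 : (p : ZMod l) ≠ 0 := by
    rw [Ne, ZMod.natCast_eq_zero_iff]
    intro h
    exact hlp ((Nat.prime_dvd_prime_iff_eq hl hp).1 h)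
  have hx1 : x ≠ 1 := by
    rintro rfl
    rw [orderOf_one] at hx
    exact hp.one_lt.ne hx
  refine ⟨CosV Z l, inferInstance, instCosV Z l, inferInstance, ?_, ?_, ?_⟩
  · refine ⟨⟨Pi.single 1 1 - Pi.single x 1, ?_⟩, 0, ?_⟩
    · intro g
      simp only [Pi.sub_apply, Finset.sum_sub_distrib]
      by_cases hg : g ∈ Z
      · have h1 : ∑ z : Z, (Pi.single 1 1 : K → ZMod l) (z * g) = 1 := by
          rw [Finset.sum_eq_single (⟨g, hg⟩⁻¹ : Z)]
          · change (Pi.single 1 1 : K → ZMod l) (g⁻¹ * g) = 1
            rw [inv_mul_cancel, Pi.single_eq_same]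
          · intro z _ hz
            refine Pi.single_eq_of_ne ?_ _
            intro h1
            exact hz (Subtype.ext (eq_inv_of_mul_eq_one_left h1))
          · intro h1
            exact absurd (Finset.mem_univ _) h1
        have hxZ : x ∈ Z := Subgroup.mem_zpowers x
        have h2 : ∑ z : Z, (Pi.single x 1 : K → ZMod l) (z * g) = 1 := by
          rw [Finset.sum_eq_single (⟨x, hxZ⟩ * ⟨g, hg⟩⁻¹ : Z)]
          · change (Pi.single x 1 : K → ZMod l) (x * g⁻¹ * g) = 1
            rw [inv_mul_cancel_right, Pi.single_eq_same]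
          · intro z _ hz
            refine Pi.single_eq_of_ne ?_ _
            intro h1
            exact hz (Subtype.ext (eq_mul_inv_of_mul_eq h1))
          · intro h1
            exact absurd (Finset.mem_univ _) h1
        rw [h1, h2, sub_self]
      · have hxZ : x ∈ Z := Subgroup.mem_zpowers x
        have h1 : ∀ z : Z, (Pi.single 1 1 : K → ZMod l) (z * g) = 0 := by
          intro z
          refine Pi.single_eq_of_ne ?_ _
          intro h1
          apply hg
          have h2 : g = (z : K)⁻¹ := (inv_eq_of_mul_eq_one_right h1).symm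
          rw [h2]
          exact Z.inv_mem z.2
        have h2 : ∀ z : Z, (Pi.single x 1 : K → ZMod l) (z * g) = 0 := by
          intro z
          refine Pi.single_eq_of_ne ?_ _
          intro h1
          apply hg
          have h2 : g = (z : K)⁻¹ * x := by rw [← h1]; group
          rw [h2]
          exact Z.mul_mem (Z.inv_mem z.2) hxZ
        simp only [h1, h2, Finset.sum_const_zero, sub_self]
    · intro h1
      have h2 := congrFun (congrArg Subtype.val h1) 1
      change (Pi.single 1 1 : K → ZMod l) 1 - (Pi.single x 1 : K → ZMod l) 1 = 0 at h2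
      rw [Pi.single_eq_same, Pi.single_eq_of_ne hx1.symm, sub_zero] at h2
      exact one_ne_zero h2
  · have h1 : Nat.card (CosV Z l) ∣ Nat.card (K → ZMod l) := AddSubgroup.card_addSubgroup_dvd_card _
    rw [Nat.card_fun, Nat.card_zmod] at h1
    exact Nat.Coprime.coprime_dvd_left h1 (Nat.Coprime.pow_left _ ((Nat.coprime_primes hl hp).2 hlp))
  · intro y hy f hf
    have hyZ : ∀ z ∈ Z, z ∈ Subgroup.zpowers y := by
      intro z hz
      obtain ⟨j, rfl⟩ := Subgroup.mem_zpowers_iff.1 hz
      exact (Subgroup.zpowers y).zpow_mem (h y x hy hx) j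
    have h1 : ∀ g : K, f.1 (y⁻¹ * g) = f.1 g := by
      intro g
      rw [← cosV_smul, hf]
    have h2 : ∀ (z : K), z ∈ Subgroup.zpowers y → ∀ g, f.1 (z * g) = f.1 g := by
      intro z hz
      obtain ⟨j, rfl⟩ := Subgroup.mem_zpowers_iff.1 hz
      induction j using Int.induction_on with
      | zero =>
        intro g
        rw [zpow_zero, one_mul]
      | succ j ih =>
        intro g
        have h3 := h1 (y * g)
        rw [inv_mul_cancel_left] at h3
        rw [zpow_add_one, mul_assoc, ih ⟨j, rfl⟩, ← h3]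
      | pred j ih =>
        intro g
        rw [zpow_sub_one, mul_assoc, ih ⟨-j, rfl⟩, h1]
    apply Subtype.ext
    funext g
    have h3 := f.2 g
    have h4 : ∑ z : Z, f.1 ((z : K) * g) = ∑ _z : Z, f.1 g :=
      Finset.sum_congr rfl fun z _ => h2 z (hyZ z z.2) g
    rw [h4, Finset.sum_const, Finset.card_univ, hZc, nsmul_eq_mul] at h3
    exact (mul_eq_zero.1 h3).resolve_left hp0

end H65.SP
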